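import Mathlib

set_option autoImplicit false

namespace Pool.Agent.Char3

open Configuration Configuration.Nondegenerate
open Configuration.HasPoints (mkPoint mkPoint_ax)
open Configuration.HasLines (mkLine mkLine_ax)

variable {P L : Type*} [Membership P L] [ProjectivePlane P L]

theorem exists_line_through (p : P) : ∃ l : L, p ∈ l := by
  obtain ⟨q, -⟩ := @ProjectivePlane.exists_config P L _ _
  obtain ⟨l, hl⟩ := exists_line (L := L) p
  obtain ⟨q, hq⟩ := exists_point (P := P) l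
  by_cases h : p = q
  · obtain ⟨p₁, p₂, p₃, l₁, l₂, l₃, h₁₂, h₁₃, h₂₁, h₂₂, h₂₃, h₃₁, h₃₂, h₃₃⟩ :=
      @ProjectivePlane.exists_config P L _ _
    by_cases h1 : p = p₁
    · have : p ≠ p₂ := by
        intro h2
        apply h₁₂
        rw [← h1, h2]; exact h₂₂
      exact ⟨_, (mkLine_ax (L := L) this).1⟩
    · exact ⟨_, (mkLine_ax (L := L) h1).1⟩
  · exact ⟨_, (mkLine_ax (L := L) h).1⟩

theorem exists_point_on (l : L) : ∃ p : P, p ∈ l := by
  by_contra hcon
  push Not at hcon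
  obtain ⟨p₁, p₂, p₃, l₁, l₂, l₃, h₁₂, h₁₃, h₂₁, h₂₂, h₂₃, h₃₁, h₃₂, h₃₃⟩ :=
      @ProjectivePlane.exists_config P L _ _
  by_cases h1 : l = l₁
  · have : l ≠ l₂ := by
      rintro rfl
      exact hcon _ h₂₂
    exact hcon _ (mkPoint_ax (P := P) this).1
  · exact hcon _ (mkPoint_ax (P := P) h1).1

open Classical in
/-- join of two points (total function; `jn p p` is some line through `p`) -/
noncomputable def jn (p q : P) : L :=
  if h : p ≠ q then mkLine h else (exists_line_through p).choose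

open Classical in
/-- meet of two lines (total function) -/
noncomputable def mt (l m : L) : P :=
  if h : l ≠ m then mkPoint h else (exists_point_on l).choose

theorem mem_jn_left (p q : P) : p ∈ (jn p q : L) := by
  unfold jn
  split_ifs with h
  · exact (mkLine_ax h).1
  · exact (exists_line_through p).choose_spec

theorem mem_jn_right (p q : P) : q ∈ (jn p q : L) := by
  unfold jn
  split_ifs with h
  · exact (mkLine_ax h).2
  · have h' : p = q := by simpa using h
    subst h'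
    exact (exists_line_through p).choose_spec

theorem mt_mem_left (l m : L) : (mt l m : P) ∈ l := by
  unfold mt
  split_ifs with h
  · exact (mkPoint_ax h).1
  · exact (exists_point_on l).choose_spec

theorem mt_mem_right (l m : L) : (mt l m : P) ∈ m := by
  unfold mt
  split_ifs with h
  · exact (mkPoint_ax h).2
  · have h' : l = m := by simpa using h
    subst h'
    exact (exists_point_on l).choose_spec

theorem line_eq {p q : P} {l m : L} (hpq : p ≠ q) (h1 : p ∈ l) (h2 : q ∈ l) (h3 : p ∈ m)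
    (h4 : q ∈ m) : l = m :=
  (eq_or_eq h1 h2 h3 h4).resolve_left hpq

theorem point_eq {p q : P} {l m : L} (hlm : l ≠ m) (h1 : p ∈ l) (h2 : p ∈ m) (h3 : q ∈ l)
    (h4 : q ∈ m) : p = q :=
  (eq_or_eq h1 h3 h2 h4).resolve_right hlm

theorem eq_jn {p q : P} {l : L} (h : p ≠ q) (hp : p ∈ l) (hq : q ∈ l) : l = jn p q :=
  line_eq h hp hq (mem_jn_left p q) (mem_jn_right p q)

theorem eq_mt {p : P} {l m : L} (h : l ≠ m) (hp : p ∈ l) (hq : p ∈ m) : p = mt l m :=
  point_eq h hp hq (mt_mem_left l m) (mt_mem_right l m)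

theorem jn_comm' {p q : P} (h : p ≠ q) : (jn p q : L) = jn q p :=
  eq_jn h.symm (mem_jn_right p q) (mem_jn_left p q)

/-- Closed pair of a point set and a line set. -/
def Closed (S : Set P) (T : Set L) : Prop :=
  (∀ p ∈ S, ∀ q ∈ S, p ≠ q → ∀ l : L, p ∈ l → q ∈ l → l ∈ T) ∧
  (∀ l ∈ T, ∀ m ∈ T, l ≠ m → ∀ p : P, p ∈ l → p ∈ m → p ∈ S)

/-- closed, with exactly four points on each of its lines. -/
structure Sub3 (S : Set P) (T : Set L) : Prop where
  join : ∀ p ∈ S, ∀ q ∈ S, p ≠ q → ∀ l : L, p ∈ l → q ∈ l → l ∈ T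
  meet : ∀ l ∈ T, ∀ m ∈ T, l ≠ m → ∀ p : P, p ∈ l → p ∈ m → p ∈ S
  four : ∀ l ∈ T, {p : P | p ∈ S ∧ p ∈ l}.ncard = 4

variable (P L) in
/-- Every quadrangle lies in a subplane of order three. -/
def IsChar3 : Prop :=
  ∀ a b c d : P,
    (¬ ∃ l : L, a ∈ l ∧ b ∈ l ∧ c ∈ l) →
    (¬ ∃ l : L, a ∈ l ∧ b ∈ l ∧ d ∈ l) →
    (¬ ∃ l : L, a ∈ l ∧ c ∈ l ∧ d ∈ l) →
    (¬ ∃ l : L, b ∈ l ∧ c ∈ l ∧ d ∈ l) →
    ∃ (S : Set P) (T : Set L), Sub3 S T ∧ a ∈ S ∧ b ∈ S ∧ c ∈ S ∧ d ∈ S

end Pool.Agent.Char3
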