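import Pool.Agent.Char3.Trans

set_option autoImplicit false

namespace Pool.Agent.Char3

open Configuration Configuration.Nondegenerate Equiv

variable {P L : Type*} [Membership P L] [ProjectivePlane P L]

theorem prod_hom_isTr (hU : UniqueFourth P L) (h3 : IsChar3 P L) {l : L} {B M : P} (hB : B ∉ l)
    (hM : M ∉ l) (hBM : M ≠ B) : IsTr l (hom hU h3 B l hB * hom hU h3 M l hM) := by
  refine ⟨mul_mem (hom_mem hU h3 B l hB) (hom_mem hU h3 M l hM), ?_, ?_⟩
  · intro p hp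
    rw [Perm.mul_apply, hom_apply, hom_apply, homF_axis hp, homF_axis hp]
  · intro p hp h
    exfalso
    rw [Perm.mul_apply, hom_apply, hom_apply] at h
    have h1 : homF M l p = homF B l p := by
      rw [← homF_homF hU h3 hB (homF M l p), h]
    by_cases hpM : p = M
    · subst hpM
      rw [homF_center] at h1
      exact (homF_harm h3 hB hp hBM).ne34 h1
    by_cases hpB : p = B
    · subst hpB
      rw [homF_center] at h1
      exact (homF_harm h3 hM hp (Ne.symm hBM)).ne34 h1.symm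
    have k1 := homF_harm h3 hM hp hpM
    have k2 := homF_harm h3 hB hp hpB
    have m1 := homF_mem_jn h3 hM (p := p)
    have m2 := homF_mem_jn h3 hB (p := p)
    rw [← h1] at k2 m2
    have e1 : (jn M p : L) = jn B p :=
      line_eq k1.ne34 (mem_jn_right _ _) m1 (mem_jn_right _ _) m2
    rw [e1] at k1
    -- k1 : Harm M Y p p', k2 : Harm B Y p p'
    have k1' : Harm L (mt (jn B p : L) l) p (homF M l p) M :=
      k1.swap12.swap23.swap34
    have k2' : Harm L (mt (jn B p : L) l) p (homF M l p) B :=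
      k2.swap12.swap23.swap34
    exact hBM (hU _ _ _ _ _ k1' k2')

/-- the elation mapping `A` to `B`, built from two homologies. -/
theorem exists_tr (hU : UniqueFourth P L) (h3 : IsChar3 P L) {l : L} {A B : P} (hA : A ∉ l)
    (hB : B ∉ l) (hAB : A ≠ B) {M : P} (hM : Harm L (mt (jn A B : L) l) A B M) :
    ∃ σ : Perm P, IsTr l σ ∧ σ A = B ∧ σ B = M ∧ σ M = A := by
  have hl : (jn A B : L) ≠ l := by
    intro h; exact hA (by rw [← h]; exact mem_jn_left _ _)
  have hMj : M ∈ (jn A B : L) :=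
    (hM.swap12.swap23).mem4 (mem_jn_left _ _) (mem_jn_right _ _)
  have hMl : M ∉ l := fun h => hM.ne14 (eq_mt hl hMj h).symm
  have hMB : M ≠ B := hM.ne34.symm
  have hMA : M ≠ A := hM.ne24.symm
  have hY : (mt (jn A B : L) l : P) ∈ l := mt_mem_right _ _
  have hYj : (mt (jn A B : L) l : P) ∈ (jn A B : L) := mt_mem_left _ _
  have j1 : (jn M A : L) = jn A B := (eq_jn hMA hMj (mem_jn_left _ _)).symm
  have j2 : (jn M B : L) = jn A B := (eq_jn hMB hMj (mem_jn_right _ _)).symm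
  have j3 : (jn B A : L) = jn A B := (eq_jn hAB.symm (mem_jn_right _ _) (mem_jn_left _ _)).symm
  have j4 : (jn B M : L) = jn A B := (eq_jn hMB.symm (mem_jn_right _ _) hMj).symm
  -- hom_M A = B
  have s1 : homF M l A = B := by
    apply homF_eq hU h3 hMl hY _ hA (by rw [j1]; exact hYj)
    exact hM.swap34.swap23.swap12
  have s2 : homF M l B = A := by
    rw [← s1, homF_homF hU h3 hMl]
  have s3 : homF B l A = M := by
    apply homF_eq hU h3 hB hY _ hA (by rw [j3]; exact hYj)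
    exact hM.swap23.swap12
  have s4 : homF B l M = A := by
    rw [← s3, homF_homF hU h3 hB]
  refine ⟨hom hU h3 B l hB * hom hU h3 M l hMl, prod_hom_isTr hU h3 hB hMl hMB, ?_, ?_, ?_⟩
  · rw [Perm.mul_apply, hom_apply, hom_apply, s1, homF_center]
  · rw [Perm.mul_apply, hom_apply, hom_apply, s2, s3]
  · rw [Perm.mul_apply, hom_apply, hom_apply, homF_center, s4]

theorem exists_tr' (hU : UniqueFourth P L) (h3 : IsChar3 P L) {l : L} {A B : P} (hA : A ∉ l)
    (hB : B ∉ l) : ∃ σ : Perm P, IsTr l σ ∧ σ A = B := by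
  by_cases hAB : A = B
  · subst hAB; exact ⟨1, IsTr.one l, rfl⟩
  have hY : (mt (jn A B : L) l : P) ∈ l := mt_mem_right _ _
  have hYj : (mt (jn A B : L) l : P) ∈ (jn A B : L) := mt_mem_left _ _
  obtain ⟨M, hM⟩ := exists_harm h3 hYj (mem_jn_left A B) (mem_jn_right A B)
    (ne_of_mem hY hA) (ne_of_mem hY hB) hAB
  obtain ⟨σ, h1, h2, -, -⟩ := exists_tr hU h3 hA hB hAB hM
  exact ⟨σ, h1, h2⟩

variable [Finite P] [Finite L]

/-- if `σ` is an elation with `σ A = B` and `Harm Y A B M`, then `σ⁻¹ A = M`. -/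
theorem tr_inv_apply (hU : UniqueFourth P L) (h3 : IsChar3 P L) {l : L} {σ : Perm P}
    (hσ : IsTr l σ) {A : P} (hA : A ∉ l) (hne : σ A ≠ A) {M : P}
    (hM : Harm L (mt (jn A (σ A) : L) l) A (σ A) M) : σ⁻¹ A = M := by
  obtain ⟨τ, h1, h2, h3', h4⟩ := exists_tr hU h3 hA (off_of_fix hσ.fix hA) hne.symm hM
  have : σ = τ := Tr_ext (l := l) hσ h1 hA h2.symm
  rw [Perm.inv_eq_iff_eq, this, h4]

theorem tr_cube (hU : UniqueFourth P L) (h3 : IsChar3 P L) {l : L} {σ : Perm P}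
    (hσ : IsTr l σ) : σ * (σ * σ) = 1 := by
  by_cases h : σ = 1
  · rw [h]; simp
  obtain ⟨A, hA⟩ := exists_point (P := P) l
  have hne : σ A ≠ A := fun h' => h (hσ.free A hA h')
  have hB : σ A ∉ l := off_of_fix hσ.fix hA
  have hY : (mt (jn A (σ A) : L) l : P) ∈ l := mt_mem_right _ _
  have hYj : (mt (jn A (σ A) : L) l : P) ∈ (jn A (σ A) : L) := mt_mem_left _ _
  obtain ⟨M, hM⟩ := exists_harm h3 hYj (mem_jn_left A (σ A)) (mem_jn_right A (σ A))
    (ne_of_mem hY hA) (ne_of_mem hY hB) hne.symm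
  obtain ⟨τ, h1, h2, h3', h4⟩ := exists_tr hU h3 hA hB hne.symm hM
  have hστ : σ = τ := Tr_ext (l := l) hσ h1 hA h2.symm
  have h5 : IsTr l (σ * (σ * σ)) := hσ.mul (hσ.mul hσ)
  apply h5.free A hA
  rw [Perm.mul_apply, Perm.mul_apply]
  rw [hστ, h2, h3', h4]

/-- elations with different centres commute -/
theorem tx_comm {l : L} {X Z : P} (hX : X ∈ l) (hZ : Z ∈ l) (hXZ : X ≠ Z) {σ τ : Perm P}
    (hσ : IsTX l X σ) (hτ : IsTX l Z τ) : σ * τ = τ * σ := by
  have f : ∀ {ρ : Perm P}, IsTr l ρ → ∀ p, p ∈ l ↔ ρ p ∈ l := by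
    intro ρ hρ p
    constructor
    · intro hp; rw [hρ.fix p hp]; exact hp
    · intro hp
      by_contra h
      exact off_of_fix hρ.fix h hp
  have h1 : IsTX l Z (σ * τ * σ⁻¹) := by
    have := hτ.conj hZ hσ.tr.coll (f hσ.tr)
    rwa [hσ.tr.fix Z hZ] at this
  have h2 : IsTX l Z (σ * τ * σ⁻¹ * τ⁻¹) := h1.mul hZ (hτ.inv hZ)
  have h3 : IsTX l X (τ * σ⁻¹ * τ⁻¹) := by
    have := (hσ.inv hX).conj hX hτ.tr.coll (f hτ.tr)
    rwa [hτ.tr.fix X hX] at this
  have h4 : IsTX l X (σ * (τ * σ⁻¹ * τ⁻¹)) := hσ.mul hX h3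
  have e : σ * τ * σ⁻¹ * τ⁻¹ = σ * (τ * σ⁻¹ * τ⁻¹) := by group
  rw [e] at h2
  have h5 := IsTX.eq_one hX hZ hXZ h4 h2
  rw [← e] at h5
  have h6 : σ * τ = (σ * τ * σ⁻¹ * τ⁻¹) * (τ * σ) := by group
  rw [h5, one_mul] at h6
  exact h6

theorem exists_tx (hU : UniqueFourth P L) (h3 : IsChar3 P L) {l : L} {X A B : P} (hX : X ∈ l)
    (hA : A ∉ l) (hB : B ∉ l) (hBj : B ∈ (jn X A : L)) : ∃ σ : Perm P, IsTX l X σ ∧ σ A = B := by
  by_cases hAB : A = B
  · subst hAB
    exact ⟨1, ⟨IsTr.one l, fun p _ => mem_jn_right _ _⟩, rfl⟩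
  obtain ⟨σ, hσ, hσA⟩ := exists_tr' hU h3 hA hB
  refine ⟨σ, ⟨hσ, ?_⟩, hσA⟩
  obtain ⟨Z, hZ, hc⟩ := exists_center hσ
  have h1 := hc.cen A hA
  rw [hσA] at h1
  have e1 : (jn Z A : L) = jn X A :=
    line_eq (Ne.symm hAB) h1 (mem_jn_right _ _) hBj (mem_jn_right _ _)
  have hl : (jn X A : L) ≠ l := by
    intro h; exact hA (by rw [← h]; exact mem_jn_right _ _)
  have e2 : Z = X := point_eq hl (by rw [← e1]; exact mem_jn_left _ _) hZ (mem_jn_left _ _) hX
  rw [← e2]
  exact hc.cen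

/-- the group of elations with axis `l` is abelian -/
theorem tr_comm (hU : UniqueFourth P L) (h3 : IsChar3 P L) {l : L} {σ τ : Perm P}
    (hσ : IsTr l σ) (hτ : IsTr l τ) : σ * τ = τ * σ := by
  obtain ⟨X, hX, hcX⟩ := exists_center hσ
  obtain ⟨Z, hZ, hcZ⟩ := exists_center hτ
  by_cases hXZ : X = Z
  · subst hXZ
    -- an elation with another centre
    obtain ⟨W, hW, hWX, -⟩ := exists_third (P := P) l X X
    obtain ⟨C, hC⟩ := exists_point (P := P) l
    obtain ⟨D, hD, hDW, hDC⟩ := exists_third (P := P) (jn W C : L) W C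
    have hl : (jn W C : L) ≠ l := by
      intro h; exact hC (by rw [← h]; exact mem_jn_right _ _)
    have hDl : D ∉ l := fun h => hDW (point_eq hl hD h (mem_jn_left _ _) hW)
    obtain ⟨ρ, hρ, hρC⟩ := exists_tx hU h3 hW hC hDl hD
    have hρ1 : ρ ≠ 1 := by
      rintro rfl
      exact hDC hρC.symm
    have h1 : σ * ρ = ρ * σ := tx_comm hX hW hWX.symm hcX hρ
    obtain ⟨V, hV, hcV⟩ := exists_center (hτ.mul hρ.tr)
    have hVX : V ≠ X := by
      rintro rfl
      have h2 : IsTX l V ρ := by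
        have h3 := (hcZ.inv hV).mul hV hcV
        have e : τ⁻¹ * (τ * ρ) = ρ := by group
        rwa [e] at h3
      exact hρ1 (IsTX.eq_one hX hW hWX.symm h2 hρ)
    have h2 : σ * (τ * ρ) = (τ * ρ) * σ := tx_comm hX hV hVX.symm hcX hcV
    have h4 : σ * τ * ρ = τ * σ * ρ := by
      calc σ * τ * ρ = σ * (τ * ρ) := by group
        _ = τ * ρ * σ := h2
        _ = τ * (ρ * σ) := by group
        _ = τ * (σ * ρ) := by rw [h1]
        _ = _ := by group
    exact mul_right_cancel h4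
  · exact tx_comm hX hZ hXZ hcX hcZ

/-- a homology with centre `C ∈ l` inverts the elations with centre `C` and axis `l`. -/
theorem hom_conj_center (hU : UniqueFourth P L) (h3 : IsChar3 P L) {l m : L} {C O : P}
    (hC : C ∈ l) (hCm : C ∉ m) (hO : O ∈ m) (hOl : O ∉ l) {σ : Perm P} (hσ : IsTX l C σ) :
    hom hU h3 C m hCm * σ * (hom hU h3 C m hCm)⁻¹ = σ⁻¹ := by
  have hgl : ∀ p, p ∈ l ↔ (hom hU h3 C m hCm) p ∈ l := by
    have h1 : ∀ p, p ∈ l → homF C m p ∈ l := by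
      intro p hp
      by_cases hpC : p = C
      · rw [hpC, homF_center]; exact hC
      have : l = jn C p := eq_jn (Ne.symm hpC) hC hp
      rw [this]
      exact homF_mem_jn h3 hCm
    intro p
    refine ⟨h1 p, fun h => ?_⟩
    have := h1 _ h
    rwa [hom_apply, homF_homF hU h3 hCm] at this
  have h1 : IsTr l (hom hU h3 C m hCm * σ * (hom hU h3 C m hCm)⁻¹) :=
    hσ.tr.conj (hom_mem hU h3 C m hCm) hgl
  apply Tr_ext (l := l) h1 hσ.tr.inv hOl
  have hrO : (hom hU h3 C m hCm)⁻¹ O = O := by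
    rw [Perm.inv_eq_iff_eq, hom_apply, homF_axis hO]
  rw [Perm.mul_apply, Perm.mul_apply, hrO, hom_apply]
  by_cases hne : σ O = O
  · rw [hne, homF_axis hO]
    have := hσ.tr.free O hOl hne
    rw [this]; rfl
  have hB : σ O ∉ l := off_of_fix hσ.tr.fix hOl
  have hBj : σ O ∈ (jn C O : L) := hσ.cen O hOl
  have hCO : C ≠ O := ne_of_mem hC hOl
  have hjl : (jn C O : L) ≠ l := by
    intro h; exact hOl (by rw [← h]; exact mem_jn_right _ _)
  have hjm : (jn C O : L) ≠ m := by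
    intro h; exact hCm (by rw [← h]; exact mem_jn_left _ _)
  have hBm : σ O ∉ m := fun h => hne (point_eq hjm hBj h (mem_jn_right _ _) hO)
  have hBC : σ O ≠ C := (ne_of_mem hC hB).symm
  have j1 : (jn C (σ O) : L) = jn C O := (eq_jn hBC.symm (mem_jn_left _ _) hBj).symm
  have j2 : (jn O (σ O) : L) = jn C O := (eq_jn (Ne.symm hne) (mem_jn_right _ _) hBj).symm
  have k1 := homF_harm h3 hCm hBm hBC
  have e1 : (mt (jn C (σ O) : L) m : P) = O := by
    rw [j1]; exact (eq_mt hjm (mem_jn_right _ _) hO).symm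
  rw [e1] at k1
  -- k1 : Harm C O (σ O) (r (σ O))
  have e2 : (mt (jn O (σ O) : L) l : P) = C := by
    rw [j2]; exact (eq_mt hjl (mem_jn_left _ _) hC).symm
  have k2 := tr_inv_apply hU h3 hσ.tr hOl hne (M := homF C m (σ O)) (by rw [e2]; exact k1)
  exact k2.symm

/-- a homology with axis `m ∋ O` centralises the elations with axis `l` and centre `m ∩ l`. -/
theorem hom_conj_axis (hU : UniqueFourth P L) (h3 : IsChar3 P L) {l m : L} {C O Y : P}
    (hC : C ∈ l) (hCm : C ∉ m) (hO : O ∈ m) (hOl : O ∉ l) (hYm : Y ∈ m) (hYl : Y ∈ l)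
    {σ : Perm P} (hσ : IsTX l Y σ) :
    hom hU h3 C m hCm * σ * (hom hU h3 C m hCm)⁻¹ = σ := by
  have hgl : ∀ p, p ∈ l ↔ (hom hU h3 C m hCm) p ∈ l := by
    have h1 : ∀ p, p ∈ l → homF C m p ∈ l := by
      intro p hp
      by_cases hpC : p = C
      · rw [hpC, homF_center]; exact hC
      have : l = jn C p := eq_jn (Ne.symm hpC) hC hp
      rw [this]
      exact homF_mem_jn h3 hCm
    intro p
    refine ⟨h1 p, fun h => ?_⟩
    have := h1 _ h
    rwa [hom_apply, homF_homF hU h3 hCm] at this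
  have h1 : IsTr l (hom hU h3 C m hCm * σ * (hom hU h3 C m hCm)⁻¹) :=
    hσ.tr.conj (hom_mem hU h3 C m hCm) hgl
  apply Tr_ext (l := l) h1 hσ.tr hOl
  have hrO : (hom hU h3 C m hCm)⁻¹ O = O := by
    rw [Perm.inv_eq_iff_eq, hom_apply, homF_axis hO]
  rw [Perm.mul_apply, Perm.mul_apply, hrO, hom_apply]
  have hBj : σ O ∈ (jn Y O : L) := hσ.cen O hOl
  have hYO : Y ≠ O := ne_of_mem hYl hOl
  have e1 : (jn Y O : L) = m := (eq_jn hYO hYm hO).symm
  rw [e1] at hBj
  rw [homF_axis hBj]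

/-- the homology `hom C m` with `C ∈ l` preserves `l`. -/
theorem hom_pres (hU : UniqueFourth P L) (h3 : IsChar3 P L) {l m : L} {C : P}
    (hC : C ∈ l) (hCm : C ∉ m) : ∀ p, p ∈ l ↔ (hom hU h3 C m hCm) p ∈ l := by
  have h1 : ∀ p, p ∈ l → homF C m p ∈ l := by
    intro p hp
    by_cases hpC : p = C
    · rw [hpC, homF_center]; exact hC
    have : l = jn C p := eq_jn (Ne.symm hpC) hC hp
    rw [this]
    exact homF_mem_jn h3 hCm
  intro p
  refine ⟨h1 p, fun h => ?_⟩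
  have := h1 _ h
  rwa [hom_apply, homF_homF hU h3 hCm] at this

end Pool.Agent.Char3
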