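import Pool.Agent.Char3.IsoPG
import Pool.Agent.Char3.Spread
import Pool.Agent.Char3.Trans2

set_option autoImplicit false

namespace Pool.Agent.Char3

open Configuration Configuration.Nondegenerate Equiv

universe u

variable {P L : Type u} [Membership P L] [ProjectivePlane P L] [Finite P] [Finite L]

/-- The group of elations is commutative. -/
@[reducible] def trCommGroup (hU : UniqueFourth P L) (h3 : IsChar3 P L) (l : L) :
    CommGroup (Tr (P := P) l) :=
  { (inferInstance : Group (Tr (P := P) l)) with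
    mul_comm := fun a b => Subtype.ext (tr_comm hU h3 a.2 b.2) }

/-- **Main coordinatisation**: uniqueness of the fourth point implies that the plane is
`PG(2, F)`. -/
theorem iso_of_unique (hU : UniqueFourth P L) (h3 : IsChar3 P L) :
    ∃ (F : Type u) (_ : Field F) (f : P ≃ Projectivization F (Fin 3 → F))
      (g : L ≃ {W : Submodule F (Fin 3 → F) // Module.finrank F W = 2}),
      ∀ (p : P) (l : L), p ∈ l ↔ (f p).submodule ≤ (g l).1 := by
  classical
  -- a line and a point off it
  obtain ⟨O₁, -⟩ := @ProjectivePlane.exists_config P L _ _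
  obtain ⟨l, hO₁⟩ := exists_line (L := L) O₁
  obtain ⟨O, hO⟩ := exists_point (P := P) l
  let _ : CommGroup (Tr (P := P) l) := trCommGroup hU h3 l
  let V := Additive (Tr (P := P) l)
  let toP : V → Perm P := fun v => ((Additive.toMul v : Tr (P := P) l) : Perm P)
  have toP_add : ∀ v w : V, toP (v + w) = toP v * toP w := fun v w => rfl
  have toP_neg : ∀ v : V, toP (-v) = (toP v)⁻¹ := fun v => rfl
  have toP_zero : toP 0 = 1 := rfl
  have toP_inj : ∀ v w : V, toP v = toP w → v = w := fun v w h => Subtype.ext h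
  have toP_tr : ∀ v : V, IsTr l (toP v) := fun v => (Additive.toMul v).2
  have ofP : ∀ σ : Perm P, IsTr l σ → ∃ v : V, toP v = σ := fun σ hσ => ⟨Additive.ofMul ⟨σ, hσ⟩, rfl⟩
  let Λ := {X : P // X ∈ l}
  let C : Λ → AddSubgroup V := fun X =>
    { carrier := {v | IsTX l X.1 (toP v)}
      add_mem' := fun {v w} hv hw => hv.mul X.2 hw
      zero_mem' := ⟨IsTr.one l, fun p _ => mem_jn_right _ _⟩
      neg_mem' := fun {v} hv => hv.inv X.2 }
  have memC : ∀ (X : Λ) (v : V), v ∈ C X ↔ IsTX l X.1 (toP v) := fun X v => Iff.rfl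
  have spr : Spr C := by
    refine ⟨?_, ?_, ?_, ?_, ?_, ?_⟩
    · intro v
      apply toP_inj
      rw [toP_add, toP_add, toP_zero, mul_assoc]
      exact tr_cube hU h3 (toP_tr v)
    · intro X Z hXZ v hX hZ
      apply toP_inj
      rw [toP_zero]
      exact IsTX.eq_one X.2 Z.2 (fun h => hXZ (Subtype.ext h)) hX hZ
    · intro v
      obtain ⟨X, hX, hc⟩ := exists_center (toP_tr v)
      exact ⟨⟨X, hX⟩, hc⟩
    · intro X Z hXZ v
      have hXZ' : X.1 ≠ Z.1 := fun h => hXZ (Subtype.ext h)
      set D : P := toP v O with hD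
      have hDl : D ∉ l := off_of_fix (toP_tr v).fix hO
      set E : P := mt (jn X.1 O : L) (jn Z.1 D) with hE
      have hE1 : E ∈ (jn X.1 O : L) := mt_mem_left _ _
      have hE2 : E ∈ (jn Z.1 D : L) := mt_mem_right _ _
      have hXl : (jn X.1 O : L) ≠ l := by
        intro h; exact hO (by rw [← h]; exact mem_jn_right _ _)
      have hZl : (jn Z.1 D : L) ≠ l := by
        intro h; exact hDl (by rw [← h]; exact mem_jn_right _ _)
      have hEl : E ∉ l := by
        intro h
        have e1 : E = X.1 := point_eq hXl hE1 h (mem_jn_left _ _) X.2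
        have e2 : E = Z.1 := point_eq hZl hE2 h (mem_jn_left _ _) Z.2
        exact hXZ' (e1.symm.trans e2)
      obtain ⟨a, ha, haO⟩ := exists_tx hU h3 X.2 hO hEl hE1
      have hDj : D ∈ (jn Z.1 E : L) := by
        have : (jn Z.1 D : L) = jn Z.1 E := eq_jn (ne_of_mem Z.2 hEl) (mem_jn_left _ _) hE2
        rw [← this]; exact mem_jn_right _ _
      obtain ⟨b, hb, hbE⟩ := exists_tx hU h3 Z.2 hEl hDl hDj
      obtain ⟨a', ha'⟩ := ofP a ha.tr
      obtain ⟨b', hb'⟩ := ofP b hb.tr
      refine ⟨a', ?_, b', ?_, ?_⟩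
      · rw [memC, ha']; exact ha
      · rw [memC, hb']; exact hb
      · rw [add_comm]
        apply toP_inj
        rw [toP_add, ha', hb']
        apply Tr_ext (l := l) (toP_tr v) (hb.tr.mul ha.tr) hO
        rw [Perm.mul_apply, haO, hbE]
    · intro X Y hXY
      have hXY' : X.1 ≠ Y.1 := fun h => hXY (Subtype.ext h)
      -- homology with centre Y and axis jn X O
      have hXl : (jn X.1 O : L) ≠ l := by
        intro h; exact hO (by rw [← h]; exact mem_jn_right _ _)
      have hYm : Y.1 ∉ (jn X.1 O : L) := fun h =>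
        hXY' (point_eq hXl (mem_jn_left _ _) X.2 h Y.2)
      let g := hom hU h3 Y.1 (jn X.1 O : L) hYm
      have hg : g ∈ Coll P L := hom_mem hU h3 _ _ hYm
      have hgl : ∀ p, p ∈ l ↔ g p ∈ l := hom_pres hU h3 Y.2 hYm
      let r : V →+ V :=
        { toFun := fun v => Additive.ofMul ⟨g * toP v * g⁻¹, (toP_tr v).conj hg hgl⟩
          map_zero' := by
            apply toP_inj
            show g * 1 * g⁻¹ = 1
            group
          map_add' := by
            intro v w
            apply toP_inj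
            show g * (toP v * toP w) * g⁻¹ = (g * toP v * g⁻¹) * (g * toP w * g⁻¹)
            group }
      have hr : ∀ v, toP (r v) = g * toP v * g⁻¹ := fun v => rfl
      refine ⟨r, ?_, ?_, ?_⟩
      · intro a ha
        apply toP_inj
        rw [hr]
        exact hom_conj_axis hU h3 Y.2 hYm (mem_jn_right _ _) hO (mem_jn_left _ _) X.2 ha
      · intro b hb
        apply toP_inj
        rw [hr, toP_neg]
        exact hom_conj_center hU h3 Y.2 hYm (mem_jn_right _ _) hO hb
      · intro Z
        refine ⟨⟨g Z.1, (hgl _).mp Z.2⟩, ?_⟩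
        intro v hv
        rw [memC, hr]
        exact IsTX.conj Z.2 hg hgl hv
    · intro X
      obtain ⟨D, hD, hDX, hDO⟩ := exists_third (P := P) (jn X.1 O : L) X.1 O
      have hXl : (jn X.1 O : L) ≠ l := by
        intro h; exact hO (by rw [← h]; exact mem_jn_right _ _)
      have hDl : D ∉ l := fun h => hDX (point_eq hXl hD h (mem_jn_left _ _) X.2)
      obtain ⟨σ, hσ, hσO⟩ := exists_tx hU h3 X.2 hO hDl hD
      obtain ⟨v, hv⟩ := ofP σ hσ.tr
      refine ⟨v, ?_, ?_⟩
      · rw [memC, hv]; exact hσ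
      · rintro rfl
        rw [toP_zero] at hv
        rw [← hv] at hσO
        exact hDO hσO.symm
  -- three points on l
  obtain ⟨A, B, hA, hB, hAB⟩ := exists_two_points (P := P) l
  obtain ⟨D, hD, hDA, hDB⟩ := exists_third (P := P) l A B
  have hVfin : Finite V := inferInstanceAs (Finite (Tr (P := P) l))
  obtain ⟨F, fld, hFfin, φ, ψ, hφb, hφadd, hψb, hcn, hcs⟩ :=
    spr.coord (X0 := ⟨A, hA⟩) (Xi := ⟨B, hB⟩) (X1 := ⟨D, hD⟩)
      (fun h => hAB (congrArg Subtype.val h)) (fun h => hDA (congrArg Subtype.val h).symm)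
      (fun h => hDB (congrArg Subtype.val h))
  refine ⟨F, fld, ?_⟩
  -- coordinates of affine points
  have haff : ∀ p : P, p ∉ l → ∃ q : F × F, toP (φ q) O = p := by
    intro p hp
    obtain ⟨σ, hσ, hσO⟩ := exists_tr' hU h3 hO hp
    obtain ⟨v, hv⟩ := ofP σ hσ
    obtain ⟨q, hq⟩ := hφb.2 v
    exact ⟨q, by rw [hq, hv, hσO]⟩
  have haff' : ∀ q : F × F, toP (φ q) O ∉ l := fun q => off_of_fix (toP_tr _).fix hO
  have hφinj : ∀ q q' : F × F, toP (φ q) O = toP (φ q') O → q = q' := by
    intro q q' h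
    apply hφb.1
    apply toP_inj
    exact Tr_ext (l := l) (toP_tr _) (toP_tr _) hO h
  have hinf : ∀ p : P, p ∈ l → ∃ o : Option F, (ψ o).1 = p := by
    intro p hp
    obtain ⟨o, ho⟩ := hψb.2 ⟨p, hp⟩
    exact ⟨o, by rw [ho]⟩
  -- coordinates
  have hvex : ∀ p : P, ∃ v : Fin 3 → F,
      (∃ x y, toP (φ (x, y)) O = p ∧ v = ![1, x, y]) ∨
      ((ψ none).1 = p ∧ v = ![0, 0, 1]) ∨ (∃ m, (ψ (some m)).1 = p ∧ v = ![0, 1, m]) := by
    intro p
    by_cases hp : p ∈ l
    · obtain ⟨o, ho⟩ := hinf p hp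
      rcases o with _ | m
      · exact ⟨![0, 0, 1], Or.inr (Or.inl ⟨ho, rfl⟩)⟩
      · exact ⟨![0, 1, m], Or.inr (Or.inr ⟨m, ho, rfl⟩)⟩
    · obtain ⟨⟨x, y⟩, hq⟩ := haff p hp
      exact ⟨![1, x, y], Or.inl ⟨x, y, hq, rfl⟩⟩
  choose v hv using hvex
  have huex : ∀ k : L, ∃ w : Fin 3 → F,
      (k = l ∧ w = ![1, 0, 0]) ∨
      (k ≠ l ∧ (ψ none).1 ∈ k ∧ ∃ c d, toP (φ (c, d)) O ∈ k ∧ w = ![c, -1, 0]) ∨
      (k ≠ l ∧ ∃ m, (ψ (some m)).1 ∈ k ∧ ∃ c d, toP (φ (c, d)) O ∈ k ∧
        w = ![d - m * c, m, -1]) := by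
    intro k
    by_cases hk : k = l
    · exact ⟨![1, 0, 0], Or.inl ⟨hk, rfl⟩⟩
    obtain ⟨o, ho⟩ := hinf (mt k l) (mt_mem_right _ _)
    obtain ⟨p, hp, hpl⟩ : ∃ p, p ∈ k ∧ p ∉ l := by
      obtain ⟨p, hp, hpne, -⟩ := exists_third (P := P) k (mt k l) (mt k l)
      exact ⟨p, hp, fun h => hpne (eq_mt hk hp h)⟩
    obtain ⟨⟨c, d⟩, hq⟩ := haff p hpl
    have hk' : (mt k l : P) ∈ k := mt_mem_left _ _
    rcases o with _ | m
    · exact ⟨![c, -1, 0], Or.inr (Or.inl ⟨hk, by rw [ho]; exact hk', c, d, by rw [hq]; exact hp,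
        rfl⟩)⟩
    · exact ⟨![d - m * c, m, -1], Or.inr (Or.inr ⟨hk, m, by rw [ho]; exact hk', c, d,
        by rw [hq]; exact hp, rfl⟩)⟩
  choose w hw using huex
  -- incidence of affine points with a line k ≠ l through `ψ o` and the affine point `φ (c,d)`
  have hinc_aff : ∀ (k : L) (o : Option F) (c d x y : F), k ≠ l → (ψ o).1 ∈ k →
      toP (φ (c, d)) O ∈ k → (toP (φ (x, y)) O ∈ k ↔ φ (x - c, y - d) ∈ C (ψ o)) := by
    intro k o c d x y hk ho hcd
    have e1 : φ (x, y) = φ (x - c, y - d) + φ (c, d) := by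
      rw [← hφadd]; congr 1; ext <;> simp
    have hne : (ψ o).1 ≠ toP (φ (c, d)) O := ne_of_mem (ψ o).2 (haff' _)
    have hkj : k = jn (ψ o).1 (toP (φ (c, d)) O) := eq_jn hne ho hcd
    constructor
    · intro hxy
      rw [memC]
      obtain ⟨τ, hτ, hτO⟩ := exists_tx hU h3 (ψ o).2 (haff' (c, d)) (haff' (x, y))
        (by rw [← hkj]; exact hxy)
      have : toP (φ (x - c, y - d)) = τ := by
        apply Tr_ext (l := l) (toP_tr _) hτ.tr (haff' (c, d))
        rw [hτO, e1, toP_add, Perm.mul_apply]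
      rw [this]; exact hτ
    · intro h
      rw [memC] at h
      have h2 := h.cen _ (haff' (c, d))
      rw [e1, toP_add, Perm.mul_apply, hkj]
      exact h2
  have hinc_inf : ∀ (k : L) (o o' : Option F), k ≠ l → (ψ o).1 ∈ k →
      ((ψ o').1 ∈ k ↔ o' = o) := by
    intro k o o' hk ho
    constructor
    · intro ho'
      apply hψb.1
      apply Subtype.ext
      exact point_eq hk ho' (ψ o').2 ho (ψ o).2
    · rintro rfl; exact ho
  apply iso_of_coords v w
  · intro p
    rcases hv p with ⟨x, y, -, h⟩ | ⟨-, h⟩ | ⟨m, -, h⟩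
    · rw [h]; intro h'; have := congrFun h' 0; simp at this
    · rw [h]; intro h'; have := congrFun h' 2; simp at this
    · rw [h]; intro h'; have := congrFun h' 1; simp at this
  · intro k
    rcases hw k with ⟨-, h⟩ | ⟨-, -, c, d, -, h⟩ | ⟨-, m, -, c, d, -, h⟩
    · rw [h]; intro h'; have := congrFun h' 0; simp at this
    · rw [h]; intro h'; have := congrFun h' 1; simp at this
    · rw [h]; intro h'; have := congrFun h' 2; simp at this
  · intro p k
    rcases hw k with ⟨hk, h⟩ | ⟨hk, ho, c, d, hcd, h⟩ | ⟨hk, m, ho, c, d, hcd, h⟩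
    · rcases hv p with ⟨x, y, hp, h'⟩ | ⟨hp, h'⟩ | ⟨m', hp, h'⟩
      · rw [h, h']
        have : p ∉ l := by rw [← hp]; exact haff' _
        rw [hk]
        simp [fnl, this]
      · rw [h, h', hk, ← hp]
        simp [fnl, (ψ none).2]
      · rw [h, h', hk, ← hp]
        simp [fnl, (ψ (some m')).2]
    · rcases hv p with ⟨x, y, hp, h'⟩ | ⟨hp, h'⟩ | ⟨m', hp, h'⟩
      · rw [h, h', ← hp, hinc_aff k none c d x y hk ho hcd, hcn]
        simp only [fnl, LinearMap.coe_mk, AddHom.coe_mk, Matrix.cons_val_zero, Matrix.cons_val_one,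
          Matrix.cons_val]
        constructor
        · intro h1; linear_combination -h1
        · intro h1; linear_combination -h1
      · rw [h, h', ← hp, hinc_inf k none none hk ho]
        simp [fnl]
      · rw [h, h', ← hp, hinc_inf k none (some m') hk ho]
        simp [fnl]
    · rcases hv p with ⟨x, y, hp, h'⟩ | ⟨hp, h'⟩ | ⟨m', hp, h'⟩
      · rw [h, h', ← hp, hinc_aff k (some m) c d x y hk ho hcd, hcs]
        simp only [fnl, LinearMap.coe_mk, AddHom.coe_mk, Matrix.cons_val_zero, Matrix.cons_val_one,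
          Matrix.cons_val]
        constructor
        · intro h1; linear_combination -h1
        · intro h1; linear_combination -h1
      · rw [h, h', ← hp, hinc_inf k (some m) none hk ho]
        simp [fnl]
      · rw [h, h', ← hp, hinc_inf k (some m) (some m') hk ho]
        simp only [fnl, LinearMap.coe_mk, AddHom.coe_mk, Matrix.cons_val_zero, Matrix.cons_val_one,
          Matrix.cons_val, Option.some.injEq]
        constructor
        · intro h1; linear_combination -h1
        · intro h1; linear_combination -h1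
  · intro z hz
    by_cases h0 : z 0 = 0
    · by_cases h1 : z 1 = 0
      · have h2 : z 2 ≠ 0 := by
          intro h2
          apply hz
          funext i
          fin_cases i
          · exact h0
          · exact h1
          · exact h2
        refine ⟨(ψ none).1, z 2, h2, ?_⟩
        rcases hv (ψ none).1 with ⟨x, y, hp, h'⟩ | ⟨hp, h'⟩ | ⟨m', hp, h'⟩
        · exfalso
          apply haff' (x, y)
          rw [hp]; exact (ψ none).2
        · rw [h']
          funext i
          fin_cases i <;> simp [h0, h1]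
        · exfalso
          have : ψ (some m') = ψ none := Subtype.ext hp
          exact absurd (hψb.1 this) (by simp)
      · refine ⟨(ψ (some (z 2 / z 1))).1, z 1, h1, ?_⟩
        rcases hv (ψ (some (z 2 / z 1))).1 with ⟨x, y, hp, h'⟩ | ⟨hp, h'⟩ | ⟨m', hp, h'⟩
        · exfalso
          apply haff' (x, y)
          rw [hp]; exact (ψ _).2
        · exfalso
          have : ψ none = ψ (some (z 2 / z 1)) := Subtype.ext hp
          exact absurd (hψb.1 this) (by simp)
        · have : ψ (some m') = ψ (some (z 2 / z 1)) := Subtype.ext hp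
          have h2 := hψb.1 this
          rw [Option.some.injEq] at h2
          rw [h', h2]
          funext i
          fin_cases i
          · simp [h0]
          · simp
          · simp; field_simp
    · refine ⟨toP (φ (z 1 / z 0, z 2 / z 0)) O, z 0, h0, ?_⟩
      rcases hv (toP (φ (z 1 / z 0, z 2 / z 0)) O) with ⟨x, y, hp, h'⟩ | ⟨hp, h'⟩ | ⟨m', hp, h'⟩
      · have h2 := hφinj _ _ hp
        rw [Prod.mk.injEq] at h2
        rw [h', h2.1, h2.2]
        funext i
        fin_cases i
        · simp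
        · simp; field_simp
        · simp; field_simp
      · exfalso
        apply haff' (z 1 / z 0, z 2 / z 0)
        rw [← hp]; exact (ψ none).2
      · exfalso
        apply haff' (z 1 / z 0, z 2 / z 0)
        rw [← hp]; exact (ψ _).2

end Pool.Agent.Char3
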