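import Pool.Agent.Char3.Basic

set_option autoImplicit false

namespace Pool.Agent.Char3

open Configuration Configuration.Nondegenerate
open Configuration.HasPoints (mkPoint mkPoint_ax)
open Configuration.HasLines (mkLine mkLine_ax)

variable {P L : Type*} [Membership P L] [ProjectivePlane P L]

/-- points generated by `a b c d`. -/
def genP (L : Type*) [Membership P L] [ProjectivePlane P L] (a b c d : P) : Set P :=
  {x : P | ∀ (S : Set P) (T : Set L),
            a ∈ S → b ∈ S → c ∈ S → d ∈ S →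
            (∀ p ∈ S, ∀ q ∈ S, p ≠ q → ∀ l : L, p ∈ l → q ∈ l → l ∈ T) →
            (∀ l ∈ T, ∀ m ∈ T, l ≠ m → ∀ p : P, p ∈ l → p ∈ m → p ∈ S) →
            x ∈ S}

/-- lines generated by `a b c d`. -/
def genL (L : Type*) [Membership P L] [ProjectivePlane P L] (a b c d : P) : Set L :=
  {l : L | ∀ (S : Set P) (T : Set L),
            a ∈ S → b ∈ S → c ∈ S → d ∈ S →
            (∀ p ∈ S, ∀ q ∈ S, p ≠ q → ∀ l : L, p ∈ l → q ∈ l → l ∈ T) →
            (∀ l ∈ T, ∀ m ∈ T, l ≠ m → ∀ p : P, p ∈ l → p ∈ m → p ∈ S) →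
            l ∈ T}

@[reducible] def subMem (S : Set P) (T : Set L) : Membership S T :=
  ⟨fun l p => (p : P) ∈ (l : L)⟩

/-- The projective plane on a closed pair containing a quadrangle. -/
@[reducible] noncomputable def subPlane {S : Set P} {T : Set L}
    (hj : ∀ p ∈ S, ∀ q ∈ S, p ≠ q → ∀ l : L, p ∈ l → q ∈ l → l ∈ T)
    (hm : ∀ l ∈ T, ∀ m ∈ T, l ≠ m → ∀ p : P, p ∈ l → p ∈ m → p ∈ S)
    {a b c d : P} (ha : a ∈ S) (hb : b ∈ S) (hc : c ∈ S) (hd : d ∈ S)
    (h1 : ¬ ∃ l : L, a ∈ l ∧ b ∈ l ∧ c ∈ l) (h2 : ¬ ∃ l : L, a ∈ l ∧ b ∈ l ∧ d ∈ l)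
    (h3 : ¬ ∃ l : L, a ∈ l ∧ c ∈ l ∧ d ∈ l) (h4 : ¬ ∃ l : L, b ∈ l ∧ c ∈ l ∧ d ∈ l) :
    @ProjectivePlane S T (subMem S T) := by
  let _ : Membership S T := subMem S T
  have hab : a ≠ b := by
    rintro rfl
    exact h1 ⟨jn a c, mem_jn_left a c, mem_jn_left a c, mem_jn_right a c⟩
  have hac : a ≠ c := by
    rintro rfl
    exact h1 ⟨jn a b, mem_jn_left a b, mem_jn_right a b, mem_jn_left a b⟩
  have had : a ≠ d := by
    rintro rfl
    exact h2 ⟨jn a b, mem_jn_left a b, mem_jn_right a b, mem_jn_left a b⟩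
  have hbc : b ≠ c := by
    rintro rfl
    exact h1 ⟨jn a b, mem_jn_left a b, mem_jn_right a b, mem_jn_right a b⟩
  have hbd : b ≠ d := by
    rintro rfl
    exact h2 ⟨jn a b, mem_jn_left a b, mem_jn_right a b, mem_jn_right a b⟩
  have hcd : c ≠ d := by
    rintro rfl
    exact h3 ⟨jn a c, mem_jn_left a c, mem_jn_right a c, mem_jn_right a c⟩
  have jT : ∀ p ∈ S, ∀ q ∈ S, p ≠ q → (jn p q : L) ∈ T := fun p hp q hq hpq =>
    hj p hp q hq hpq _ (mem_jn_left p q) (mem_jn_right p q)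
  exact
  { exists_point := by
      rintro ⟨l, hl⟩
      by_cases hal : a ∈ l
      · by_cases hbl : b ∈ l
        · by_cases hcl : c ∈ l
          · exact absurd ⟨l, hal, hbl, hcl⟩ h1
          · exact ⟨⟨c, hc⟩, hcl⟩
        · exact ⟨⟨b, hb⟩, hbl⟩
      · exact ⟨⟨a, ha⟩, hal⟩
    exists_line := by
      rintro ⟨p, hp⟩
      by_cases h5 : p ∈ (jn a b : L)
      · by_cases h6 : p ∈ (jn a c : L)
        · refine ⟨⟨jn b c, jT b hb c hc hbc⟩, ?_⟩
          intro h7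
          have h7' : p ∈ (jn b c : L) := h7
          have e1 : (jn a b : L) ≠ jn a c := by
            intro h
            exact h1 ⟨jn a b, mem_jn_left _ _, mem_jn_right _ _, by rw [h]; exact mem_jn_right _ _⟩
          have e2 : p = a := point_eq e1 h5 h6 (mem_jn_left _ _) (mem_jn_left _ _)
          subst e2
          exact h1 ⟨jn b c, h7', mem_jn_left _ _, mem_jn_right _ _⟩
        · exact ⟨⟨jn a c, jT a ha c hc hac⟩, h6⟩
      · exact ⟨⟨jn a b, jT a ha b hb hab⟩, h5⟩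
    eq_or_eq := by
      rintro ⟨p, hp⟩ ⟨q, hq⟩ ⟨l, hl⟩ ⟨m, hm⟩ h5 h6 h7 h8
      rcases eq_or_eq (P := P) (L := L) (p₁ := p) (p₂ := q) (l₁ := l) (l₂ := m) h5 h6 h7 h8 with h | h
      · left; exact Subtype.ext h
      · right; exact Subtype.ext h
    mkPoint := fun {l m} h => ⟨mt l.1 m.1, hm l.1 l.2 m.1 m.2 (fun h' => h (Subtype.ext h')) _
      (mt_mem_left _ _) (mt_mem_right _ _)⟩
    mkPoint_ax := fun {l m} h => ⟨mt_mem_left _ _, mt_mem_right _ _⟩
    mkLine := fun {p q} h => ⟨jn p.1 q.1, hj p.1 p.2 q.1 q.2 (fun h' => h (Subtype.ext h')) _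
      (mem_jn_left _ _) (mem_jn_right _ _)⟩
    mkLine_ax := fun {p q} h => ⟨mem_jn_left _ _, mem_jn_right _ _⟩
    exists_config := by
      refine ⟨⟨d, hd⟩, ⟨a, ha⟩, ⟨b, hb⟩, ⟨jn c d, jT c hc d hd hcd⟩, ⟨jn a b, jT a ha b hb hab⟩,
        ⟨jn a c, jT a ha c hc hac⟩, ?_, ?_, ?_, ?_, ?_, ?_, ?_, ?_⟩
      · intro h; exact h2 ⟨jn a b, mem_jn_left _ _, mem_jn_right _ _, h⟩
      · intro h; exact h3 ⟨jn a c, mem_jn_left _ _, mem_jn_right _ _, h⟩
      · intro h; exact h3 ⟨jn c d, h, mem_jn_left _ _, mem_jn_right _ _⟩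
      · exact mem_jn_left a b
      · exact mem_jn_left a c
      · intro h; exact h4 ⟨jn c d, h, mem_jn_left _ _, mem_jn_right _ _⟩
      · exact mem_jn_right a b
      · intro h; exact h1 ⟨jn a c, mem_jn_left _ _, h, mem_jn_right _ _⟩ }

theorem finite_lines [Finite P] : Finite L := by
  have : Function.Injective (fun l : L => {p : P | p ∈ l}) := by
    intro l m h
    simp only at h
    by_contra hne
    -- take a point off both lines
    obtain ⟨p, hp⟩ := exists_point (P := P) l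
    obtain ⟨q, hq⟩ : ∃ q : P, q ∈ l ∧ q ∉ m := by
      by_contra hcon
      push Not at hcon
      -- all points of l are on m : two points on l
      obtain ⟨k, hk⟩ := exists_line (L := L) (mt l m : P)
      have hkl : k ≠ l := by
        rintro rfl; exact hk (mt_mem_left _ _)
      have h1 : (mt k l : P) ∈ m := hcon _ (mt_mem_right _ _)
      have h2 : (mt k l : P) = mt l m := eq_mt hne (mt_mem_right _ _) h1
      apply hk
      rw [← h2]
      exact mt_mem_left _ _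
    have : q ∈ {p : P | p ∈ m} := by rw [← h]; exact hq.1
    exact hq.2 this
  exact Finite.of_injective _ this

theorem aux13 {N : ℕ} (h : 13 = N ^ 2 + N + 1) : N = 3 := by
  have : N ≤ 3 := by nlinarith
  interval_cases N <;> simp_all

theorem isChar3_of_frozen [Finite P]
    (h : ∀ a b c d : P,
        (¬ ∃ l : L, a ∈ l ∧ b ∈ l ∧ c ∈ l) →
        (¬ ∃ l : L, a ∈ l ∧ b ∈ l ∧ d ∈ l) →
        (¬ ∃ l : L, a ∈ l ∧ c ∈ l ∧ d ∈ l) →
        (¬ ∃ l : L, b ∈ l ∧ c ∈ l ∧ d ∈ l) →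
        Set.ncard {x : P | ∀ (S : Set P) (T : Set L),
            a ∈ S → b ∈ S → c ∈ S → d ∈ S →
            (∀ p ∈ S, ∀ q ∈ S, p ≠ q → ∀ l : L, p ∈ l → q ∈ l → l ∈ T) →
            (∀ l ∈ T, ∀ m ∈ T, l ≠ m → ∀ p : P, p ∈ l → p ∈ m → p ∈ S) →
            x ∈ S} = 13) : IsChar3 P L := by
  intro a b c d h1 h2 h3 h4
  have hfl : Finite L := finite_lines (P := P)
  have hcard := h a b c d h1 h2 h3 h4
  have ha : a ∈ genP L a b c d := fun S T h1 h2 h3 h4 _ _ => h1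
  have hb : b ∈ genP L a b c d := fun S T h1 h2 h3 h4 _ _ => h2
  have hc : c ∈ genP L a b c d := fun S T h1 h2 h3 h4 _ _ => h3
  have hd : d ∈ genP L a b c d := fun S T h1 h2 h3 h4 _ _ => h4
  have hj : ∀ p ∈ genP L a b c d, ∀ q ∈ genP L a b c d, p ≠ q → ∀ l : L, p ∈ l → q ∈ l →
      l ∈ genL L a b c d := by
    intro p hp q hq hpq l hpl hql S T g1 g2 g3 g4 g5 g6
    exact g5 p (hp S T g1 g2 g3 g4 g5 g6) q (hq S T g1 g2 g3 g4 g5 g6) hpq l hpl hql
  have hm : ∀ l ∈ genL L a b c d, ∀ m ∈ genL L a b c d, l ≠ m → ∀ p : P, p ∈ l → p ∈ m →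
      p ∈ genP L a b c d := by
    intro l hl m hm hlm p hpl hpm S T g1 g2 g3 g4 g5 g6
    exact g6 l (hl S T g1 g2 g3 g4 g5 g6) m (hm S T g1 g2 g3 g4 g5 g6) hlm p hpl hpm
  refine ⟨genP L a b c d, genL L a b c d, ⟨hj, hm, ?_⟩, ha, hb, hc, hd⟩
  intro l hl
  let instM : Membership (genP L a b c d) (genL L a b c d) := subMem _ _
  let inst : ProjectivePlane (genP L a b c d) (genL L a b c d) :=
    subPlane hj hm ha hb hc hd h1 h2 h3 h4
  have hcp : Nat.card (genP L a b c d) = 13 := hcard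
  have : Fintype (genP L a b c d) := Fintype.ofFinite _
  have h5 := ProjectivePlane.card_points (genP L a b c d) (genL L a b c d)
  rw [← Nat.card_eq_fintype_card, hcp] at h5
  have h6 : ProjectivePlane.order (genP L a b c d) (genL L a b c d) = 3 :=
    aux13 h5
  have h7 := ProjectivePlane.pointCount_eq (genP L a b c d) (L := genL L a b c d) ⟨l, hl⟩
  rw [h6] at h7
  unfold pointCount at h7
  rw [← Nat.card_coe_set_eq]
  refine Eq.trans ?_ h7
  refine Nat.card_congr ⟨fun p => ⟨⟨p.1, p.2.1⟩, p.2.2⟩, fun p => ⟨p.1.1, p.1.2, p.2⟩,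
    fun p => rfl, fun p => rfl⟩

end Pool.Agent.Char3
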