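import Pool.Agent.Char3.Persp

set_option autoImplicit false

namespace Pool.Agent.Char3

open Configuration Configuration.Nondegenerate Equiv

variable {P L : Type*} [Membership P L] [ProjectivePlane P L]

/-- `a b c d` are the four points of a line in a subplane of order three. -/
def Harm (L : Type*) [Membership P L] (a b c d : P) : Prop :=
  ∃ (S : Set P) (T : Set L) (m : L) (X : P), Sub3 S T ∧ a ∈ m ∧ b ∈ m ∧ c ∈ m ∧ d ∈ m ∧
    a ≠ b ∧ a ≠ c ∧ a ≠ d ∧ b ≠ c ∧ b ≠ d ∧ c ≠ d ∧ a ∈ S ∧ b ∈ S ∧ c ∈ S ∧ d ∈ S ∧ X ∈ S ∧ X ∉ m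

theorem Harm.swap12 {a b c d : P} (h : Harm L a b c d) : Harm L b a c d := by
  obtain ⟨S, T, m, X, hS, ha, hb, hc, hd, hab, hac, had, hbc, hbd, hcd, aS, bS, cS, dS, XS, Xm⟩ := h
  exact ⟨S, T, m, X, hS, hb, ha, hc, hd, hab.symm, hbc, hbd, hac, had, hcd, bS, aS, cS, dS, XS, Xm⟩

theorem Harm.swap23 {a b c d : P} (h : Harm L a b c d) : Harm L a c b d := by
  obtain ⟨S, T, m, X, hS, ha, hb, hc, hd, hab, hac, had, hbc, hbd, hcd, aS, bS, cS, dS, XS, Xm⟩ := h
  exact ⟨S, T, m, X, hS, ha, hc, hb, hd, hac, hab, had, hbc.symm, hcd, hbd, aS, cS, bS, dS, XS, Xm⟩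

theorem Harm.swap34 {a b c d : P} (h : Harm L a b c d) : Harm L a b d c := by
  obtain ⟨S, T, m, X, hS, ha, hb, hc, hd, hab, hac, had, hbc, hbd, hcd, aS, bS, cS, dS, XS, Xm⟩ := h
  exact ⟨S, T, m, X, hS, ha, hb, hd, hc, hab, had, hac, hbd, hbc, hcd.symm, aS, bS, dS, cS, XS, Xm⟩

theorem Harm.ne12 {a b c d : P} (h : Harm L a b c d) : a ≠ b := by
  obtain ⟨S, T, m, X, hS, ha, hb, hc, hd, hab, hac, had, hbc, hbd, hcd, aS, bS, cS, dS, XS, Xm⟩ := h
  exact hab

theorem Harm.ne34 {a b c d : P} (h : Harm L a b c d) : c ≠ d := by
  obtain ⟨S, T, m, X, hS, ha, hb, hc, hd, hab, hac, had, hbc, hbd, hcd, aS, bS, cS, dS, XS, Xm⟩ := h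
  exact hcd

theorem Harm.ne14 {a b c d : P} (h : Harm L a b c d) : a ≠ d := by
  obtain ⟨S, T, m, X, hS, ha, hb, hc, hd, hab, hac, had, hbc, hbd, hcd, aS, bS, cS, dS, XS, Xm⟩ := h
  exact had

theorem Harm.ne24 {a b c d : P} (h : Harm L a b c d) : b ≠ d := by
  obtain ⟨S, T, m, X, hS, ha, hb, hc, hd, hab, hac, had, hbc, hbd, hcd, aS, bS, cS, dS, XS, Xm⟩ := h
  exact hbd

theorem Harm.mem4 {a b c d : P} (h : Harm L a b c d) {l : L} (ha : a ∈ l) (hb : b ∈ l) :
    d ∈ l := by
  obtain ⟨S, T, m, X, hS, ha', hb', hc, hd, hab, hac, had, hbc, hbd, hcd, aS, bS, cS, dS, XS, Xm⟩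
    := h
  rw [line_eq hab ha hb ha' hb']; exact hd

theorem exists_harm (h3 : IsChar3 P L) {a b c : P} {m : L} (ha : a ∈ m) (hb : b ∈ m) (hc : c ∈ m)
    (hab : a ≠ b) (hac : a ≠ c) (hbc : b ≠ c) : ∃ d, Harm L a b c d := by
  obtain ⟨X, hX⟩ := exists_point (P := P) m
  have hXa : X ≠ a := fun h => hX (h ▸ ha)
  -- a third point on Xa : meet with a line through b
  obtain ⟨Z, hZ, hZX, hZa⟩ : ∃ Z, Z ∈ (jn X a : L) ∧ Z ≠ X ∧ Z ≠ a := by
    -- use a quadrangle-free argument: the line through b missing a and X
    obtain ⟨k, hk⟩ := exists_line (L := L) b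
    -- consider V = jn X b ∩ jn ... ; we use a point off both lines
    have hXb : X ≠ b := fun h => hX (h ▸ hb)
    have hXc : X ≠ c := fun h => hX (h ▸ hc)
    -- k does not contain b. V = point of k on jn X b or on jn X c ...
    -- a point V off m and off the line Xa :
    obtain ⟨V, hVm, hVl⟩ : ∃ V : P, V ∉ m ∧ V ∉ (jn X a : L) := by
      have n1 : (jn X b : L) ≠ m := by
        intro h; exact hX (by rw [← h]; exact mem_jn_left _ _)
      have n2 : (jn X a : L) ≠ jn X b := by
        intro h
        have : (jn X a : L) = m := line_eq hab (mem_jn_right _ _)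
          (by rw [h]; exact mem_jn_right _ _) ha hb
        exact hX (by rw [← this]; exact mem_jn_left _ _)
      have n3 : (jn X c : L) ≠ m := by
        intro h; exact hX (by rw [← h]; exact mem_jn_left _ _)
      have n4 : (jn X a : L) ≠ jn X c := by
        intro h
        have : (jn X a : L) = m := line_eq hac (mem_jn_right _ _)
          (by rw [h]; exact mem_jn_right _ _) ha hc
        exact hX (by rw [← this]; exact mem_jn_left _ _)
      have n5 : (jn X b : L) ≠ jn X c := by
        intro h
        have : (jn X b : L) = m := line_eq hbc (mem_jn_right _ _)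
          (by rw [h]; exact mem_jn_right _ _) hb hc
        exact hX (by rw [← this]; exact mem_jn_left _ _)
      have nk1 : k ≠ jn X b := by
        rintro rfl; exact hk (mem_jn_right _ _)
      by_cases hkX : X ∈ k
      · -- k through X, not b; use a line through b, off X and ≠ m
        -- take intersection of jn X c with a line through b: need another line.
        obtain ⟨l₀, hl₀⟩ := exists_line (L := L) X
        have m1 : l₀ ≠ jn X b := by
          rintro rfl; exact hl₀ (mem_jn_left _ _)
        have m2 : l₀ ≠ jn X c := by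
          rintro rfl; exact hl₀ (mem_jn_left _ _)
        by_cases hl0b : b ∈ l₀
        · by_cases hl0m : l₀ = m
          · -- need yet another line missing X. Use nondegeneracy through dual argument
            -- choose a line through c other than m and jn X c
            subst hl0m
            obtain ⟨p₁, p₂, p₃, l₁, l₂, l₃, h₁₂, h₁₃, h₂₁, h₂₂, h₂₃, h₃₁, h₃₂, h₃₃⟩ :=
              @ProjectivePlane.exists_config P L _ _
            -- if all points off `l₀` lie on jn X a, contradiction with nondegeneracy
            by_contra hcon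
            push Not at hcon
            -- then every line through b other than l₀ meets jn X a ... jn X b has only X, b
            have q1 : ∀ V, V ∈ (jn X b : L) → V = b ∨ V = X := by
              intro V hV
              by_cases hVm : V ∈ l₀
              · left; exact point_eq n1 hV hVm (mem_jn_right _ _) hb
              · right
                exact point_eq n2 (hcon V hVm) hV (mem_jn_left _ _) (mem_jn_left _ _)
            have q2 : ∀ V, V ∈ (jn X c : L) → V = c ∨ V = X := by
              intro V hV
              by_cases hVm : V ∈ l₀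
              · left; exact point_eq n3 hV hVm (mem_jn_right _ _) hc
              · right
                exact point_eq n4 (hcon V hVm) hV (mem_jn_left _ _) (mem_jn_left _ _)
            -- every line contains X, or b; and X or c
            have q3 : ∀ l : L, X ∉ l → l = l₀ := by
              intro l hl
              have r1 : b ∈ l := by
                rcases q1 _ (mt_mem_right l (jn X b : L)) with h | h
                · rw [← h]; exact mt_mem_left _ _
                · exfalso; apply hl; rw [← h]; exact mt_mem_left _ _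
              have r2 : c ∈ l := by
                rcases q2 _ (mt_mem_right l (jn X c : L)) with h | h
                · rw [← h]; exact mt_mem_left _ _
                · exfalso; apply hl; rw [← h]; exact mt_mem_left _ _
              exact line_eq hbc r1 r2 hb hc
            -- so at most one line misses X; config gives contradiction
            by_cases c1 : X ∈ l₁
            · by_cases c2 : X ∈ l₂
              · by_cases c3 : X ∈ l₃
                · have : X = p₂ := point_eq (by rintro rfl; exact h₃₃ h₃₂) c2 c3 h₂₂ h₂₃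
                  exact h₂₁ (this ▸ c1)
                · -- l₃ = l₀ ; the line p₁p₃ or p₁p₂ ...
                  have e3 := q3 _ c3
                  have : p₂ ∈ l₀ := e3 ▸ h₂₃
                  have w1 : p₁ ≠ p₂ := fun h => h₁₂ (h ▸ h₂₂)
                  have w2 : (jn p₁ p₂ : L) ≠ l₀ := by
                    intro h; apply h₁₃; rw [e3, ← h]; exact mem_jn_left _ _
                  have w3 : X ∈ (jn p₁ p₂ : L) := by
                    by_contra h; exact w2 (q3 _ h)
                  have w4 : (jn p₁ p₂ : L) ≠ l₂ := by
                    intro h; apply h₁₂; rw [← h]; exact mem_jn_left _ _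
                  have w5 : X = p₂ := point_eq w4 w3 c2 (mem_jn_right _ _) h₂₂
                  exact h₂₁ (w5 ▸ c1)
              · have e2 := q3 _ c2
                by_cases c3 : X ∈ l₃
                · have w1 : p₁ ≠ p₂ := fun h => h₁₂ (h ▸ h₂₂)
                  have w2 : (jn p₁ p₂ : L) ≠ l₀ := by
                    intro h; apply h₁₂; rw [e2, ← h]; exact mem_jn_left _ _
                  have w3 : X ∈ (jn p₁ p₂ : L) := by
                    by_contra h; exact w2 (q3 _ h)
                  have w4 : (jn p₁ p₂ : L) ≠ l₃ := by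
                    intro h; apply h₁₃; rw [← h]; exact mem_jn_left _ _
                  have w5 : X = p₂ := point_eq w4 w3 c3 (mem_jn_right _ _) h₂₃
                  exact h₂₁ (w5 ▸ c1)
                · have e3 := q3 _ c3
                  exact h₃₃ (e3 ▸ (e2 ▸ h₃₂))
            · have e1 := q3 _ c1
              have c2 : X ∈ l₂ := by
                by_contra h
                have := q3 _ h
                exact h₂₁ (e1 ▸ (this ▸ h₂₂))
              have c3 : X ∈ l₃ := by
                by_contra h
                have := q3 _ h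
                exact h₂₁ (e1 ▸ (this ▸ h₂₃))
              have e2 : X = p₂ := point_eq (by rintro rfl; exact h₃₃ h₃₂) c2 c3 h₂₂ h₂₃
              -- lines through p₃ (not on l₁): jn p₁ p₃ misses X?
              have w1 : p₁ ≠ p₃ := fun h => h₁₂ (h ▸ h₃₂)
              have w2 : (jn p₁ p₃ : L) ≠ l₀ := by
                intro h; apply h₃₁; rw [e1, ← h]; exact mem_jn_right _ _
              have w3 : X ∈ (jn p₁ p₃ : L) := by
                by_contra h; exact w2 (q3 _ h)
              have w5 : (jn p₁ p₃ : L) ≠ l₂ := by
                intro h; apply h₁₂; rw [← h]; exact mem_jn_left _ _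
              have w4 : X = p₃ := point_eq w5 w3 c2 (mem_jn_right _ _) h₃₂
              exact h₃₃ (w4 ▸ c3)
          · -- l₀ through b, ≠ m, misses X: V = l₀ ∩ jn X c
            refine ⟨mt l₀ (jn X c : L), ?_, ?_⟩
            · intro h
              have h1 : (mt l₀ (jn X c : L) : P) = b :=
                point_eq hl0m (mt_mem_left _ _) h hl0b hb
              have h2 : b ∈ (jn X c : L) := by rw [← h1]; exact mt_mem_right _ _
              exact n5 (line_eq hXb (mem_jn_left _ _) (mem_jn_right _ _) (mem_jn_left _ _) h2)
            · intro h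
              have h1 : (mt l₀ (jn X c : L) : P) = X :=
                point_eq n4 h (mt_mem_right _ _) (mem_jn_left _ _) (mem_jn_left _ _)
              exact hl₀ (by rw [← h1]; exact mt_mem_left _ _)
        · -- l₀ misses X and b: V = l₀ ∩ jn X b
          refine ⟨mt l₀ (jn X b : L), ?_, ?_⟩
          · intro h
            have h1 : (mt l₀ (jn X b : L) : P) = b :=
              point_eq n1 (mt_mem_right _ _) h (mem_jn_right _ _) hb
            exact hl0b (by rw [← h1]; exact mt_mem_left _ _)
          · intro h
            have h1 : (mt l₀ (jn X b : L) : P) = X :=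
              point_eq n2 h (mt_mem_right _ _) (mem_jn_left _ _) (mem_jn_left _ _)
            exact hl₀ (by rw [← h1]; exact mt_mem_left _ _)
      · -- k misses X and b
        refine ⟨mt k (jn X b : L), ?_, ?_⟩
        · intro h
          have h1 : (mt k (jn X b : L) : P) = b :=
            point_eq n1 (mt_mem_right _ _) h (mem_jn_right _ _) hb
          exact hk (by rw [← h1]; exact mt_mem_left _ _)
        · intro h
          have h1 : (mt k (jn X b : L) : P) = X :=
            point_eq n2 h (mt_mem_right _ _) (mem_jn_left _ _) (mem_jn_left _ _)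
          exact hkX (by rw [← h1]; exact mt_mem_left _ _)
    -- project V from b or c to the line Xa
    have n1 : (jn X a : L) ≠ m := by
      intro h; exact hX (by rw [← h]; exact mem_jn_left _ _)
    have hVb : V ≠ b := fun h => hVm (h ▸ hb)
    have hVc : V ≠ c := fun h => hVm (h ▸ hc)
    have hVX : V ≠ X := fun h => hVl (h ▸ mem_jn_left _ _)
    by_cases hXV : X ∈ (jn b V : L)
    · -- then use c
      have hXV' : X ∉ (jn c V : L) := by
        intro h
        have e1 : (jn b V : L) = jn c V :=
          line_eq hVX (mem_jn_right _ _) hXV (mem_jn_right _ _) h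
        have e2 : (jn b V : L) = m :=
          line_eq hbc (mem_jn_left _ _) (by rw [e1]; exact mem_jn_left _ _) hb hc
        exact hVm (by rw [← e2]; exact mem_jn_right _ _)
      refine ⟨mt (jn c V : L) (jn X a), mt_mem_right _ _, ?_, ?_⟩
      · intro h; exact hXV' (by rw [← h]; exact mt_mem_left _ _)
      · intro h
        have e1 : a ∈ (jn c V : L) := by rw [← h]; exact mt_mem_left _ _
        have e2 : (jn c V : L) = m := line_eq hac e1 (mem_jn_left _ _) ha hc
        exact hVm (by rw [← e2]; exact mem_jn_right _ _)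
    · refine ⟨mt (jn b V : L) (jn X a), mt_mem_right _ _, ?_, ?_⟩
      · intro h; exact hXV (by rw [← h]; exact mt_mem_left _ _)
      · intro h
        have e1 : a ∈ (jn b V : L) := by rw [← h]; exact mt_mem_left _ _
        have e2 : (jn b V : L) = m := line_eq hab e1 (mem_jn_left _ _) ha hb
        exact hVm (by rw [← e2]; exact mem_jn_right _ _)
  have n1 : (jn X a : L) ≠ m := by
    intro h; exact hX (by rw [← h]; exact mem_jn_left _ _)
  have hZm : Z ∉ m := fun h => hZa (point_eq n1 hZ h (mem_jn_right _ _) ha)
  have hbl : b ∉ (jn X a : L) := fun h => hab (point_eq n1 (mem_jn_right _ _) ha h hb)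
  have hcl : c ∉ (jn X a : L) := fun h => hac (point_eq n1 (mem_jn_right _ _) ha h hc)
  obtain ⟨S, T, hS, hbS, hcS, hXS, hZS⟩ := h3 b c X Z
    (by
      rintro ⟨k, h1, h2, h3⟩
      have : k = m := line_eq hbc h1 h2 hb hc
      exact hX (this ▸ h3))
    (by
      rintro ⟨k, h1, h2, h3⟩
      have : k = m := line_eq hbc h1 h2 hb hc
      exact hZm (this ▸ h3))
    (by
      rintro ⟨k, h1, h2, h3⟩
      have : k = (jn X a : L) := line_eq hZX h3 h2 hZ (mem_jn_left _ _)
      exact hbl (this ▸ h1))
    (by
      rintro ⟨k, h1, h2, h3⟩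
      have : k = (jn X a : L) := line_eq hZX h3 h2 hZ (mem_jn_left _ _)
      exact hcl (this ▸ h1))
  have hmT : m ∈ T := hS.join _ hbS _ hcS hbc _ hb hc
  have hlT : (jn X a : L) ∈ T := hS.join _ hXS _ hZS hZX.symm _ (mem_jn_left _ _) hZ
  have haS : a ∈ S := hS.meet _ hlT _ hmT n1 _ (mem_jn_right _ _) ha
  obtain ⟨d, hd1, hd2, hd3, hd4, hd5, -⟩ := hS.exists_fourth hmT hab hac hbc haS ha hbS hb hcS hc
  exact ⟨d, S, T, m, X, hS, ha, hb, hc, hd2, hab, hac, hd3.symm, hbc, hd4.symm, hd5.symm, haS, hbS,
    hcS, hd1, hXS, hX⟩

end Pool.Agent.Char3
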