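import Pool.Agent.Char3.Signs

set_option autoImplicit false

namespace Pool.Agent.Char3

open Configuration Configuration.Nondegenerate

variable {P L : Type*} [Membership P L] [ProjectivePlane P L]

/-- configuration data for the involution `s` on `m` with fixed points `O`, `Y`. -/
structure Cfg (m l : L) (O Y X Z : P) : Prop where
  hYm : Y ∈ m
  hOm : O ∈ m
  hOY : O ≠ Y
  hYl : Y ∈ l
  hlm : l ≠ m
  hXl : X ∈ l
  hZl : Z ∈ l
  hXY : X ≠ Y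
  hZY : Z ≠ Y
  hXZ : X ≠ Z

namespace Cfg

variable {m l : L} {O Y X Z : P}

theorem X_m (c : Cfg m l O Y X Z) : X ∉ m := fun h => c.hXY (point_eq c.hlm c.hXl h c.hYl c.hYm)
theorem Z_m (c : Cfg m l O Y X Z) : Z ∉ m := fun h => c.hZY (point_eq c.hlm c.hZl h c.hYl c.hYm)
theorem O_l (c : Cfg m l O Y X Z) : O ∉ l := fun h => c.hOY (point_eq c.hlm h c.hOm c.hYl c.hYm)
theorem hOX (c : Cfg m l O Y X Z) : O ≠ X := (ne_of_mem c.hXl c.O_l).symm
theorem hOZ (c : Cfg m l O Y X Z) : O ≠ Z := (ne_of_mem c.hZl c.O_l).symm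
theorem X_kZ (c : Cfg m l O Y X Z) : X ∉ (jn O Z : L) := by
  intro h
  have : (jn O Z : L) = l := line_eq c.hXZ h (mem_jn_right _ _) c.hXl c.hZl
  exact c.O_l (by rw [← this]; exact mem_jn_left _ _)
theorem Y_kZ (c : Cfg m l O Y X Z) : Y ∉ (jn O Z : L) := by
  intro h
  have : (jn O Z : L) = l := line_eq c.hZY (mem_jn_right _ _) h c.hZl c.hYl
  exact c.O_l (by rw [← this]; exact mem_jn_left _ _)
theorem Y_kX (c : Cfg m l O Y X Z) : Y ∉ (jn O X : L) := by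
  intro h
  have : (jn O X : L) = l := line_eq c.hXY (mem_jn_right _ _) h c.hXl c.hYl
  exact c.O_l (by rw [← this]; exact mem_jn_left _ _)
theorem Z_kX (c : Cfg m l O Y X Z) : Z ∉ (jn O X : L) := by
  intro h
  have : (jn O X : L) = l := line_eq c.hXZ (mem_jn_right _ _) h c.hXl c.hZl
  exact c.O_l (by rw [← this]; exact mem_jn_left _ _)

/-- the involution -/
noncomputable def s (c : Cfg m l O Y X Z) : Equiv.Perm {p : P // p ∈ m} :=
  (pers Z m (jn O X) c.Z_m c.Z_kX).trans ((pers Y (jn O X) (jn O Z) c.Y_kX c.Y_kZ).trans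
    (pers X (jn O Z) m c.X_kZ c.X_m))

theorem s_coe (c : Cfg m l O Y X Z) (p : {p : P // p ∈ m}) :
    (c.s p : P) = pr X m (pr Y (jn O Z : L) (pr Z (jn O X : L) p.1)) := rfl

theorem s_O (c : Cfg m l O Y X Z) : c.s ⟨O, c.hOm⟩ = ⟨O, c.hOm⟩ := by
  apply Subtype.ext
  rw [s_coe]
  simp only
  rw [pr_self c.Z_kX (mem_jn_left _ _), pr_self c.Y_kZ (mem_jn_left _ _), pr_self c.X_m c.hOm]

theorem s_Y (c : Cfg m l O Y X Z) : c.s ⟨Y, c.hYm⟩ = ⟨Y, c.hYm⟩ := by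
  apply Subtype.ext
  rw [s_coe]
  simp only
  have h1 : X = pr Z (jn O X) Y := eq_pr c.Z_kX c.hZY.symm c.hZl c.hYl c.hXl (mem_jn_right _ _)
  have h2 : Z = pr Y (jn O Z) X := eq_pr c.Y_kZ c.hXY c.hYl c.hXl c.hZl (mem_jn_right _ _)
  have h3 : Y = pr X m Z := eq_pr c.X_m c.hXZ.symm c.hXl c.hZl c.hYl c.hYm
  rw [← h1, ← h2, ← h3]

theorem s_nofix (h3 : IsChar3 P L) (c : Cfg m l O Y X Z) {A : P} (hA : A ∈ m) (hAO : A ≠ O)
    (hAY : A ≠ Y) : pr X m (pr Y (jn O Z : L) (pr Z (jn O X : L) A)) ≠ A := by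
  intro heq
  set A1 := pr Z (jn O X : L) A with hA1
  set A2 := pr Y (jn O Z : L) A1 with hA2
  have hA1k : A1 ∈ (jn O X : L) := pr_mem _ _ _
  have hA1j : A1 ∈ (jn Z A : L) := pr_mem_jn _ _ _
  have hA2k : A2 ∈ (jn O Z : L) := pr_mem _ _ _
  have hA2j : A2 ∈ (jn Y A1 : L) := pr_mem_jn _ _ _
  have hAj : A ∈ (jn X A2 : L) := by
    have := pr_mem_jn X m A2
    rwa [heq] at this
  have hA1Y : A1 ≠ Y := ne_of_mem hA1k c.Y_kX
  have hAl : A ∉ l := fun h => hAY (point_eq c.hlm h hA c.hYl c.hYm)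
  -- A1 not on m
  have hA1m : A1 ∉ m := by
    intro h
    have hmk : m ≠ (jn O X : L) := by
      intro h'
      exact c.X_m (by rw [h']; exact mem_jn_right _ _)
    have h1 : A1 = O := point_eq hmk h hA1k c.hOm (mem_jn_left _ _)
    have h2 : (jn Z A : L) = m := by
      have h4 : A1 ∈ (jn Z A : L) := hA1j
      rw [h1] at h4
      exact line_eq hAO (mem_jn_right _ _) h4 hA c.hOm
    exact c.Z_m (by rw [← h2]; exact mem_jn_left _ _)
  have hA1l : A1 ∉ l := by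
    intro h
    have h1 : (jn O X : L) ≠ l := by
      intro h'
      exact c.O_l (by rw [← h']; exact mem_jn_left _ _)
    have h2 : A1 = X := point_eq h1 hA1k h (mem_jn_right _ _) c.hXl
    rw [h2] at hA1j
    have h4 : (jn Z A : L) = l := line_eq c.hXZ hA1j (mem_jn_left _ _) c.hXl c.hZl
    exact hAl (by rw [← h4]; exact mem_jn_right _ _)
  have hbl : (jn Y A1 : L) ≠ l := by
    intro h; exact hA1l (by rw [← h]; exact mem_jn_right _ _)
  have hbm : (jn Y A1 : L) ≠ m := by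
    intro h; exact hA1m (by rw [← h]; exact mem_jn_right _ _)
  have hXb : X ∉ (jn Y A1 : L) := fun h =>
    c.hXY (point_eq hbl h c.hXl (mem_jn_left _ _) c.hYl)
  have hA2X : A2 ≠ X := ne_of_mem hA2k c.X_kZ
  have hA2Z : A2 ≠ Z := by
    intro h
    rw [h] at hA2j
    exact hbl (line_eq c.hZY hA2j (mem_jn_left _ _) c.hZl c.hYl)
  have hAX : A ≠ X := ne_of_mem hA c.X_m
  have hAZ : A ≠ Z := ne_of_mem hA c.Z_m
  -- t A = O
  have e1 : A2 = pr X (jn Y A1) A :=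
    eq_pr hXb hAX (mem_jn_left X A2) hAj (mem_jn_right _ _) hA2j
  have e2 : O = pr Z m A2 :=
    eq_pr c.Z_m hA2Z (mem_jn_right O Z) hA2k (mem_jn_left _ _) c.hOm
  have e3 : A1 = pr X (jn Y A1) O :=
    eq_pr hXb c.hOX (mem_jn_right O X) (mem_jn_left _ _) hA1k (mem_jn_right _ _)
  have hA1Z : A1 ≠ Z := ne_of_mem hA1k c.Z_kX
  have e4 : A = pr Z m A1 :=
    eq_pr c.Z_m hA1Z (mem_jn_left Z A) hA1j (mem_jn_right _ _) hA
  have key := (t_facts h3 c.hYl c.hYm (mem_jn_left Y A1) c.hlm.symm hbl hbm.symm c.hXl c.hZl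
    c.hXY c.hZY c.hXZ hA hAY).2.1
  apply key
  rw [← e1, ← e2, ← e3, ← e4]

/-- a subplane of order three containing the configuration -/
theorem exists_sub (h3 : IsChar3 P L) (c : Cfg m l O Y X Z) {A : P} (hA : A ∈ m) (hAO : A ≠ O)
    (hAY : A ≠ Y) : ∃ (S : Set P) (T : Set L), Sub3 S T ∧ O ∈ S ∧ Y ∈ S ∧ X ∈ S ∧ Z ∈ S ∧ A ∈ S ∧
      m ∈ T ∧ l ∈ T := by
  have hAl : A ∉ l := fun h => hAY (point_eq c.hlm h hA c.hYl c.hYm)
  obtain ⟨S, T, hS, hOS, hAS, hXS, hZS⟩ := h3 O A X Z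
    (by
      rintro ⟨k, h1, h2, h3⟩
      have : k = m := line_eq hAO h2 h1 hA c.hOm
      exact c.X_m (this ▸ h3))
    (by
      rintro ⟨k, h1, h2, h3⟩
      have : k = m := line_eq hAO h2 h1 hA c.hOm
      exact c.Z_m (this ▸ h3))
    (by
      rintro ⟨k, h1, h2, h3⟩
      have : k = l := line_eq c.hXZ h2 h3 c.hXl c.hZl
      exact c.O_l (this ▸ h1))
    (by
      rintro ⟨k, h1, h2, h3⟩
      have : k = l := line_eq c.hXZ h2 h3 c.hXl c.hZl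
      exact hAl (this ▸ h1))
  have hmT : m ∈ T := hS.join _ hAS _ hOS hAO _ hA c.hOm
  have hlT : l ∈ T := hS.join _ hXS _ hZS c.hXZ _ c.hXl c.hZl
  have hYS : Y ∈ S := hS.meet _ hlT _ hmT c.hlm _ c.hYl c.hYm
  exact ⟨S, T, hS, hOS, hYS, hXS, hZS, hAS, hmT, hlT⟩

theorem s_mem_sub (c : Cfg m l O Y X Z) {S : Set P} {T : Set L} (hS : Sub3 S T)
    (hO : O ∈ S) (hY : Y ∈ S) (hX : X ∈ S) (hZ : Z ∈ S) {A : P} (hA : A ∈ m) (hAS : A ∈ S) :
    pr X m (pr Y (jn O Z : L) (pr Z (jn O X : L) A)) ∈ S := by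
  have hmT : m ∈ T := hS.join _ hO _ hY c.hOY _ c.hOm c.hYm
  have hkX : (jn O X : L) ∈ T := hS.jn_mem hO hX c.hOX
  have hkZ : (jn O Z : L) ∈ T := hS.jn_mem hO hZ c.hOZ
  have h1 : pr Z (jn O X : L) A ∈ S := hS.pr_mem' hZ hAS hkX (ne_of_mem hA c.Z_m) c.Z_kX
  have h2 : pr Y (jn O Z : L) (pr Z (jn O X : L) A) ∈ S :=
    hS.pr_mem' hY h1 hkZ (ne_of_mem (pr_mem _ _ _) c.Y_kX) c.Y_kZ
  exact hS.pr_mem' hX h2 hmT (ne_of_mem (pr_mem _ _ _) c.X_kZ) c.X_m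

/-- in a subplane containing the configuration, `s` maps `A` to the fourth point. -/
theorem s_fourth (h3 : IsChar3 P L) (c : Cfg m l O Y X Z) {S : Set P} {T : Set L} (hS : Sub3 S T)
    (hO : O ∈ S) (hY : Y ∈ S) (hX : X ∈ S) (hZ : Z ∈ S) {A B : P} (hA : A ∈ m) (hAS : A ∈ S)
    (hAO : A ≠ O) (hAY : A ≠ Y) (hB : B ∈ m) (hBS : B ∈ S) (hBO : B ≠ O) (hBY : B ≠ Y)
    (hAB : A ≠ B) : c.s ⟨A, hA⟩ = ⟨B, hB⟩ := by
  apply Subtype.ext
  rw [s_coe]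
  simp only
  have hmT : m ∈ T := hS.join _ hO _ hY c.hOY _ c.hOm c.hYm
  have h1 := c.s_mem_sub hS hO hY hX hZ hA hAS
  have h2 := c.s_nofix h3 hA hAO hAY
  obtain ⟨d, hd1, hd2, hd3, hd4, hd5, hd6⟩ := hS.exists_fourth hmT c.hOY hAO.symm hAY.symm hO c.hOm
    hY c.hYm hAS hA
  have hBd : B = d := by
    rcases hd6 B hBS hB with h | h | h | h
    · exact absurd h hBO
    · exact absurd h hBY
    · exact absurd h.symm hAB
    · exact h
  rcases hd6 _ h1 (pr_mem _ _ _) with h | h | h | h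
  · exfalso
    have h4 : c.s ⟨A, hA⟩ = c.s ⟨O, c.hOm⟩ := by
      rw [c.s_O]; exact Subtype.ext h
    exact hAO (Subtype.ext_iff.mp (c.s.injective h4))
  · exfalso
    have h4 : c.s ⟨A, hA⟩ = c.s ⟨Y, c.hYm⟩ := by
      rw [c.s_Y]; exact Subtype.ext h
    exact hAY (Subtype.ext_iff.mp (c.s.injective h4))
  · exact absurd h h2
  · rw [h, hBd]

theorem s_s (h3 : IsChar3 P L) (c : Cfg m l O Y X Z) (p : {p : P // p ∈ m}) :
    c.s (c.s p) = p := by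
  obtain ⟨A, hA⟩ := p
  by_cases hAO : A = O
  · subst hAO; rw [c.s_O, c.s_O]
  by_cases hAY : A = Y
  · subst hAY; rw [c.s_Y, c.s_Y]
  obtain ⟨S, T, hS, hOS, hYS, hXS, hZS, hAS, hmT, hlT⟩ := c.exists_sub h3 hA hAO hAY
  obtain ⟨d, hd1, hd2, hd3, hd4, hd5, hd6⟩ := hS.exists_fourth hmT c.hOY (Ne.symm hAO)
    (Ne.symm hAY) hOS c.hOm hYS c.hYm hAS hA
  rw [c.s_fourth h3 hS hOS hYS hXS hZS hA hAS hAO hAY hd2 hd1 hd3 hd4 hd5.symm,
    c.s_fourth h3 hS hOS hYS hXS hZS hd2 hd1 hd3 hd4 hA hAS hAO hAY hd5]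

end Cfg

end Pool.Agent.Char3
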