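import Pool.Agent.Char3.Harm
import Pool.Agent.Char3.Invol

set_option autoImplicit false

namespace Pool.Agent.Char3

open Configuration Configuration.Nondegenerate Equiv

variable {P L : Type*} [Membership P L] [ProjectivePlane P L]

variable (P L) in
/-- uniqueness of the fourth point. -/
def UniqueFourth : Prop := ∀ a b c d d' : P, Harm L a b c d → Harm L a b c d' → d = d'

/-- collineations (as permutations of the points) -/
def Coll (P L : Type*) [Membership P L] [ProjectivePlane P L] : Subgroup (Perm P) where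
  carrier := {σ | ∀ l : L, ∃ l' : L, ∀ p, p ∈ l ↔ σ p ∈ l'}
  mul_mem' := by
    rintro σ τ hσ hτ l
    obtain ⟨l1, h1⟩ := hτ l
    obtain ⟨l2, h2⟩ := hσ l1
    exact ⟨l2, fun p => (h1 p).trans (h2 (τ p))⟩
  one_mem' := fun l => ⟨l, fun p => Iff.rfl⟩
  inv_mem' := by
    rintro σ hσ l
    -- two distinct points of l
    obtain ⟨k, hk⟩ := exists_point (P := P) l
    obtain ⟨p, hp⟩ := exists_point_on (P := P) l
    obtain ⟨q, hq, hpq⟩ : ∃ q : P, q ∈ l ∧ q ≠ p := by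
      obtain ⟨m, hm⟩ := exists_line (L := L) p
      refine ⟨mt l m, mt_mem_left _ _, ?_⟩
      intro h
      exact hm (by rw [← h]; exact mt_mem_right _ _)
    have hne : σ⁻¹ p ≠ σ⁻¹ q := fun h => hpq ((σ⁻¹).injective h).symm
    obtain ⟨l2, h2⟩ := hσ (jn (σ⁻¹ p) (σ⁻¹ q) : L)
    have e1 : p ∈ l2 := by
      have := (h2 (σ⁻¹ p)).mp (mem_jn_left _ _)
      rwa [← Perm.mul_apply, mul_inv_cancel] at this
    have e2 : q ∈ l2 := by
      have := (h2 (σ⁻¹ q)).mp (mem_jn_right _ _)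
      rwa [← Perm.mul_apply, mul_inv_cancel] at this
    have e3 : l2 = l := line_eq hpq.symm e1 e2 hp hq
    subst e3
    refine ⟨jn (σ⁻¹ p) (σ⁻¹ q), fun x => ?_⟩
    rw [h2 (σ⁻¹ x), ← Perm.mul_apply, mul_inv_cancel]
    rfl

theorem mem_Coll {σ : Perm P} : σ ∈ Coll P L ↔ ∀ l : L, ∃ l' : L, ∀ p, p ∈ l ↔ σ p ∈ l' := Iff.rfl

/-- the image of a line. -/
theorem Coll.line {σ : Perm P} (hσ : σ ∈ Coll P L) (l : L) : ∃ l' : L, ∀ p, p ∈ l ↔ σ p ∈ l' :=
  hσ l

theorem exists_two_points (l : L) : ∃ p q : P, p ∈ l ∧ q ∈ l ∧ p ≠ q := by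
  obtain ⟨p, hp⟩ := exists_point_on (P := P) l
  obtain ⟨m, hm⟩ := exists_line (L := L) p
  refine ⟨p, mt l m, hp, mt_mem_left _ _, ?_⟩
  intro h
  exact hm (by rw [h]; exact mt_mem_right _ _)

/-- if `σ` is a collineation, and `l'` contains the images of two points of `l`, then it is the
image. -/
theorem Coll.line_iff {σ : Perm P} (hσ : σ ∈ Coll P L) {l l' : L} {p q : P} (hpq : p ≠ q)
    (hp : p ∈ l) (hq : q ∈ l) (hp' : σ p ∈ l') (hq' : σ q ∈ l') (x : P) :
    x ∈ l ↔ σ x ∈ l' := by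
  obtain ⟨l2, h2⟩ := hσ l
  have : l2 = l' := line_eq (σ.injective.ne hpq) ((h2 p).mp hp) ((h2 q).mp hq) hp' hq'
  rw [← this]
  exact h2 x

theorem Coll.jn_iff {σ : Perm P} (hσ : σ ∈ Coll P L) {p q : P} (hpq : p ≠ q) (x : P) :
    x ∈ (jn p q : L) ↔ σ x ∈ (jn (σ p) (σ q) : L) :=
  Coll.line_iff hσ hpq (mem_jn_left _ _) (mem_jn_right _ _) (mem_jn_left _ _) (mem_jn_right _ _) x

/-- collineations preserve `Harm`. -/
theorem Coll.harm {σ : Perm P} (hσ : σ ∈ Coll P L) {a b c d : P} (h : Harm L a b c d) :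
    Harm L (σ a) (σ b) (σ c) (σ d) := by
  obtain ⟨S, T, m, X, hS, ha, hb, hc, hd, hab, hac, had, hbc, hbd, hcd, aS, bS, cS, dS, XS, Xm⟩
    := h
  obtain ⟨m', hm'⟩ := hσ m
  refine ⟨σ '' S, {l' | ∃ l ∈ T, ∀ p, p ∈ l ↔ σ p ∈ l'}, m', σ X, ?_, (hm' _).mp ha, (hm' _).mp hb,
    (hm' _).mp hc, (hm' _).mp hd, σ.injective.ne hab, σ.injective.ne hac, σ.injective.ne had,
    σ.injective.ne hbc, σ.injective.ne hbd, σ.injective.ne hcd, ⟨a, aS, rfl⟩, ⟨b, bS, rfl⟩,
    ⟨c, cS, rfl⟩, ⟨d, dS, rfl⟩, ⟨X, XS, rfl⟩, fun h => Xm ((hm' X).mpr h)⟩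
  refine ⟨?_, ?_, ?_⟩
  · rintro _ ⟨p, hp, rfl⟩ _ ⟨q, hq, rfl⟩ hpq l hpl hql
    have hpq' : p ≠ q := fun h => hpq (by rw [h])
    refine ⟨jn p q, hS.jn_mem hp hq hpq', ?_⟩
    exact Coll.line_iff hσ hpq' (mem_jn_left _ _) (mem_jn_right _ _) hpl hql
  · rintro l' ⟨l, hl, hl'⟩ k' ⟨k, hk, hk'⟩ hne p hp1 hp2
    obtain ⟨q, rfl⟩ := σ.surjective p
    refine ⟨q, hS.meet l hl k hk ?_ q ((hl' q).mpr hp1) ((hk' q).mpr hp2), rfl⟩
    rintro rfl
    obtain ⟨x, y, hx, hy, hxy⟩ := exists_two_points (P := P) l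
    exact hne (line_eq (σ.injective.ne hxy) ((hl' x).mp hx) ((hl' y).mp hy) ((hk' x).mp hx)
      ((hk' y).mp hy))
  · rintro l' ⟨l, hl, hl'⟩
    have : {p | p ∈ σ '' S ∧ p ∈ l'} = σ '' {p | p ∈ S ∧ p ∈ l} := by
      ext p
      constructor
      · rintro ⟨⟨q, hq, rfl⟩, hp⟩
        exact ⟨q, ⟨hq, (hl' q).mpr hp⟩, rfl⟩
      · rintro ⟨q, ⟨hq, hql⟩, rfl⟩
        exact ⟨⟨q, hq, rfl⟩, (hl' q).mp hql⟩
    rw [this, Set.ncard_image_of_injective _ σ.injective]
    exact hS.four l hl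

open Classical in
/-- the involutory homology with centre `O` and axis `ℓ`. -/
noncomputable def homF (O : P) (l : L) (p : P) : P :=
  if h : p ∉ l ∧ ∃ d, Harm L O (mt (jn O p : L) l) p d then h.2.choose else p

theorem homF_axis {O : P} {l : L} {p : P} (hp : p ∈ l) : homF O l p = p := by
  unfold homF
  rw [dif_neg]
  exact fun h => h.1 hp

theorem homF_center {O : P} {l : L} : homF O l O = O := by
  unfold homF
  rw [dif_neg]
  rintro ⟨h, d, hd⟩
  exact hd.swap23.ne12 rfl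

theorem homF_harm (h3 : IsChar3 P L) {O : P} {l : L} (hO : O ∉ l) {p : P} (hp : p ∉ l)
    (hpO : p ≠ O) : Harm L O (mt (jn O p : L) l) p (homF O l p) := by
  have hl : (jn O p : L) ≠ l := by
    intro h; exact hO (by rw [← h]; exact mem_jn_left _ _)
  have h1 : ∃ d, Harm L O (mt (jn O p : L) l) p d := by
    apply exists_harm h3 (mem_jn_left O p) (mt_mem_left _ _) (mem_jn_right O p)
    · exact (ne_of_mem (mt_mem_right _ _) hO).symm
    · exact hpO.symm
    · exact ne_of_mem (mt_mem_right _ _) hp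
  unfold homF
  rw [dif_pos ⟨hp, h1⟩]
  exact h1.choose_spec

theorem homF_eq (hU : UniqueFourth P L) (h3 : IsChar3 P L) {O : P} {l : L} (hO : O ∉ l) {p Y d : P}
    (hY : Y ∈ l) (hd : Harm L O Y p d) (hp : p ∉ l) (hOY : Y ∈ (jn O p : L)) : homF O l p = d := by
  have hpO : p ≠ O := hd.swap23.ne12.symm
  have hl : (jn O p : L) ≠ l := by
    intro h; exact hO (by rw [← h]; exact mem_jn_left _ _)
  have h1 := homF_harm h3 hO hp hpO
  have h2 : (mt (jn O p : L) l : P) = Y := (eq_mt hl hOY hY).symm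
  rw [h2] at h1
  exact hU _ _ _ _ _ h1 hd

theorem homF_mem_jn (h3 : IsChar3 P L) {O : P} {l : L} (hO : O ∉ l) {p : P} :
    homF O l p ∈ (jn O p : L) := by
  by_cases hp : p ∈ l
  · rw [homF_axis hp]; exact mem_jn_right _ _
  by_cases hpO : p = O
  · rw [hpO, homF_center]; exact mem_jn_left _ _
  exact (homF_harm h3 hO hp hpO).mem4 (mem_jn_left _ _) (mt_mem_left _ _)

theorem homF_off (h3 : IsChar3 P L) {O : P} {l : L} (hO : O ∉ l) {p : P} (hp : p ∉ l) :
    homF O l p ∉ l := by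
  by_cases hpO : p = O
  · rw [hpO, homF_center]; exact hO
  intro h
  have h1 := homF_harm h3 hO hp hpO
  have hl : (jn O p : L) ≠ l := by
    intro h; exact hO (by rw [← h]; exact mem_jn_left _ _)
  exact h1.ne24 (eq_mt hl (homF_mem_jn h3 hO) h).symm

theorem homF_homF (hU : UniqueFourth P L) (h3 : IsChar3 P L) {O : P} {l : L} (hO : O ∉ l) (p : P) :
    homF O l (homF O l p) = p := by
  by_cases hp : p ∈ l
  · rw [homF_axis hp, homF_axis hp]
  by_cases hpO : p = O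
  · rw [hpO, homF_center, homF_center]
  have h1 := homF_harm h3 hO hp hpO
  have h2 := homF_off h3 hO hp
  apply homF_eq hU h3 hO (mt_mem_right (jn O p : L) l) h1.swap34 h2
  have h4 : (jn O p : L) = jn O (homF O l p) :=
    eq_jn h1.ne14 (mem_jn_left _ _) (homF_mem_jn h3 hO)
  rw [← h4]
  exact mt_mem_left _ _

theorem homF_collinear (hU : UniqueFourth P L) (h3 : IsChar3 P L) {O : P} {l k : L} (hO : O ∉ l)
    (hOk : O ∉ k) (hkl : k ≠ l) {X A A' : P} (hXk : X ∈ k) (hXl : X ∈ l) (hA : A ∈ k)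
    (hA' : A' ∈ k) (hAX : A ≠ X) (hAX' : A' ≠ X) :
    homF O l A' ∈ (jn X (homF O l A) : L) := by
  by_cases hAA' : A = A'
  · rw [hAA']; exact mem_jn_right _ _
  have hAl : A ∉ l := fun h => hAX (point_eq hkl hA h hXk hXl)
  have hAl' : A' ∉ l := fun h => hAX' (point_eq hkl hA' h hXk hXl)
  have hAO : A ≠ O := ne_of_mem hA hOk
  have hAO' : A' ≠ O := ne_of_mem hA' hOk
  have hXO : X ≠ O := ne_of_mem hXk hOk
  have hOAl : (jn O A : L) ≠ l := by
    intro h; exact hO (by rw [← h]; exact mem_jn_left _ _)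
  have hOAl' : (jn O A' : L) ≠ l := by
    intro h; exact hO (by rw [← h]; exact mem_jn_left _ _)
  have hOAk : (jn O A : L) ≠ k := by
    intro h; exact hOk (by rw [← h]; exact mem_jn_left _ _)
  have hOAk' : (jn O A' : L) ≠ k := by
    intro h; exact hOk (by rw [← h]; exact mem_jn_left _ _)
  set Y : P := mt (jn O A : L) l with hY
  set Y' : P := mt (jn O A' : L) l with hY'
  have hYl : Y ∈ l := mt_mem_right _ _
  have hYl' : Y' ∈ l := mt_mem_right _ _
  have hYj : Y ∈ (jn O A : L) := mt_mem_left _ _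
  have hYj' : Y' ∈ (jn O A' : L) := mt_mem_left _ _
  have hXj : X ∉ (jn O A : L) := fun h => hAX (point_eq hOAk (mem_jn_right _ _) hA h hXk)
  have hXj' : X ∉ (jn O A' : L) := fun h => hAX' (point_eq hOAk' (mem_jn_right _ _) hA' h hXk)
  have hYX : Y ≠ X := ne_of_mem hYj hXj
  have hYX' : Y' ≠ X := ne_of_mem hYj' hXj'
  have hYO : Y ≠ O := ne_of_mem hYl hO
  have hYO' : Y' ≠ O := ne_of_mem hYl' hO
  have hYA : Y ≠ A := ne_of_mem hYl hAl
  have hYA' : Y' ≠ A' := ne_of_mem hYl' hAl'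
  have hjj : (jn O A : L) ≠ jn O A' := by
    intro h
    exact hAA' (point_eq hOAk (mem_jn_right _ _) hA (by rw [h]; exact mem_jn_right _ _) hA')
  obtain ⟨S, T, hS, hXS, hYS, hAS', hOS⟩ := h3 X Y A' O
    (by
      rintro ⟨m, h1, h2, h3⟩
      have : m = l := line_eq hYX h2 h1 hYl hXl
      exact hAl' (this ▸ h3))
    (by
      rintro ⟨m, h1, h2, h3⟩
      have : m = l := line_eq hYX h2 h1 hYl hXl
      exact hO (this ▸ h3))
    (by
      rintro ⟨m, h1, h2, h3⟩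
      have : m = k := line_eq hAX' h2 h1 hA' hXk
      exact hOk (this ▸ h3))
    (by
      rintro ⟨m, h1, h2, h3⟩
      have e1 : m = (jn O A : L) := line_eq hYO h1 h3 hYj (mem_jn_left _ _)
      have e2 : m = (jn O A' : L) := line_eq hAO' h2 h3 (mem_jn_right _ _) (mem_jn_left _ _)
      exact hjj (e1.symm.trans e2))
  have hkT : k ∈ T := hS.join _ hXS _ hAS' hAX'.symm _ hXk hA'
  have hlT : l ∈ T := hS.join _ hXS _ hYS hYX.symm _ hXl hYl
  have hjT : (jn O A : L) ∈ T := hS.join _ hOS _ hYS hYO.symm _ (mem_jn_left _ _) hYj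
  have hjT' : (jn O A' : L) ∈ T := hS.join _ hOS _ hAS' hAO'.symm _ (mem_jn_left _ _)
    (mem_jn_right _ _)
  have hAS : A ∈ S := hS.meet _ hjT _ hkT hOAk _ (mem_jn_right _ _) hA
  have hYS' : Y' ∈ S := hS.meet _ hjT' _ hlT hOAl' _ hYj' hYl'
  obtain ⟨C, hC1, hC2, hC3, hC4, hC5, -⟩ := hS.exists_fourth hjT hYO.symm hAO.symm hYA hOS
    (mem_jn_left _ _) hYS hYj hAS (mem_jn_right _ _)
  obtain ⟨C', hC1', hC2', hC3', hC4', hC5', hC6'⟩ := hS.exists_fourth hjT' hYO'.symm hAO'.symm hYA'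
    hOS (mem_jn_left _ _) hYS' hYj' hAS' (mem_jn_right _ _)
  have e1 : homF O l A = C := homF_eq hU h3 hO hYl
    ⟨S, T, _, X, hS, mem_jn_left _ _, hYj, mem_jn_right _ _, hC2, hYO.symm, hAO.symm, hC3.symm, hYA,
      hC4.symm, hC5.symm, hOS, hYS, hAS, hC1, hXS, hXj⟩ hAl hYj
  have e2 : homF O l A' = C' := homF_eq hU h3 hO hYl'
    ⟨S, T, _, X, hS, mem_jn_left _ _, hYj', mem_jn_right _ _, hC2', hYO'.symm, hAO'.symm, hC3'.symm,
      hYA', hC4'.symm, hC5'.symm, hOS, hYS', hAS', hC1', hXS, hXj'⟩ hAl' hYj'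
  rw [e1, e2]
  have hCX : C ≠ X := ne_of_mem hC2 hXj
  have hD : pr X (jn O A' : L) C = C' := by
    have h1 : pr X (jn O A' : L) C ∈ S := hS.pr_mem' hXS hC1 hjT' hCX hXj'
    have h2 : pr X (jn O A' : L) C ∈ (jn O A' : L) := pr_mem _ _ _
    rcases hC6' _ h1 h2 with h | h | h | h
    · exfalso
      have : pr X (jn O A' : L) O = O := pr_self hXj' (mem_jn_left _ _)
      exact hC3 (pr_inj hXj hXj' hC2 (mem_jn_left _ _) (h.trans this.symm))
    · exfalso
      have : Y' = pr X (jn O A' : L) Y := eq_pr hXj' hYX hXl hYl hYl' hYj'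
      exact hC4 (pr_inj hXj hXj' hC2 hYj (h.trans this))
    · exfalso
      have : A' = pr X (jn O A' : L) A := eq_pr hXj' hAX hXk hA hA' (mem_jn_right _ _)
      exact hC5 (pr_inj hXj hXj' hC2 (mem_jn_right _ _) (h.trans this))
    · exact h
  rw [← hD]
  exact pr_mem_jn _ _ _

/-- the homology as a permutation. -/
noncomputable def hom (hU : UniqueFourth P L) (h3 : IsChar3 P L) (O : P) (l : L) (hO : O ∉ l) :
    Perm P :=
  Function.Involutive.toPerm (homF O l) (homF_homF hU h3 hO)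

theorem hom_apply (hU : UniqueFourth P L) (h3 : IsChar3 P L) (O : P) (l : L) (hO : O ∉ l) (p : P) :
    hom hU h3 O l hO p = homF O l p := rfl

theorem hom_mem (hU : UniqueFourth P L) (h3 : IsChar3 P L) (O : P) (l : L) (hO : O ∉ l) :
    hom hU h3 O l hO ∈ Coll P L := by
  intro k
  by_cases hkl : k = l
  · subst hkl
    refine ⟨k, fun p => ?_⟩
    rw [hom_apply]
    by_cases hp : p ∈ k
    · rw [homF_axis hp]
    · exact iff_of_false hp (homF_off h3 hO hp)
  by_cases hOk : O ∈ k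
  · have h1 : ∀ p, p ∈ k → homF O l p ∈ k := by
      intro p hp
      by_cases hpO : p = O
      · rw [hpO, homF_center]; exact hOk
      have : k = jn O p := eq_jn (Ne.symm hpO) hOk hp
      rw [this]
      exact homF_mem_jn h3 hO
    refine ⟨k, fun p => ⟨h1 p, fun h => ?_⟩⟩
    have := h1 _ h
    rwa [hom_apply, homF_homF hU h3 hO] at this
  -- general line
  set X : P := mt k l with hX
  have hXk : X ∈ k := mt_mem_left _ _
  have hXl : X ∈ l := mt_mem_right _ _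
  obtain ⟨A, hA, hAX⟩ : ∃ A, A ∈ k ∧ A ≠ X := by
    obtain ⟨p, q, hp, hq, hpq⟩ := exists_two_points (P := P) k
    by_cases h : p = X
    · exact ⟨q, hq, fun h' => hpq (h.trans h'.symm)⟩
    · exact ⟨p, hp, h⟩
  have hAl : A ∉ l := fun h => hAX (point_eq hkl hA h hXk hXl)
  have key : ∀ (k₁ : L) (B : P), O ∉ k₁ → k₁ ≠ l → X ∈ k₁ → B ∈ k₁ → B ≠ X →
      ∀ p, p ∈ k₁ → homF O l p ∈ (jn X (homF O l B) : L) := by
    intro k₁ B h1 h2 h4 h5 h6 p hp
    by_cases hpX : p = X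
    · rw [hpX, homF_axis hXl]; exact mem_jn_left _ _
    · exact homF_collinear hU h3 hO h1 h2 h4 hXl h5 hp h6 hpX
  refine ⟨jn X (homF O l A), fun p => ⟨key k A hOk hkl hXk hA hAX p, fun h => ?_⟩⟩
  -- converse
  have hB : homF O l A ∉ l := homF_off h3 hO hAl
  have hk1 : (jn X (homF O l A) : L) ≠ l := by
    intro h
    have h' : homF O l A ∈ (jn X (homF O l A) : L) := mem_jn_right _ _
    rw [h] at h'
    exact hB h'
  have hBX : homF O l A ≠ X := (ne_of_mem hXl hB).symm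
  have hAO : A ≠ O := ne_of_mem hA hOk
  have hOk1 : O ∉ (jn X (homF O l A) : L) := by
    intro h
    have h1 := homF_harm h3 hO hAl hAO
    have e1 : (jn X (homF O l A) : L) = jn O (homF O l A) := eq_jn h1.ne14 h (mem_jn_right _ _)
    have e2 : (jn O A : L) = jn O (homF O l A) := eq_jn h1.ne14 (mem_jn_left _ _)
      (homF_mem_jn h3 hO)
    have e3 : A ∈ (jn X (homF O l A) : L) := by rw [e1, ← e2]; exact mem_jn_right _ _
    have e4 : (jn X (homF O l A) : L) = k := line_eq hAX e3 (mem_jn_left _ _) hA hXk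
    exact hOk (e4 ▸ h)
  have h2 := key _ _ hOk1 hk1 (mem_jn_left _ _) (mem_jn_right _ _) hBX _ h
  rw [hom_apply, homF_homF hU h3 hO, homF_homF hU h3 hO] at h2
  have h5 : (jn X A : L) = k := (eq_jn hAX.symm hXk hA).symm
  rwa [h5] at h2

end Pool.Agent.Char3
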