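import Pool.Agent.Char3.Basic

set_option autoImplicit false

namespace Pool.Agent.Char3

open Configuration Configuration.Nondegenerate

variable {P L : Type*} [Membership P L] [ProjectivePlane P L]

/-- the linear functional `u₀ x₀ + u₁ x₁ + u₂ x₂`. -/
def fnl {F : Type*} [Field F] (u : Fin 3 → F) : (Fin 3 → F) →ₗ[F] F where
  toFun x := u 0 * x 0 + u 1 * x 1 + u 2 * x 2
  map_add' x y := by simp only [Pi.add_apply]; ring
  map_smul' c x := by simp only [Pi.smul_apply, smul_eq_mul, RingHom.id_apply]; ring

theorem fnl_ne_zero {F : Type*} [Field F] {u : Fin 3 → F} (hu : u ≠ 0) : fnl u ≠ 0 := by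
  intro h
  apply hu
  funext i
  fin_cases i
  · have := LinearMap.congr_fun h (Pi.single 0 1)
    simpa [fnl] using this
  · have := LinearMap.congr_fun h (Pi.single 1 1)
    simpa [fnl] using this
  · have := LinearMap.congr_fun h (Pi.single 2 1)
    simpa [fnl] using this

theorem finrank_ker_fnl {F : Type*} [Field F] {u : Fin 3 → F} (hu : u ≠ 0) :
    Module.finrank F (LinearMap.ker (fnl u)) = 2 := by
  have h := Module.Dual.finrank_ker_add_one_of_ne_zero (f := fnl u) (fnl_ne_zero hu)
  rw [Module.finrank_fin_fun] at h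
  omega

/-- homogeneous coordinates give an isomorphism with `PG(2, F)`. -/
theorem iso_of_coords {F : Type*} [Field F] (v : P → Fin 3 → F) (u : L → Fin 3 → F)
    (hv : ∀ p, v p ≠ 0) (hu : ∀ l, u l ≠ 0) (hinc : ∀ p l, p ∈ l ↔ fnl (u l) (v p) = 0)
    (hsurj : ∀ w : Fin 3 → F, w ≠ 0 → ∃ p, ∃ c : F, c ≠ 0 ∧ w = c • v p) :
    ∃ (f : P ≃ Projectivization F (Fin 3 → F))
      (g : L ≃ {W : Submodule F (Fin 3 → F) // Module.finrank F W = 2}),
      ∀ (p : P) (l : L), p ∈ l ↔ (f p).submodule ≤ (g l).1 := by
  have same : ∀ p q : P, (∀ l : L, p ∈ l ↔ q ∈ l) → p = q := by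
    intro p q h
    by_contra hne
    obtain ⟨k, hk⟩ := exists_line (L := L) p
    have h1 : q ∉ k := fun h' => hk ((h k).mpr h')
    -- take r on k, line joining p and r
    obtain ⟨r, hr⟩ := exists_point_on (P := P) k
    have hpr : p ≠ r := fun h' => hk (h' ▸ hr)
    have h2 : q ∈ (jn p r : L) := (h _).mp (mem_jn_left _ _)
    -- another point of k
    obtain ⟨m, hm⟩ := exists_line (L := L) r
    set s : P := mt k m with hs
    have hsk : s ∈ k := mt_mem_left _ _
    have hsr : s ≠ r := fun h' => hm (h' ▸ mt_mem_right _ _)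
    have h3 : q ∈ (jn p s : L) := (h _).mp (mem_jn_left _ _)
    have h4 : (jn p r : L) = jn p s :=
      line_eq hne (mem_jn_left _ _) h2 (mem_jn_left _ _) h3
    have h5 : (jn p r : L) = k :=
      line_eq hsr (by rw [h4]; exact mem_jn_right _ _) (mem_jn_right _ _) hsk hr
    exact hk (by rw [← h5]; exact mem_jn_left _ _)
  let f0 : P → Projectivization F (Fin 3 → F) := fun p => Projectivization.mk F (v p) (hv p)
  have hf0 : Function.Bijective f0 := by
    constructor
    · intro p q hpq
      obtain ⟨c, hc⟩ := (Projectivization.mk_eq_mk_iff' F (v p) (v q) (hv p) (hv q)).mp hpq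
      have hc0 : c ≠ 0 := by
        rintro rfl
        rw [zero_smul] at hc
        exact hv p hc.symm
      apply same
      intro l
      rw [hinc, hinc, ← hc, map_smul, smul_eq_mul, mul_eq_zero]
      simp [hc0]
    · intro w
      induction w using Projectivization.ind with
      | h w hw =>
        obtain ⟨p, c, hc, hwp⟩ := hsurj w hw
        refine ⟨p, ?_⟩
        rw [Projectivization.mk_eq_mk_iff']
        refine ⟨c⁻¹, ?_⟩
        rw [hwp, smul_smul, inv_mul_cancel₀ hc, one_smul]
  let g0 : L → {W : Submodule F (Fin 3 → F) // Module.finrank F W = 2} := fun l =>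
    ⟨LinearMap.ker (fnl (u l)), finrank_ker_fnl (hu l)⟩
  have hmem : ∀ p l, p ∈ l ↔ v p ∈ (g0 l).1 := fun p l => hinc p l
  have hg0 : Function.Bijective g0 := by
    constructor
    · intro l m hlm
      by_contra hne
      obtain ⟨k, hk⟩ := exists_line (L := L) (mt l m : P)
      have h1 : (mt l k : P) ∈ m := by
        rw [hmem, ← hlm, ← hmem]; exact mt_mem_left _ _
      have h2 : (mt l k : P) = mt l m := eq_mt hne (mt_mem_left _ _) h1
      exact hk (by rw [← h2]; exact mt_mem_right _ _)
    · rintro ⟨W, hW⟩
      -- two independent vectors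
      have hbasis := Module.finBasisOfFinrankEq F W hW
      set w1 : Fin 3 → F := ((hbasis 0 : W) : Fin 3 → F) with hw1
      set w2 : Fin 3 → F := ((hbasis 1 : W) : Fin 3 → F) with hw2
      have hli : LinearIndependent F (fun i => ((hbasis i : W) : Fin 3 → F)) :=
        hbasis.linearIndependent.map' W.subtype (Submodule.ker_subtype W)
      have hw1n : w1 ≠ 0 := hli.ne_zero 0
      have hw2n : w2 ≠ 0 := hli.ne_zero 1
      obtain ⟨p, c, hc, hp⟩ := hsurj w1 hw1n
      obtain ⟨q, d, hd, hq⟩ := hsurj w2 hw2n
      have hpq : p ≠ q := by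
        rintro rfl
        have h0 : (d : F) • w1 + (-c) • w2 = 0 := by
          rw [hp, hq, smul_smul, smul_smul, ← add_smul]
          ring_nf
          simp
        have h1 := LinearIndependent.pair_iff.mp (s := d) (t := -c)
          (show LinearIndependent F ![w1, w2] by
            convert hli using 1
            funext i
            fin_cases i <;> rfl)
        have h2 := (h1 h0).1
        exact hd h2
      refine ⟨jn p q, ?_⟩
      apply Subtype.ext
      symm
      have hle : W ≤ (g0 (jn p q : L)).1 := by
        intro x hx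
        have hx' := hbasis.sum_repr ⟨x, hx⟩
        rw [Fin.sum_univ_two] at hx'
        have hx'' : x = (hbasis.repr ⟨x, hx⟩ 0) • w1 + (hbasis.repr ⟨x, hx⟩ 1) • w2 := by
          have := congrArg Subtype.val hx'
          exact this.symm
        rw [hx'']
        apply Submodule.add_mem
        · apply Submodule.smul_mem
          rw [hp]
          apply Submodule.smul_mem
          rw [← hmem]; exact mem_jn_left _ _
        · apply Submodule.smul_mem
          rw [hq]
          apply Submodule.smul_mem
          rw [← hmem]; exact mem_jn_right _ _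
      exact Submodule.eq_of_le_of_finrank_eq hle (by rw [hW, (g0 (jn p q : L)).2])
  refine ⟨Equiv.ofBijective f0 hf0, Equiv.ofBijective g0 hg0, ?_⟩
  intro p l
  show p ∈ l ↔ (Projectivization.mk F (v p) (hv p)).submodule ≤ (g0 l).1
  rw [Projectivization.submodule_mk, Submodule.span_singleton_le_iff_mem]
  exact hmem p l

end Pool.Agent.Char3
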