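import Pool.Agent.Char3.InvRing

set_option autoImplicit false

namespace Pool.Agent.Char3

section Jordan

variable {E : Type*} [Ring E]

/-- evaluation of a word in two letters -/
def ev (a b : E) : List Bool → E
  | [] => 1
  | c :: w => (if c then a else b) * ev a b w

theorem ev_append (a b : E) (v w : List Bool) : ev a b (v ++ w) = ev a b v * ev a b w := by
  induction v with
  | nil => simp [ev]
  | cons c v ih => rw [List.cons_append, ev, ev, ih, mul_assoc]

theorem ev_single (a b : E) (c : Bool) : ev a b [c] = if c then a else b := by
  simp [ev]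

def tad (a b : E) (w : List Bool) : E := ev a b w + ev a b w.reverse

variable {A : AddSubgroup E}

theorem half_mem (three : ∀ x : E, x + x + x = 0) {z : E} (h : z + z ∈ A) : z ∈ A := by
  have h1 : z = - (z + z) := by
    have := three z
    rw [add_eq_zero_iff_eq_neg] at this
    rw [this, neg_neg]
  rw [h1]
  exact A.neg_mem h

theorem jordan_mem (sq : ∀ x ∈ A, x * x ∈ A) {x y : E} (hx : x ∈ A) (hy : y ∈ A) :
    x * y + y * x ∈ A := by
  have h1 := sq _ (A.add_mem hx hy)
  have h2 := A.sub_mem (A.sub_mem h1 (sq x hx)) (sq y hy)
  have e : (x + y) * (x + y) - x * x - y * y = x * y + y * x := by noncomm_ring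
  rwa [e] at h2

theorem tad_rot (sq : ∀ x ∈ A, x * x ∈ A) {a b : E} (ha : a ∈ A) (hb : b ∈ A) (c : Bool)
    (v : List Bool) (hv : tad a b v ∈ A) : tad a b (c :: v) + tad a b (v ++ [c]) ∈ A := by
  have hc : (if c then a else b) ∈ A := by split_ifs <;> assumption
  have h1 := jordan_mem sq hc hv
  have e : tad a b (c :: v) + tad a b (v ++ [c]) =
      (if c then a else b) * tad a b v + tad a b v * (if c then a else b) := by
    unfold tad
    rw [List.reverse_cons, List.reverse_append, List.reverse_singleton, List.singleton_append,
      ev_append, ev_append, ev_single]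
    rw [show ev a b (c :: v) = (if c then a else b) * ev a b v from rfl,
      show ev a b (c :: v.reverse) = (if c then a else b) * ev a b v.reverse from rfl]
    noncomm_ring
  rw [e]; exact h1

theorem tad_swap (three : ∀ x : E, x + x + x = 0) (sq : ∀ x ∈ A, x * x ∈ A) {a b : E}
    (ha : a ∈ A) (hb : b ∈ A) (c d : Bool) (v : List Bool) (hv : tad a b v ∈ A)
    (h1 : ∀ w : List Bool, w.length = v.length + 1 → tad a b w ∈ A) :
    tad a b (c :: d :: v) + tad a b (d :: c :: v) ∈ A := by
  have hc : (if c then a else b) ∈ A := by split_ifs <;> assumption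
  have hd : (if d then a else b) ∈ A := by split_ifs <;> assumption
  have h2 := jordan_mem sq (jordan_mem sq hc hd) hv
  -- expansions
  have e : ((if c then a else b) * (if d then a else b) + (if d then a else b) *
      (if c then a else b)) * tad a b v + tad a b v * ((if c then a else b) *
      (if d then a else b) + (if d then a else b) * (if c then a else b)) =
      tad a b (c :: d :: v) + tad a b (d :: c :: v) + tad a b (v ++ [d] ++ [c]) +
      tad a b (v ++ [c] ++ [d]) := by
    unfold tad
    simp only [List.reverse_cons, List.reverse_append, List.reverse_singleton,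
      List.singleton_append, List.reverse_nil, List.nil_append, List.cons_append, ev_append,
      ev_single, ev]
    noncomm_ring
  rw [e] at h2
  have r1 := tad_rot sq ha hb c (d :: v) (h1 _ (by simp))
  have r2 := tad_rot sq ha hb d (v ++ [c]) (h1 _ (by simp))
  have r3 := tad_rot sq ha hb d (c :: v) (h1 _ (by simp))
  have r4 := tad_rot sq ha hb c (v ++ [d]) (h1 _ (by simp))
  -- tad(c d v) - tad(v c d) ∈ A, tad (d c v) - tad (v d c) ∈ A
  have k1 := A.sub_mem r1 r2
  have k2 := A.sub_mem r3 r4
  apply half_mem three
  have k3 := A.add_mem (A.add_mem h2 k1) k2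
  have e2 : tad a b (c :: d :: v) + tad a b (d :: c :: v) + tad a b (v ++ [d] ++ [c]) +
      tad a b (v ++ [c] ++ [d]) +
      (tad a b (c :: d :: v) + tad a b (d :: v ++ [c]) -
        (tad a b (d :: (v ++ [c])) + tad a b (v ++ [c] ++ [d]))) +
      (tad a b (d :: c :: v) + tad a b (c :: v ++ [d]) -
        (tad a b (c :: (v ++ [d])) + tad a b (v ++ [d] ++ [c]))) =
      tad a b (c :: d :: v) + tad a b (d :: c :: v) +
      (tad a b (c :: d :: v) + tad a b (d :: c :: v)) := by
    rw [List.cons_append, List.cons_append]
    abel
  rw [e2] at k3
  exact k3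

theorem tad_mem (three : ∀ x : E, x + x + x = 0) (one : (1 : E) ∈ A) (sq : ∀ x ∈ A, x * x ∈ A)
    {a b : E} (ha : a ∈ A) (hb : b ∈ A) :
    ∀ (n : ℕ) (w : List Bool), w.length = n → tad a b w ∈ A := by
  intro n
  induction n using Nat.strong_induction_on with
  | _ n ih =>
    intro w hw
    match w, hw with
    | [], _ =>
      show ev a b [] + ev a b [] ∈ A
      exact A.add_mem one one
    | [c], _ =>
      have hc : (if c then a else b) ∈ A := by split_ifs <;> assumption
      show ev a b [c] + ev a b [c] ∈ A
      rw [ev_single]
      exact A.add_mem hc hc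
    | [c, d], _ =>
      have hc : (if c then a else b) ∈ A := by split_ifs <;> assumption
      have hd : (if d then a else b) ∈ A := by split_ifs <;> assumption
      have : tad a b [c, d] = (if c then a else b) * (if d then a else b) +
          (if d then a else b) * (if c then a else b) := by
        simp [tad, ev]
      rw [this]
      exact jordan_mem sq hc hd
    | c :: d :: e :: v, hw =>
      simp only [List.length_cons] at hw
      -- swapping the first two letters of words of length n
      have swap : ∀ (c d : Bool) (u : List Bool), u.length + 2 = n →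
          tad a b (c :: d :: u) + tad a b (d :: c :: u) ∈ A := by
        intro c d u hu
        exact tad_swap three sq ha hb c d u (ih _ (by omega) u rfl)
          (fun w hw' => ih _ (by omega) w hw')
      have same : ∀ (c : Bool) (u : List Bool), u.length + 2 = n →
          tad a b (c :: c :: u) ∈ A := fun c u hu => half_mem three (swap c c u hu)
      have second : ∀ (c d : Bool) (u : List Bool), u.length + 3 = n →
          tad a b (c :: d :: d :: u) ∈ A := by
        intro c d u hu
        have h1 := tad_rot sq ha hb c (d :: d :: u) (ih (u.length + 2) (by omega) _ (by simp))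
        have h2 : tad a b (d :: d :: (u ++ [c])) ∈ A := same d _ (by simp; omega)
        have h3 : d :: d :: u ++ [c] = d :: d :: (u ++ [c]) := by simp
        rw [h3] at h1
        have := A.sub_mem h1 h2
        rwa [add_sub_cancel_right] at this
      by_cases hcd : c = d
      · subst hcd
        exact same c (e :: v) (by simp; omega)
      by_cases hde : d = e
      · subst hde
        exact second c d v (by omega)
      have hce : c = e := by
        revert hcd hde; cases c <;> cases d <;> cases e <;> simp
      subst hce
      have h1 := swap c d (c :: v) (by simp; omega)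
      have h2 := second d c v (by omega)
      have := A.sub_mem h1 h2
      rwa [add_sub_cancel_right] at this

/-- additive subgroups of a finite ring of characteristic three containing `1`, closed under
squares, and in which all nonzero elements are units, are commutative. -/
theorem jordan_comm [Finite E] (three : ∀ x : E, x + x + x = 0) (one : (1 : E) ∈ A)
    (sq : ∀ x ∈ A, x * x ∈ A) (unit : ∀ x ∈ A, x ≠ 0 → IsUnit x) {a b : E} (ha : a ∈ A)
    (hb : b ∈ A) : a * b = b * a := by
  classical
  let gens : Set (E × Eᵐᵒᵖ) := {(a, MulOpposite.op a), (b, MulOpposite.op b)}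
  let B : Subring (E × Eᵐᵒᵖ) := Subring.closure gens
  -- the elements of B
  have hword : ∀ m ∈ Submonoid.closure gens,
      ∃ w : List Bool, m = (ev a b w, MulOpposite.op (ev a b w.reverse)) := by
    intro m hm
    induction hm using Submonoid.closure_induction with
    | mem x hx =>
      rcases hx with hx | hx
      · refine ⟨[true], ?_⟩
        rw [hx]; simp [ev]
      · refine ⟨[false], ?_⟩
        have hx' : x = (b, MulOpposite.op b) := hx
        rw [hx']; simp [ev]
    | one => exact ⟨[], by simp [ev]; rfl⟩
    | mul x y _ _ hx hy =>
      obtain ⟨v, rfl⟩ := hx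
      obtain ⟨w, rfl⟩ := hy
      refine ⟨v ++ w, ?_⟩
      rw [Prod.mk_mul_mk, ev_append, List.reverse_append, ev_append, ← MulOpposite.op_mul]
  have hB' : ∀ z ∈ AddSubgroup.closure (Submonoid.closure gens : Set (E × Eᵐᵒᵖ)),
      z.1 + MulOpposite.unop z.2 ∈ A := by
    intro z hz'
    induction hz' using AddSubgroup.closure_induction with
    | mem x hx =>
      obtain ⟨w, rfl⟩ := hword x hx
      exact tad_mem three one sq ha hb _ w rfl
    | zero => simp
    | add x y _ _ hx hy =>
      have e : (x + y).1 + MulOpposite.unop (x + y).2 =
          (x.1 + MulOpposite.unop x.2) + (y.1 + MulOpposite.unop y.2) := by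
        rw [Prod.fst_add, Prod.snd_add, MulOpposite.unop_add]; abel
      rw [e]; exact A.add_mem hx hy
    | neg x _ hx =>
      have e : (-x).1 + MulOpposite.unop (-x).2 = -(x.1 + MulOpposite.unop x.2) := by
        rw [Prod.fst_neg, Prod.snd_neg, MulOpposite.unop_neg]; abel
      rw [e]; exact A.neg_mem hx
  have hB : ∀ z ∈ B, z.1 + MulOpposite.unop z.2 ∈ A := fun z hz =>
    hB' z (Subring.mem_closure_iff.mp hz)
  have ha' : (a, MulOpposite.op a) ∈ B := Subring.subset_closure (Or.inl rfl)
  have hb' : (b, MulOpposite.op b) ∈ B := Subring.subset_closure (Or.inr rfl)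
  have hswap : ∀ z ∈ B, (MulOpposite.unop z.2, MulOpposite.op z.1) ∈ B := by
    intro z hz
    induction hz using Subring.closure_induction with
    | mem x hx =>
      rcases hx with hx | hx
      · rw [hx]; exact ha'
      · have hx' : x = (b, MulOpposite.op b) := hx
        rw [hx']; exact hb'
    | zero => exact B.zero_mem
    | one => exact B.one_mem
    | add x y _ _ hx hy => exact B.add_mem hx hy
    | neg x _ hx => exact B.neg_mem hx
    | mul x y _ _ hx hy => exact B.mul_mem hy hx
  have hfinE : Finite (E × Eᵐᵒᵖ) := by
    have : Finite Eᵐᵒᵖ := Finite.of_equiv E MulOpposite.opEquiv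
    infer_instance
  have hfinB : Finite B := inferInstance
  let st : B → B := fun z => ⟨(MulOpposite.unop z.1.2, MulOpposite.op z.1.1), hswap z.1 z.2⟩
  have key := inv_ring_comm (B := B) st
    (fun x y => rfl) (fun x y => rfl) (fun x => rfl)
    (by
      rintro ⟨⟨x, y⟩, hz⟩
      apply Subtype.ext
      apply Prod.ext
      · exact three x
      · exact MulOpposite.unop_injective (three (MulOpposite.unop y)))
    (by
      rintro ⟨⟨x, y⟩, hz⟩ hst hne
      have h1 : MulOpposite.unop y = x := congrArg (fun z : B => z.1.1) hst
      have h2 : x + x ∈ A := by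
        have := hB _ hz
        simp only at this
        rwa [h1] at this
      have h3 : x ∈ A := half_mem three h2
      have h4 : y = MulOpposite.op x := by rw [← h1]; rfl
      subst h4
      have h5 : x ≠ 0 := by
        rintro rfl
        apply hne
        apply Subtype.ext
        rfl
      obtain ⟨u, hu⟩ := unit x h3 h5
      have h6 : IsOfFinOrder u := isOfFinOrder_of_finite u
      have h7 : x ^ orderOf u = 1 := by
        rw [← hu, ← Units.val_pow_eq_pow_val, pow_orderOf_eq_one]; rfl
      refine IsUnit.of_pow_eq_one (n := orderOf u) ?_ h6.orderOf_pos.ne'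
      apply Subtype.ext
      apply Prod.ext
      · exact h7
      · show (MulOpposite.op x) ^ orderOf u = 1
        rw [← MulOpposite.op_pow, h7]; rfl)
    (by
      rintro z hz y
      have h1 : B ≤ Subring.centralizer {z.1} := by
        rw [Subring.closure_le]
        intro g hg
        rw [SetLike.mem_coe, Subring.mem_centralizer_iff]
        intro w hw
        rw [Set.mem_singleton_iff] at hw
        subst hw
        have hgB : g ∈ B := Subring.subset_closure hg
        have hstg : st ⟨g, hgB⟩ = ⟨g, hgB⟩ := by
          apply Subtype.ext
          rcases hg with hg | hg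
          · subst hg; rfl
          · have hg' : g = (b, MulOpposite.op b) := hg
            subst hg'; rfl
        exact (congrArg Subtype.val (hz _ hstg)).symm
      have h2 := Subring.mem_centralizer_iff.mp (h1 y.2) z.1 rfl
      exact Subtype.ext h2.symm)
    ⟨_, ha'⟩ ⟨_, hb'⟩
  exact congrArg (fun z : B => z.1.1) key

end Jordan

end Pool.Agent.Char3
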