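import Pool.Agent.Char3.Invol

set_option autoImplicit false

namespace Pool.Agent.Char3

open Configuration Configuration.Nondegenerate

variable {P L : Type*} [Membership P L] [ProjectivePlane P L] [Finite P] [Finite L]

open Classical in
theorem Cfg.sg_s (h3 : IsChar3 P L) (hn : ProjectivePlane.order P L % 4 = 3) {m l : L}
    {O Y X Z : P} (c : Cfg m l O Y X Z) : sg c.s = -1 := by
  have : Fintype {p : P // p ∈ m} := Fintype.ofFinite _
  have hsq : c.s ^ 2 = 1 := by
    ext p
    rw [pow_two, Equiv.Perm.mul_apply, c.s_s h3]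
    rfl
  rw [sg_self, Equiv.Perm.sign_of_pow_two_eq_one hsq]
  have hcard : Fintype.card {p : P // p ∈ m} = ProjectivePlane.order P L + 1 := by
    rw [← Nat.card_eq_fintype_card]
    exact ProjectivePlane.pointCount_eq P m
  have hfix : Fintype.card (Function.fixedPoints c.s) = 2 := by
    have h1 : Function.fixedPoints c.s = {⟨O, c.hOm⟩, ⟨Y, c.hYm⟩} := by
      ext ⟨A, hA⟩
      simp only [Function.mem_fixedPoints, Function.IsFixedPt, Set.mem_insert_iff,
        Set.mem_singleton_iff]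
      constructor
      · intro h
        by_contra hcon
        push Not at hcon
        apply c.s_nofix h3 hA (fun h => hcon.1 (Subtype.ext h)) (fun h => hcon.2 (Subtype.ext h))
        exact Subtype.ext_iff.mp h
      · rintro (h | h)
        · rw [h]; exact c.s_O
        · rw [h]; exact c.s_Y
    rw [← Nat.card_eq_fintype_card, h1, Nat.card_coe_set_eq, Set.ncard_pair]
    intro h
    exact c.hOY (Subtype.ext_iff.mp h)
  rw [hcard, hfix]
  apply Odd.neg_one_pow
  have hn1 := ProjectivePlane.one_lt_order P L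
  rw [Nat.odd_iff]
  omega

theorem Cfg.sg_s' {m l : L} {O Y X Z : P} (c : Cfg m l O Y X Z) :
    sg c.s = be Z m * be Z (jn O X : L) * (be Y (jn O X : L) * be Y (jn O Z : L) *
      (be X (jn O Z : L) * be X m)) := by
  unfold Cfg.s
  rw [sg_trans, sg_trans, sg_pers, sg_pers, sg_pers]

/-- finset of points on a line -/
noncomputable def pf (m : L) : Finset P := (Set.toFinite {p : P | p ∈ m}).toFinset

omit [ProjectivePlane P L] [Finite L] in
theorem mem_pf {m : L} {p : P} : p ∈ pf m ↔ p ∈ m := by simp [pf]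

theorem card_pf (m : L) : (pf m : Finset P).card = ProjectivePlane.order P L + 1 := by
  rw [pf, ← Set.ncard_eq_toFinset_card, ← Nat.card_coe_set_eq]
  exact ProjectivePlane.pointCount_eq P m

open Classical in
noncomputable def gam (a m : L) (Y X : P) : ℤˣ := (∏ W ∈ (pf m).erase Y, be W a) * be X a

theorem gam_indep (h3 : IsChar3 P L) (hn : ProjectivePlane.order P L % 2 = 1) {a b m : L}
    {Y X : P} (hY : Y ∈ m) (hX : X ∈ m) (hXY : X ≠ Y) (hYa : Y ∈ a) (hYb : Y ∈ b)
    (ham : a ≠ m) (hbm : b ≠ m) : gam a m Y X = gam b m Y X := by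
  classical
  unfold gam
  set r := be X a * be X b with hr
  have h1 : ∀ W ∈ (pf m).erase Y, be W a = r * be W b := by
    intro W hW
    rw [Finset.mem_erase, mem_pf] at hW
    have h := be_rel h3 hY hYa hYb ham hbm hW.2 hX hW.1 hXY
    calc be W a = (be W a * be X a) * be X a := by rw [mul_assoc, units_mul_self, mul_one]
      _ = (be W b * be X b) * be X a := by rw [h]
      _ = r * be W b := by rw [hr]; ac_rfl
  rw [Finset.prod_congr rfl h1, Finset.prod_mul_distrib, Finset.prod_const,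
    Finset.card_erase_of_mem (mem_pf.mpr hY), card_pf, Nat.add_sub_cancel]
  have h2 : r ^ ProjectivePlane.order P L = r := by
    obtain ⟨k, hk⟩ : ∃ k, ProjectivePlane.order P L = 2 * k + 1 :=
      ⟨ProjectivePlane.order P L / 2, by omega⟩
    rw [hk, pow_succ, pow_mul, pow_two, units_mul_self, one_pow, one_mul]
  rw [h2]
  calc r * (∏ i ∈ (pf m).erase Y, be i b) * be X a
      = (be X a * be X a) * ((∏ i ∈ (pf m).erase Y, be i b) * be X b) := by rw [hr]; ac_rfl
    _ = _ := by rw [units_mul_self, one_mul]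

omit [Finite P] [Finite L] in
/-- a line through `Y` other than `m` -/
noncomputable def oth (m : L) (Y : P) : L := jn Y (exists_point (P := P) m).choose

omit [Finite P] [Finite L] in
theorem mem_oth (m : L) (Y : P) : Y ∈ oth m Y := mem_jn_left _ _

omit [Finite P] [Finite L] in
theorem oth_ne (m : L) (Y : P) : oth m Y ≠ m := by
  intro h
  have h1 : (exists_point (P := P) m).choose ∈ oth m Y := mem_jn_right _ _
  rw [h] at h1
  exact (exists_point (P := P) m).choose_spec h1

noncomputable def nab (m : L) (X Y Z : P) : ℤˣ :=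
  gam (oth m Y) m Y X * gam (oth m Z) m Z Y * gam (oth m X) m X Z

theorem nab_cyc (m : L) (X Y Z : P) : nab m X Y Z = nab m Y Z X := by
  unfold nab; ac_rfl

theorem nab_skew (h3 : IsChar3 P L) (hn : ProjectivePlane.order P L % 4 = 3) {m : L} {X Y Z : P}
    (hX : X ∈ m) (hY : Y ∈ m) (hZ : Z ∈ m) (hXY : X ≠ Y) (hYZ : Y ≠ Z) (hXZ : X ≠ Z) :
    nab m X Y Z = - nab m X Z Y := by
  classical
  obtain ⟨O, hO⟩ := exists_point (P := P) m
  have hn2 : ProjectivePlane.order P L % 2 = 1 := by omega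
  have hOX : O ≠ X := (ne_of_mem hX hO).symm
  have hOY : O ≠ Y := (ne_of_mem hY hO).symm
  have hOZ : O ≠ Z := (ne_of_mem hZ hO).symm
  have am : ∀ W : P, (jn O W : L) ≠ m := by
    intro W h
    exact hO (by rw [← h]; exact mem_jn_left _ _)
  have c : Cfg (jn O Y : L) m O Y X Z :=
    ⟨mem_jn_right _ _, mem_jn_left _ _, hOY, hY, (am Y).symm, hX, hZ, hXY, hYZ.symm, hXZ⟩
  have h1 := c.sg_s h3 hn
  rw [c.sg_s'] at h1
  have g1 : ∀ U V : P, U ∈ m → V ∈ m → U ≠ V → gam (oth m V) m V U = gam (jn O V : L) m V U := by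
    intro U V hU hV hUV
    exact gam_indep h3 hn2 hV hU hUV (mem_oth _ _) (mem_jn_right _ _) (oth_ne _ _) (am V)
  have e : nab m X Y Z * nab m X Z Y = -1 := by
    unfold nab
    rw [g1 X Y hX hY hXY, g1 Y Z hY hZ hYZ, g1 Z X hZ hX hXZ.symm, g1 X Z hX hZ hXZ,
      g1 Z Y hZ hY hYZ.symm, g1 Y X hY hX hXY.symm]
    unfold gam
    generalize (∏ W ∈ (pf m).erase Y, be W (jn O Y : L)) = p1
    generalize (∏ W ∈ (pf m).erase Z, be W (jn O Z : L)) = p2
    generalize (∏ W ∈ (pf m).erase X, be W (jn O X : L)) = p3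
    rw [← h1]
    calc _ = (p1 * p1) * (p2 * p2) * (p3 * p3) * (be Z (jn O Y : L) * be Z (jn O X : L) *
          (be Y (jn O X : L) * be Y (jn O Z : L) *
      (be X (jn O Z : L) * be X (jn O Y : L)))) := by ac_rfl
      _ = _ := by simp only [units_mul_self, one_mul]
  calc nab m X Y Z = (nab m X Y Z * nab m X Z Y) * nab m X Z Y := by
        rw [mul_assoc, units_mul_self, mul_one]
    _ = _ := by rw [e]; simp

theorem nab_pers (h3 : IsChar3 P L) (hn : ProjectivePlane.order P L % 2 = 1) {Q : P} {m m1 : L}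
    (hm : Q ∉ m) (hm1 : Q ∉ m1) : ∃ K : ℤˣ, ∀ X Y Z : P, X ∈ m → Y ∈ m → Z ∈ m → X ≠ Y → Y ≠ Z →
      X ≠ Z → nab m1 (pr Q m1 X) (pr Q m1 Y) (pr Q m1 Z) = K * nab m X Y Z := by
  classical
  let kap : P → ℤˣ := fun W => be W (oth (jn Q W : L) Q) * be (pr Q m1 W) (oth (jn Q W : L) Q)
  have hkap : ∀ W ∈ m, ∀ a : L, Q ∈ a → a ≠ jn Q W → be W a * be (pr Q m1 W) a = kap W := by
    intro W hW a hQa ha
    exact be_rel h3 (mem_jn_left Q W) hQa (mem_oth _ _) ha (oth_ne _ _) (mem_jn_right _ _)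
      (pr_mem_jn _ _ _) (ne_of_mem hW hm) (pr_ne hm1 _)
  -- main relation
  have main : ∀ X Y : P, X ∈ m → Y ∈ m → X ≠ Y →
      gam (oth m1 (pr Q m1 Y)) m1 (pr Q m1 Y) (pr Q m1 X) =
        (∏ W ∈ pf m, kap W) * kap X * kap Y * gam (oth m Y) m Y X := by
    intro X Y hX hY hXY
    have hY1 : pr Q m1 Y ∈ m1 := pr_mem _ _ _
    have hX1 : pr Q m1 X ∈ m1 := pr_mem _ _ _
    have hXY1 : pr Q m1 X ≠ pr Q m1 Y := fun h => hXY (pr_inj hm hm1 hX hY h)
    have ham : (jn Q Y : L) ≠ m := by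
      intro h; exact hm (by rw [← h]; exact mem_jn_left _ _)
    have ham1 : (jn Q Y : L) ≠ m1 := by
      intro h; exact hm1 (by rw [← h]; exact mem_jn_left _ _)
    rw [gam_indep h3 hn hY hX hXY (mem_oth _ _) (mem_jn_right Q Y) (oth_ne _ _) ham,
      gam_indep h3 hn hY1 hX1 hXY1 (mem_oth _ _) (pr_mem_jn Q m1 Y) (oth_ne _ _) ham1]
    unfold gam
    have e1 : ∏ W ∈ (pf m1).erase (pr Q m1 Y), be W (jn Q Y : L) =
        ∏ W ∈ (pf m).erase Y, be (pr Q m1 W) (jn Q Y : L) := by
      symm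
      apply Finset.prod_bij (fun W _ => pr Q m1 W)
      · intro W hW
        rw [Finset.mem_erase, mem_pf] at hW ⊢
        exact ⟨fun h => hW.1 (pr_inj hm hm1 hW.2 hY h), pr_mem _ _ _⟩
      · intro W hW V hV h
        rw [Finset.mem_erase, mem_pf] at hW hV
        exact pr_inj hm hm1 hW.2 hV.2 h
      · intro V hV
        rw [Finset.mem_erase, mem_pf] at hV
        refine ⟨pr Q m V, ?_, pr_pr hm1 hm hV.2⟩
        rw [Finset.mem_erase, mem_pf]
        refine ⟨?_, pr_mem _ _ _⟩
        intro h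
        apply hV.1
        rw [← h, pr_pr hm1 hm hV.2]
      · intro W hW; rfl
    have hane : ∀ W, W ∈ m → W ≠ Y → (jn Q Y : L) ≠ jn Q W := by
      intro W hW hWY h
      have : (jn Q Y : L) = m :=
        line_eq hWY (by rw [h]; exact mem_jn_right _ _) (mem_jn_right _ _) hW hY
      exact ham this
    have e2 : (∏ W ∈ (pf m).erase Y, be W (jn Q Y : L)) *
        (∏ W ∈ (pf m).erase Y, be (pr Q m1 W) (jn Q Y : L)) = ∏ W ∈ (pf m).erase Y, kap W := by
      rw [← Finset.prod_mul_distrib]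
      apply Finset.prod_congr rfl
      intro W hW
      rw [Finset.mem_erase, mem_pf] at hW
      exact hkap W hW.2 _ (mem_jn_left _ _) (hane W hW.2 hW.1)
    have e3 : be X (jn Q Y : L) * be (pr Q m1 X) (jn Q Y : L) = kap X :=
      hkap X hX _ (mem_jn_left _ _) (hane X hX hXY)
    have e4 : (∏ W ∈ pf m, kap W) = kap Y * ∏ W ∈ (pf m).erase Y, kap W :=
      (Finset.mul_prod_erase _ _ (mem_pf.mpr hY)).symm
    rw [e1, e4, ← e2, ← e3]
    generalize (∏ W ∈ (pf m).erase Y, be W (jn Q Y : L)) = p1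
    generalize (∏ W ∈ (pf m).erase Y, be (pr Q m1 W) (jn Q Y : L)) = p2
    generalize kap Y = k
    generalize be X (jn Q Y : L) = b1
    generalize be (pr Q m1 X) (jn Q Y : L) = b2
    calc p2 * b2 = (k * k) * (p1 * p1) * (b1 * b1) * (p2 * b2) := by
          rw [units_mul_self, units_mul_self, units_mul_self]; simp
      _ = _ := by ac_rfl
  refine ⟨∏ W ∈ pf m, kap W, ?_⟩
  intro X Y Z hX hY hZ hXY hYZ hXZ
  unfold nab
  rw [main X Y hX hY hXY, main Y Z hY hZ hYZ, main Z X hZ hX hXZ.symm]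
  generalize (∏ W ∈ pf m, kap W) = K
  generalize kap X = x
  generalize kap Y = y
  generalize kap Z = z
  generalize gam (oth m Y) m Y X = g1
  generalize gam (oth m Z) m Z Y = g2
  generalize gam (oth m X) m X Z = g3
  calc _ = (K * K) * (x * x) * (y * y) * (z * z) * (K * (g1 * g2 * g3)) := by ac_rfl
    _ = _ := by rw [units_mul_self, units_mul_self, units_mul_self, units_mul_self]; simp

end Pool.Agent.Char3
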