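import Pool.Agent.Char3.Basic

set_option autoImplicit false

namespace Pool.Agent.Char3

open Configuration Configuration.Nondegenerate

variable {P L : Type*} [Membership P L] [ProjectivePlane P L]

/-- projection from `X` to the line `m`. -/
noncomputable def pr (X : P) (m : L) (p : P) : P := mt (jn X p : L) m

theorem pr_mem (X : P) (m : L) (p : P) : pr X m p ∈ m := mt_mem_right _ _

theorem pr_mem_jn (X : P) (m : L) (p : P) : pr X m p ∈ (jn X p : L) := mt_mem_left _ _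

theorem eq_pr {X p q : P} {m k : L} (hX : X ∉ m) (hpX : p ≠ X) (hXk : X ∈ k) (hpk : p ∈ k)
    (hqk : q ∈ k) (hqm : q ∈ m) : q = pr X m p := by
  have h1 : k = jn X p := eq_jn hpX.symm hXk hpk
  subst h1
  apply eq_mt _ hqk hqm
  rintro rfl
  exact hX hXk

theorem pr_self {X p : P} {m : L} (hX : X ∉ m) (hp : p ∈ m) : pr X m p = p := by
  have : p ≠ X := by rintro rfl; exact hX hp
  exact (eq_pr hX this (mem_jn_left X p) (mem_jn_right X p) (mem_jn_right X p) hp).symm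

omit [ProjectivePlane P L] in
theorem ne_of_mem {p q : P} {l : L} (hp : p ∈ l) (hq : q ∉ l) : p ≠ q := by
  rintro rfl; exact hq hp

theorem pr_ne {X : P} {m : L} (hX : X ∉ m) (p : P) : pr X m p ≠ X := ne_of_mem (pr_mem X m p) hX

theorem pr_pr {X p : P} {l m : L} (hl : X ∉ l) (hm : X ∉ m) (hp : p ∈ l) :
    pr X l (pr X m p) = p :=
  (eq_pr hl (pr_ne hm p) (mem_jn_left X p) (pr_mem_jn X m p) (mem_jn_right X p) hp).symm

/-- perspectivity from `l` to `m` with centre `X`. -/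
noncomputable def pers (X : P) (l m : L) (hl : X ∉ l) (hm : X ∉ m) :
    {p : P // p ∈ l} ≃ {p : P // p ∈ m} where
  toFun p := ⟨pr X m p.1, pr_mem X m p.1⟩
  invFun p := ⟨pr X l p.1, pr_mem X l p.1⟩
  left_inv p := Subtype.ext (pr_pr hl hm p.2)
  right_inv p := Subtype.ext (pr_pr hm hl p.2)

@[simp] theorem pers_coe (X : P) (l m : L) (hl : X ∉ l) (hm : X ∉ m) (p : {p : P // p ∈ l}) :
    ((pers X l m hl hm p : {p : P // p ∈ m}) : P) = pr X m p.1 := rfl

theorem pr_inj {X p q : P} {l m : L} (hl : X ∉ l) (hm : X ∉ m) (hp : p ∈ l) (hq : q ∈ l)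
    (h : pr X m p = pr X m q) : p = q := by
  rw [← pr_pr hl hm hp, h, pr_pr hl hm hq]

/-- A fixed point free injective self map of a three element set has order three. -/
theorem three_cycle {α : Type*} {s : Set α} (h3 : s.ncard = 3) {f : α → α}
    (maps : ∀ x ∈ s, f x ∈ s) (inj : ∀ x ∈ s, ∀ y ∈ s, f x = f y → x = y)
    (nofix : ∀ x ∈ s, f x ≠ x) : ∀ x ∈ s, f (f (f x)) = x ∧ f (f x) ≠ x := by
  obtain ⟨a, b, c, hab, hac, hbc, rfl⟩ := Set.ncard_eq_three.mp h3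
  have ha := maps a (by simp)
  have hb := maps b (by simp)
  have hc := maps c (by simp)
  have na := nofix a (by simp)
  have nb := nofix b (by simp)
  have nc := nofix c (by simp)
  have iab := inj a (by simp) b (by simp)
  have iac := inj a (by simp) c (by simp)
  have ibc := inj b (by simp) c (by simp)
  simp only [Set.mem_insert_iff, Set.mem_singleton_iff] at ha hb hc ⊢
  rcases ha with ha | ha | ha <;> rcases hb with hb | hb | hb <;> rcases hc with hc | hc | hc <;>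
    first
    | exact absurd ha na
    | exact absurd hb nb
    | exact absurd hc nc
    | exact absurd (iab (ha.trans hb.symm)) hab
    | exact absurd (iac (ha.trans hc.symm)) hac
    | exact absurd (ibc (hb.trans hc.symm)) hbc
    | (intro x hx
       rcases hx with hx | hx | hx <;> rw [hx, ha, hb, hc] <;>
        first
        | exact ⟨rfl, hab⟩
        | exact ⟨rfl, hab.symm⟩
        | exact ⟨rfl, hac⟩
        | exact ⟨rfl, hac.symm⟩
        | exact ⟨rfl, hbc⟩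
        | exact ⟨rfl, hbc.symm⟩)
    | (intro x hx
       rcases hx with hx | hx | hx <;> simp [hx, ha, hb, hc, hab, hab.symm, hac, hac.symm, hbc,
        hbc.symm])

theorem two_swap {α : Type*} {s : Set α} (h2 : s.ncard = 2) {f : α → α}
    (maps : ∀ x ∈ s, f x ∈ s) (nofix : ∀ x ∈ s, f x ≠ x) : ∀ x ∈ s, f (f x) = x := by
  obtain ⟨a, b, hab, rfl⟩ := Set.ncard_eq_two.mp h2
  have ha := maps a (by simp)
  have hb := maps b (by simp)
  have na := nofix a (by simp)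
  have nb := nofix b (by simp)
  simp only [Set.mem_insert_iff, Set.mem_singleton_iff] at ha hb ⊢
  rcases ha with ha | ha <;> rcases hb with hb | hb <;> rintro x (rfl | rfl) <;> simp_all

namespace Sub3

variable {S : Set P} {T : Set L}

theorem jn_mem (h : Sub3 S T) {p q : P} (hp : p ∈ S) (hq : q ∈ S) (hpq : p ≠ q) :
    (jn p q : L) ∈ T := h.join p hp q hq hpq _ (mem_jn_left _ _) (mem_jn_right _ _)

theorem mt_mem (h : Sub3 S T) {l m : L} (hl : l ∈ T) (hm : m ∈ T) (hlm : l ≠ m) :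
    (mt l m : P) ∈ S := h.meet l hl m hm hlm _ (mt_mem_left _ _) (mt_mem_right _ _)

theorem pr_mem' (h : Sub3 S T) {X p : P} {m : L} (hX : X ∈ S) (hp : p ∈ S) (hm : m ∈ T)
    (hpX : p ≠ X) (hXm : X ∉ m) : pr X m p ∈ S := by
  apply h.mt_mem (h.jn_mem hX hp hpX.symm) hm
  rintro rfl
  exact hXm (mem_jn_left _ _)

theorem three (h : Sub3 S T) {l : L} (hl : l ∈ T) {a : P} (ha : a ∈ S) (hal : a ∈ l) :
    {p : P | p ∈ S ∧ p ∈ l ∧ p ≠ a}.ncard = 3 := by
  have h1 : {p : P | p ∈ S ∧ p ∈ l ∧ p ≠ a} = {p : P | p ∈ S ∧ p ∈ l} \ {a} := by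
    ext p
    constructor
    · rintro ⟨h1, h2, h3⟩; exact ⟨⟨h1, h2⟩, h3⟩
    · rintro ⟨⟨h1, h2⟩, h3⟩; exact ⟨h1, h2, h3⟩
  rw [h1]
  have h2 := h.four l hl
  have h3 := Set.ncard_sdiff_singleton_add_one (s := {p : P | p ∈ S ∧ p ∈ l}) (a := a) ⟨ha, hal⟩
    (Set.finite_of_ncard_ne_zero (by omega))
  omega

theorem two (h : Sub3 S T) {l : L} (hl : l ∈ T) {a b : P} (hab : a ≠ b) (ha : a ∈ S) (hal : a ∈ l)
    (hb : b ∈ S) (hbl : b ∈ l) :
    {p : P | p ∈ S ∧ p ∈ l ∧ p ≠ a ∧ p ≠ b}.ncard = 2 := by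
  have h1 : {p : P | p ∈ S ∧ p ∈ l ∧ p ≠ a ∧ p ≠ b} =
      {p : P | p ∈ S ∧ p ∈ l ∧ p ≠ a} \ {b} := by
    ext p
    constructor
    · rintro ⟨h1, h2, h3, h4⟩; exact ⟨⟨h1, h2, h3⟩, h4⟩
    · rintro ⟨⟨h1, h2, h3⟩, h4⟩; exact ⟨h1, h2, h3, h4⟩
  rw [h1]
  have h2 := h.three hl ha hal
  have h3 := Set.ncard_sdiff_singleton_add_one (s := {p : P | p ∈ S ∧ p ∈ l ∧ p ≠ a}) (a := b)
    ⟨hb, hbl, hab.symm⟩ (Set.finite_of_ncard_ne_zero (by omega))
  omega

/-- the fourth point exists and is unique inside the subplane -/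
theorem exists_fourth (h : Sub3 S T) {l : L} (hl : l ∈ T) {a b c : P} (hab : a ≠ b) (hac : a ≠ c)
    (hbc : b ≠ c) (ha : a ∈ S) (hal : a ∈ l) (hb : b ∈ S) (hbl : b ∈ l) (hc : c ∈ S)
    (hcl : c ∈ l) : ∃ d, d ∈ S ∧ d ∈ l ∧ d ≠ a ∧ d ≠ b ∧ d ≠ c ∧
      ∀ x, x ∈ S → x ∈ l → x = a ∨ x = b ∨ x = c ∨ x = d := by
  obtain ⟨x, y, hxy, hs⟩ := Set.ncard_eq_two.mp (h.two hl hab ha hal hb hbl)
  have hc' : c ∈ ({x, y} : Set P) := by rw [← hs]; exact ⟨hc, hcl, hac.symm, hbc.symm⟩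
  rcases hc' with rfl | hc'
  · have hy : y ∈ {p : P | p ∈ S ∧ p ∈ l ∧ p ≠ a ∧ p ≠ b} := by rw [hs]; simp
    refine ⟨y, hy.1, hy.2.1, hy.2.2.1, hy.2.2.2, hxy.symm, ?_⟩
    intro z hz hzl
    by_cases h1 : z = a
    · exact Or.inl h1
    by_cases h2 : z = b
    · exact Or.inr (Or.inl h2)
    have hz' : z ∈ ({c, y} : Set P) := by rw [← hs]; exact ⟨hz, hzl, h1, h2⟩
    rcases hz' with h3 | h3
    · exact Or.inr (Or.inr (Or.inl h3))
    · exact Or.inr (Or.inr (Or.inr h3))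
  · have hc'' : c = y := hc'
    subst hc''
    have hx : x ∈ {p : P | p ∈ S ∧ p ∈ l ∧ p ≠ a ∧ p ≠ b} := by rw [hs]; simp
    refine ⟨x, hx.1, hx.2.1, hx.2.2.1, hx.2.2.2, hxy, ?_⟩
    intro z hz hzl
    by_cases h1 : z = a
    · exact Or.inl h1
    by_cases h2 : z = b
    · exact Or.inr (Or.inl h2)
    have hz' : z ∈ ({x, c} : Set P) := by rw [← hs]; exact ⟨hz, hzl, h1, h2⟩
    rcases hz' with h3 | h3
    · exact Or.inr (Or.inr (Or.inr h3))
    · exact Or.inr (Or.inr (Or.inl h3))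

end Sub3

/-- a configuration for the order three projectivity. -/
theorem t_facts (h3 : IsChar3 P L) {X Y Z : P} {l a b : L} (hYl : Y ∈ l) (hYa : Y ∈ a)
    (hYb : Y ∈ b) (hal : a ≠ l) (hbl : b ≠ l) (hab : a ≠ b) (hXl : X ∈ l) (hZl : Z ∈ l)
    (hXY : X ≠ Y) (hZY : Z ≠ Y) (hXZ : X ≠ Z) {A : P} (hA : A ∈ a) (hAY : A ≠ Y) :
    pr Z a (pr X b (pr Z a (pr X b (pr Z a (pr X b A))))) = A ∧
    pr Z a (pr X b (pr Z a (pr X b A))) ≠ A ∧ pr Z a (pr X b A) ≠ A := by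
  have hXa : X ∉ a := fun h => hXY (point_eq hal.symm hXl h hYl hYa)
  have hXb : X ∉ b := fun h => hXY (point_eq hbl.symm hXl h hYl hYb)
  have hZa : Z ∉ a := fun h => hZY (point_eq hal.symm hZl h hYl hYa)
  have hZb : Z ∉ b := fun h => hZY (point_eq hbl.symm hZl h hYl hYb)
  have hAl : A ∉ l := fun h => hAY (point_eq hal hA h hYa hYl)
  have hAb : A ∉ b := fun h => hAY (point_eq hab hA h hYa hYb)
  have hAX : A ≠ X := (ne_of_mem hXl hAl).symm
  have hAZ : A ≠ Z := (ne_of_mem hZl hAl).symm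
  -- no fixed points
  have nofix : ∀ p ∈ a, p ≠ Y → pr Z a (pr X b p) ≠ p := by
    intro p hp hpY heq
    have hpl : p ∉ l := fun h => hpY (point_eq hal hp h hYa hYl)
    have hpb : p ∉ b := fun h => hpY (point_eq hab hp h hYa hYb)
    have h1 : pr X b p ∈ (jn X p : L) := pr_mem_jn _ _ _
    have h2 : pr Z a (pr X b p) ∈ (jn Z (pr X b p) : L) := pr_mem_jn _ _ _
    rw [heq] at h2
    have h3 : pr X b p ≠ p := ne_of_mem (pr_mem _ _ _) hpb
    have h4 : (jn X p : L) = jn Z (pr X b p) :=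
      line_eq h3 h1 (mem_jn_right _ _) (mem_jn_right _ _) h2
    have h5 : (jn X p : L) = l :=
      line_eq hXZ (mem_jn_left _ _) (by rw [h4]; exact mem_jn_left _ _) hXl hZl
    exact hpl (by rw [← h5]; exact mem_jn_right _ _)
  set A' := pr X b A with hA'
  have hA'b : A' ∈ b := pr_mem _ _ _
  have hA'jn : A' ∈ (jn X A : L) := pr_mem_jn _ _ _
  have hA'A : A' ≠ A := ne_of_mem hA'b hAb
  have hA'Y : A' ≠ Y := by
    intro h
    have : (jn X A : L) = l := line_eq hXY (mem_jn_left _ _) (by rw [← h]; exact hA'jn) hXl hYl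
    exact hAl (by rw [← this]; exact mem_jn_right _ _)
  have hA'l : A' ∉ l := fun h => hA'Y (point_eq hbl hA'b h hYb hYl)
  have hA'a : A' ∉ a := fun h => hA'Y (point_eq hab h hA'b hYa hYb)
  obtain ⟨S, T, hS, hYS, hZS, hAS, hA'S⟩ := h3 Y Z A A'
    (by
      rintro ⟨k, h1, h2, h3⟩
      have : k = l := line_eq hZY h2 h1 hZl hYl
      exact hAl (this ▸ h3))
    (by
      rintro ⟨k, h1, h2, h3⟩
      have : k = l := line_eq hZY h2 h1 hZl hYl
      exact hA'l (this ▸ h3))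
    (by
      rintro ⟨k, h1, h2, h3⟩
      have : k = a := line_eq hAY h2 h1 hA hYa
      exact hA'a (this ▸ h3))
    (by
      rintro ⟨k, h1, h2, h3⟩
      have h4 : k = jn X A := line_eq hA'A h3 h2 hA'jn (mem_jn_right _ _)
      have h5 : k = l := line_eq hXZ (by rw [h4]; exact mem_jn_left _ _) h1 hXl hZl
      exact hAl (h5 ▸ h2))
  have haT : a ∈ T := hS.join _ hYS _ hAS hAY.symm _ hYa hA
  have hbT : b ∈ T := hS.join _ hYS _ hA'S hA'Y.symm _ hYb hA'b
  have hlT : l ∈ T := hS.join _ hYS _ hZS hZY.symm _ hYl hZl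
  have hkT : (jn X A : L) ∈ T := hS.join _ hAS _ hA'S hA'A.symm _ (mem_jn_right _ _) hA'jn
  have hXS : X ∈ S := hS.meet _ hkT _ hlT (by
    intro h; exact hAl (by rw [← h]; exact mem_jn_right _ _)) _ (mem_jn_left _ _) hXl
  -- apply the three cycle lemma
  have key := three_cycle (hS.three haT hYS hYa) (f := fun p => pr Z a (pr X b p))
    (by
      rintro p ⟨hpS, hpa, hpY⟩
      have hpX : p ≠ X := ne_of_mem hpa hXa
      have h1 : pr X b p ∈ S := hS.pr_mem' hXS hpS hbT hpX hXb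
      have h2 : pr X b p ≠ Z := ne_of_mem (pr_mem _ _ _) hZb
      refine ⟨hS.pr_mem' hZS h1 haT h2 hZa, pr_mem _ _ _, ?_⟩
      intro h4
      have hY1 : pr Z a (pr X b Y) = Y := by
        rw [pr_self hXb hYb, pr_self hZa hYa]
      have h5 : pr Z a (pr X b p) = pr Z a (pr X b Y) := by rw [hY1]; exact h4
      have h6 := pr_inj hZb hZa (pr_mem _ _ _) (pr_mem _ _ _) h5
      exact hpY (pr_inj hXa hXb hpa hYa h6))
    (by
      rintro p ⟨hpS, hpa, hpY⟩ q ⟨hqS, hqa, hqY⟩ heq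
      exact pr_inj hXa hXb hpa hqa (pr_inj hZb hZa (pr_mem _ _ _) (pr_mem _ _ _) heq))
    (by
      rintro p ⟨hpS, hpa, hpY⟩
      exact nofix p hpa hpY)
  have k := key A ⟨hAS, hA, hAY⟩
  exact ⟨k.1, k.2, nofix A hA hAY⟩

end Pool.Agent.Char3
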