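import Pool.Agent.Char3.Persp

set_option autoImplicit false

namespace Pool.Agent.Char3

open Configuration Configuration.Nondegenerate

variable {P L : Type*} [Membership P L] [ProjectivePlane P L] [Finite P] [Finite L]

/-- enumeration of the points of a line. -/
noncomputable def eL (l : L) : {p : P // p ∈ l} ≃ Fin (ProjectivePlane.order P L + 1) :=
  Finite.equivFinOfCardEq (ProjectivePlane.pointCount_eq P l)

/-- enumeration of the lines through a point. -/
noncomputable def eP (X : P) : {l : L // X ∈ l} ≃ Fin (ProjectivePlane.order P L + 1) :=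
  Finite.equivFinOfCardEq (ProjectivePlane.lineCount_eq L X)

omit [Finite P] [Finite L] in
/-- the bijection pencil → line. -/
noncomputable def pen (X : P) (a : L) (h : X ∉ a) : {l : L // X ∈ l} ≃ {p : P // p ∈ a} where
  toFun l := ⟨mt l.1 a, mt_mem_right _ _⟩
  invFun p := ⟨jn X p.1, mem_jn_left _ _⟩
  left_inv l := by
    apply Subtype.ext
    have h1 : (mt l.1 a : P) ≠ X := ne_of_mem (mt_mem_right _ _) h
    exact (eq_jn h1.symm l.2 (mt_mem_left _ _)).symm
  right_inv p := by
    apply Subtype.ext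
    have h1 : (jn X p.1 : L) ≠ a := by
      intro h2
      exact h (by rw [← h2]; exact mem_jn_left _ _)
    exact (eq_mt h1 (mem_jn_right _ _) p.2).symm

open Classical in
/-- sign of the bijection pencil → line. -/
noncomputable def be (X : P) (a : L) : ℤˣ :=
  if h : X ∉ a then Equiv.Perm.sign ((eP X).symm.trans ((pen X a h).trans (eL a))) else 1

/-- sign of a bijection between two lines -/
noncomputable def sg {l m : L} (φ : {p : P // p ∈ l} ≃ {p : P // p ∈ m}) : ℤˣ :=
  Equiv.Perm.sign ((eL l).symm.trans (φ.trans (eL m)))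

theorem sg_trans {l m k : L} (φ : {p : P // p ∈ l} ≃ {p : P // p ∈ m})
    (ψ : {p : P // p ∈ m} ≃ {p : P // p ∈ k}) : sg (φ.trans ψ) = sg φ * sg ψ := by
  unfold sg
  rw [mul_comm, ← Equiv.Perm.sign_mul]
  congr 1
  ext x
  simp [Equiv.Perm.mul_apply]

theorem sg_self {l : L} [DecidableEq {p : P // p ∈ l}] [Fintype {p : P // p ∈ l}]
    (φ : Equiv.Perm {p : P // p ∈ l}) : sg φ = Equiv.Perm.sign φ := by
  unfold sg
  exact Equiv.Perm.sign_symm_trans_trans φ (eL l)

theorem sg_pers {X : P} {l m : L} (hl : X ∉ l) (hm : X ∉ m) :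
    sg (pers X l m hl hm) = be X l * be X m := by
  have h1 : be X l = Equiv.Perm.sign ((eP X).symm.trans ((pen X l hl).trans (eL l))) := by
    unfold be; rw [dif_pos hl]
  have h2 : be X m = Equiv.Perm.sign ((eP X).symm.trans ((pen X m hm).trans (eL m))) := by
    unfold be; rw [dif_pos hm]
  rw [h1, h2, ← Equiv.Perm.sign_symm ((eP X).symm.trans ((pen X l hl).trans (eL l))), mul_comm,
    ← Equiv.Perm.sign_mul]
  unfold sg
  congr 1
  apply Equiv.ext
  intro x
  simp only [Equiv.trans_apply, Equiv.Perm.mul_apply, Equiv.symm_trans_apply, Equiv.symm_symm,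
    Equiv.symm_apply_apply]
  congr 1

theorem units_mul_self (u : ℤˣ) : u * u = 1 := by
  rcases Int.units_eq_one_or u with h | h <;> simp [h]

/-- (E): the relation between `β`'s. -/
theorem be_rel (h3 : IsChar3 P L) {X Y Z : P} {l a b : L} (hYl : Y ∈ l) (hYa : Y ∈ a)
    (hYb : Y ∈ b) (hal : a ≠ l) (hbl : b ≠ l) (hXl : X ∈ l) (hZl : Z ∈ l)
    (hXY : X ≠ Y) (hZY : Z ≠ Y) : be X a * be Z a = be X b * be Z b := by
  by_cases hab : a = b
  · rw [hab]
  by_cases hXZ : X = Z
  · rw [hXZ, units_mul_self, units_mul_self]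
  have hXa : X ∉ a := fun h => hXY (point_eq hal.symm hXl h hYl hYa)
  have hXb : X ∉ b := fun h => hXY (point_eq hbl.symm hXl h hYl hYb)
  have hZa : Z ∉ a := fun h => hZY (point_eq hal.symm hZl h hYl hYa)
  have hZb : Z ∉ b := fun h => hZY (point_eq hbl.symm hZl h hYl hYb)
  classical
  haveI : Fintype {p : P // p ∈ a} := Fintype.ofFinite _
  let t : Equiv.Perm {p : P // p ∈ a} := (pers X a b hXa hXb).trans (pers Z b a hZb hZa)
  have ht : ∀ p, t (t (t p)) = p := by
    rintro ⟨p, hp⟩
    apply Subtype.ext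
    simp only [t, Equiv.trans_apply, pers_coe]
    by_cases hpY : p = Y
    · subst hpY
      rw [pr_self hXb hYb, pr_self hZa hYa, pr_self hXb hYb, pr_self hZa hYa, pr_self hXb hYb,
        pr_self hZa hYa]
    · exact (t_facts h3 hYl hYa hYb hal hbl hab hXl hZl hXY hZY hXZ hp hpY).1
  have ht3 : t * (t * t) = 1 := by
    ext p
    simp only [Equiv.Perm.mul_apply, ht, Equiv.Perm.one_apply]
  have h1 : sg t = be X a * be X b * (be Z b * be Z a) := by
    simp only [t]
    rw [sg_trans, sg_pers, sg_pers]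
  have h2 : Equiv.Perm.sign t = 1 := by
    have := congrArg Equiv.Perm.sign ht3
    rw [Equiv.Perm.sign_mul, Equiv.Perm.sign_mul, units_mul_self, mul_one, map_one] at this
    exact this
  rw [sg_self, h2] at h1
  rcases Int.units_eq_one_or (be X a) with e1 | e1 <;>
  rcases Int.units_eq_one_or (be X b) with e2 | e2 <;>
  rcases Int.units_eq_one_or (be Z a) with e3 | e3 <;>
  rcases Int.units_eq_one_or (be Z b) with e4 | e4 <;>
  simp_all

end Pool.Agent.Char3
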