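import Mathlib

set_option autoImplicit false

namespace Pool.Agent.Char3

open Equiv MulAction

section
variable {Ω : Type*} [Finite Ω]

theorem umul (u : ℤˣ) : u * u = 1 := by
  rcases Int.units_eq_one_or u with h | h <;> simp [h]

theorem uneg {u : ℤˣ} (h : u = -u) : False := by
  rcases Int.units_eq_one_or u with h' | h' <;> rw [h'] at h <;> revert h <;> decide

omit [Finite Ω] in
theorem pai (g : Perm Ω) (x : Ω) : g (g⁻¹ x) = x := by
  rw [← Perm.mul_apply, mul_inv_cancel]; rfl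

omit [Finite Ω] in
theorem pia (g : Perm Ω) (x : Ω) : g⁻¹ (g x) = x := by
  rw [← Perm.mul_apply, inv_mul_cancel]; rfl

def Skew (S : Ω → Ω → ℤˣ) : Prop := ∀ A B, A ≠ B → S B A = - S A B

/-- group of automorphisms and anti-automorphisms. -/
def pmAut (S : Ω → Ω → ℤˣ) : Subgroup (Perm Ω) where
  carrier := {g | ∃ ε : ℤˣ, ∀ A B, A ≠ B → S (g A) (g B) = ε * S A B}
  mul_mem' := by
    rintro g h ⟨ε, hg⟩ ⟨δ, hh⟩
    refine ⟨ε * δ, fun A B hAB => ?_⟩
    rw [Perm.mul_apply, Perm.mul_apply, hg _ _ (h.injective.ne hAB), hh _ _ hAB, mul_assoc]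
  one_mem' := ⟨1, fun A B _ => by simp⟩
  inv_mem' := by
    rintro g ⟨ε, hg⟩
    refine ⟨ε, fun A B hAB => ?_⟩
    have := hg (g⁻¹ A) (g⁻¹ B) ((g⁻¹).injective.ne hAB)
    rw [pai, pai] at this
    rw [this, ← mul_assoc, umul, one_mul]

theorem mem_pmAut {S : Ω → Ω → ℤˣ} {g : Perm Ω} :
    g ∈ pmAut S ↔ ∃ ε : ℤˣ, ∀ A B, A ≠ B → S (g A) (g B) = ε * S A B := Iff.rfl

/-- pointwise stabiliser of two points. -/
def stab2 (S : Ω → Ω → ℤˣ) (A B : Ω) : Subgroup (Perm Ω) where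
  carrier := {g | g ∈ pmAut S ∧ g A = A ∧ g B = B}
  mul_mem' := by
    rintro g h ⟨hg, hgA, hgB⟩ ⟨hh, hhA, hhB⟩
    exact ⟨mul_mem hg hh, by rw [Perm.mul_apply, hhA, hgA], by rw [Perm.mul_apply, hhB, hgB]⟩
  one_mem' := ⟨one_mem _, rfl, rfl⟩
  inv_mem' := by
    rintro g ⟨hg, hgA, hgB⟩
    exact ⟨inv_mem hg, by rw [Perm.inv_eq_iff_eq, hgA], by rw [Perm.inv_eq_iff_eq, hgB]⟩

theorem mem_stab2 {S : Ω → Ω → ℤˣ} {A B : Ω} {g : Perm Ω} :
    g ∈ stab2 S A B ↔ g ∈ pmAut S ∧ g A = A ∧ g B = B := Iff.rfl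

theorem stab2_preserves {S : Ω → Ω → ℤˣ} {A B : Ω} (hAB : A ≠ B) {g : Perm Ω}
    (hg : g ∈ stab2 S A B) {X Y : Ω} (hXY : X ≠ Y) : S (g X) (g Y) = S X Y := by
  obtain ⟨⟨ε, h⟩, hA, hB⟩ := hg
  have h1 := h A B hAB
  rw [hA, hB] at h1
  have : ε = 1 := by
    have : S A B * S A B = ε * (S A B * S A B) := by
      rw [← mul_assoc, ← h1]
    rw [umul, mul_one] at this
    exact this.symm
  rw [h X Y hXY, this, one_mul]

theorem odd_stab2 {S : Ω → Ω → ℤˣ} (hS : Skew S) {A B : Ω} (hAB : A ≠ B) :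
    ¬ 2 ∣ Nat.card (stab2 S A B) := by
  intro h
  have : Fact (Nat.Prime 2) := ⟨Nat.prime_two⟩
  obtain ⟨k, hk⟩ := exists_prime_orderOf_dvd_card' (G := stab2 S A B) 2 h
  have hk1 : (k : Perm Ω) ≠ 1 := by
    intro h1
    have : k = 1 := Subtype.ext h1
    rw [this, orderOf_one] at hk
    exact absurd hk (by norm_num)
  have hk2 : (k : Perm Ω) * k = 1 := by
    have h1 := pow_orderOf_eq_one k
    rw [hk, pow_two] at h1
    exact congrArg Subtype.val h1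
  obtain ⟨x, hx⟩ : ∃ x, (k : Perm Ω) x ≠ x := by
    by_contra hcon
    push Not at hcon
    exact hk1 (Perm.ext hcon)
  have h1 := stab2_preserves hAB k.2 hx.symm
  have h2 : (k : Perm Ω) ((k : Perm Ω) x) = x := by
    rw [← Perm.mul_apply, hk2]; rfl
  rw [h2, hS _ _ hx.symm] at h1
  exact uneg h1.symm

/-- the two halves of a self-dual tournament neighbourhood have the same size. -/
theorem halves {S : Ω → Ω → ℤˣ} {F : Set Ω} {g : Perm Ω} {A : Ω}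
    (hg : ∀ X Y, X ≠ Y → S (g X) (g Y) = - S X Y) (hA : g A = A)
    (hF : ∀ x, x ∈ F ↔ g x ∈ F) :
    {x | x ∈ F ∧ x ≠ A ∧ S A x = 1}.ncard = {x | x ∈ F ∧ x ≠ A ∧ S A x = -1}.ncard := by
  rw [← Set.ncard_image_of_injective {x | x ∈ F ∧ x ≠ A ∧ S A x = 1} g.injective]
  congr 1
  ext y
  constructor
  · rintro ⟨x, ⟨hxF, hxA, hSx⟩, rfl⟩
    refine ⟨(hF x).mp hxF, ?_, ?_⟩
    · intro h
      exact hxA (g.injective (h.trans hA.symm))
    · have := hg A x hxA.symm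
      rw [hA, hSx] at this
      exact this
  · rintro ⟨hyF, hyA, hSy⟩
    refine ⟨g⁻¹ y, ⟨?_, ?_, ?_⟩, pai _ _⟩
    · rw [hF, pai]; exact hyF
    · intro h
      apply hyA
      rw [Perm.inv_eq_iff_eq] at h
      rw [h, hA]
    · have h1 : g⁻¹ y ≠ A := by
        intro h
        apply hyA
        rw [Perm.inv_eq_iff_eq] at h
        rw [h, hA]
      have := hg A (g⁻¹ y) h1.symm
      rw [hA, pai, hSy] at this
      simpa using this.symm

theorem odd_of_halves {S : Ω → Ω → ℤˣ} {F : Set Ω} {A : Ω} (hA : A ∈ F)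
    (h : {x | x ∈ F ∧ x ≠ A ∧ S A x = 1}.ncard = {x | x ∈ F ∧ x ≠ A ∧ S A x = -1}.ncard) :
    F.ncard = 2 * {x | x ∈ F ∧ x ≠ A ∧ S A x = 1}.ncard + 1 := by
  have h1 : F = insert A ({x | x ∈ F ∧ x ≠ A ∧ S A x = 1} ∪ {x | x ∈ F ∧ x ≠ A ∧ S A x = -1}) := by
    ext x
    constructor
    · intro hx
      by_cases hxA : x = A
      · left; exact hxA
      · right
        rcases Int.units_eq_one_or (S A x) with h | h
        · left; exact ⟨hx, hxA, h⟩
        · right; exact ⟨hx, hxA, h⟩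
    · rintro (hx | hx | hx)
      · rw [hx]; exact hA
      · exact hx.1
      · exact hx.1
  have h2 : Disjoint {x | x ∈ F ∧ x ≠ A ∧ S A x = 1} {x | x ∈ F ∧ x ≠ A ∧ S A x = -1} := by
    rw [Set.disjoint_left]
    rintro x ⟨_, _, h3⟩ ⟨_, _, h4⟩
    rw [h3] at h4
    exact absurd h4 (by decide)
  have h3 : A ∉ {x | x ∈ F ∧ x ≠ A ∧ S A x = 1} ∪ {x | x ∈ F ∧ x ≠ A ∧ S A x = -1} := by
    rintro (h | h)
    · exact h.2.1 rfl
    · exact h.2.1 rfl
  conv_lhs => rw [h1]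
  rw [Set.ncard_insert_of_notMem h3 (Set.toFinite _), Set.ncard_union_eq h2 (Set.toFinite _)
    (Set.toFinite _), ← h]
  ring

end

end Pool.Agent.Char3
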