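import Pool.Agent.Char3.Tour

set_option autoImplicit false

namespace Pool.Agent.Char3

open Equiv MulAction

variable {Ω : Type*} [Finite Ω] {S : Ω → Ω → ℤˣ}

/-- conjugation by an involution swapping `A` and `B`. -/
def conjS {A B : Ω} {s : Perm Ω} (hs : s ∈ pmAut S) (hss : s * s = 1) (hAB : s A = B) :
    MulAut (stab2 S A B) :=
  have hBA : s B = A := by rw [← hAB, ← Perm.mul_apply, hss]; rfl
  have hmem : ∀ k : stab2 S A B, s * (k : Perm Ω) * s ∈ stab2 S A B := by
    rintro ⟨k, hk, hkA, hkB⟩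
    refine ⟨mul_mem (mul_mem hs hk) hs, ?_, ?_⟩
    · simp only [Perm.mul_apply]; rw [hAB, hkB, hBA]
    · simp only [Perm.mul_apply]; rw [hBA, hkA, hAB]
  have hinv : ∀ k : Perm Ω, s * (s * k * s) * s = k := by
    intro k
    calc s * (s * k * s) * s = (s * s) * k * (s * s) := by group
      _ = k := by rw [hss]; group
  { toFun := fun k => ⟨s * k * s, hmem k⟩
    invFun := fun k => ⟨s * k * s, hmem k⟩
    left_inv := fun k => Subtype.ext (hinv k)
    right_inv := fun k => Subtype.ext (hinv k)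
    map_mul' := by
      rintro ⟨k, hk⟩ ⟨l, hl⟩
      apply Subtype.ext
      show s * (k * l) * s = (s * k * s) * (s * l * s)
      calc s * (k * l) * s = s * k * 1 * l * s := by group
        _ = s * k * (s * s) * l * s := by rw [hss]
        _ = _ := by group }

/-- an involution swapping `A` and `B` normalises some Sylow subgroup of the stabiliser. -/
theorem exists_inv_sylow (hS : Skew S) {A B : Ω} (hne : A ≠ B) {s : Perm Ω} (hs : s ∈ pmAut S)
    (hss : s * s = 1) (hAB : s A = B) (p : ℕ) [Fact p.Prime] :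
    ∃ P : Sylow p (stab2 S A B), ∀ q ∈ (P : Subgroup (stab2 S A B)).map (stab2 S A B).subtype,
      s * q * s ∈ (P : Subgroup (stab2 S A B)).map (stab2 S A B).subtype := by
  classical
  have h2 : Fact (Nat.Prime 2) := ⟨Nat.prime_two⟩
  let φ := conjS hs hss hAB
  have hφ : φ * φ = 1 := by
    apply MulEquiv.ext
    intro k
    exact (conjS hs hss hAB).left_inv k
  have : Fintype (Sylow p (stab2 S A B)) := Fintype.ofFinite _
  have hodd : ¬ 2 ∣ Fintype.card (Sylow p (stab2 S A B)) := by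
    intro h
    rw [← Nat.card_eq_fintype_card] at h
    have P0 : Sylow p (stab2 S A B) := default
    have h1 := h.trans P0.card_dvd_index
    exact odd_stab2 hS hne (h1.trans (Subgroup.index_dvd_card _))
  let σ : Perm (Sylow p (stab2 S A B)) := MulAction.toPerm φ
  have hσ : σ ^ 2 ^ 1 = 1 := by
    rw [pow_one, pow_two]
    ext1 P
    show φ • (φ • P) = P
    rw [← mul_smul, hφ, one_smul]
  obtain ⟨P, hP⟩ := Perm.exists_fixed_point_of_prime hodd hσ
  have hP' : φ • P = P := hP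
  refine ⟨P, ?_⟩
  rintro q ⟨k, hk, rfl⟩
  have h3 : φ k ∈ (P : Subgroup (stab2 S A B)) := by
    have h4 : φ k ∈ ((φ • P : Sylow p (stab2 S A B)) : Subgroup (stab2 S A B)) := by
      rw [Sylow.pointwise_smul_def, Subgroup.mem_pointwise_smul_iff_inv_smul_mem]
      have : φ⁻¹ • φ k = k := by
        show φ⁻¹ (φ k) = k
        exact MulAut.inv_apply_self _ φ k
      rw [this]
      exact hk
    rw [hP'] at h4
    exact h4
  exact ⟨φ k, h3, rfl⟩

theorem witt {A B A' B' : Ω} {p : ℕ} [Fact p.Prime]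
    (h2t : ∀ A B A' B' : Ω, A ≠ B → A' ≠ B' → ∃ g ∈ pmAut S, g A = A' ∧ g B = B')
    (hAB : A ≠ B) (hAB' : A' ≠ B') (P : Sylow p (stab2 S A B))
    (hA' : ∀ q ∈ (P : Subgroup (stab2 S A B)).map (stab2 S A B).subtype, q A' = A')
    (hB' : ∀ q ∈ (P : Subgroup (stab2 S A B)).map (stab2 S A B).subtype, q B' = B') :
    ∃ h ∈ pmAut S, h A = A' ∧ h B = B' ∧
      ∀ q : Perm Ω, q ∈ (P : Subgroup (stab2 S A B)).map (stab2 S A B).subtype ↔
        h * q * h⁻¹ ∈ (P : Subgroup (stab2 S A B)).map (stab2 S A B).subtype := by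
  classical
  obtain ⟨g, hg, hgA, hgB⟩ := h2t A B A' B' hAB hAB'
  set Q := (P : Subgroup (stab2 S A B)).map (stab2 S A B).subtype with hQ
  -- for q in Q, g⁻¹ q g in K
  have hQG : ∀ q ∈ Q, q ∈ pmAut S := by
    rintro q ⟨k, hk, rfl⟩
    exact k.2.1
  have hconj : ∀ q ∈ Q, g⁻¹ * q * g ∈ stab2 S A B := by
    intro q hq
    refine ⟨mul_mem (mul_mem (inv_mem hg) (hQG q hq)) hg, ?_, ?_⟩
    · simp only [Perm.mul_apply]; rw [hgA, hA' q hq, ← hgA, pia]
    · simp only [Perm.mul_apply]; rw [hgB, hB' q hq, ← hgB, pia]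
  let R : Subgroup (stab2 S A B) :=
    Q.comap ((MulAut.conj g).toMonoidHom.comp (stab2 S A B).subtype)
  have hR : ∀ k : stab2 S A B, k ∈ R ↔ g * (k : Perm Ω) * g⁻¹ ∈ Q := fun k => Iff.rfl
  have hcard : Nat.card R = Nat.card (P : Subgroup (stab2 S A B)) := by
    have e1 : Nat.card R = Nat.card Q := by
      refine Nat.card_congr ⟨fun k => ⟨g * (k : Perm Ω) * g⁻¹, (hR k.1).mp k.2⟩,
        fun q => ⟨⟨g⁻¹ * q.1 * g, hconj q.1 q.2⟩, ?_⟩, ?_, ?_⟩
      · rw [hR]
        have : g * (g⁻¹ * q.1 * g) * g⁻¹ = q.1 := by group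
        show g * (g⁻¹ * q.1 * g) * g⁻¹ ∈ Q
        rw [this]; exact q.2
      · intro k
        apply Subtype.ext
        apply Subtype.ext
        show g⁻¹ * (g * (k : Perm Ω) * g⁻¹) * g = k
        group
      · intro q
        apply Subtype.ext
        show g * (g⁻¹ * q.1 * g) * g⁻¹ = q.1
        group
    rw [e1, hQ]
    exact (Nat.card_congr ((P : Subgroup (stab2 S A B)).equivMapOfInjective _
      (Subgroup.subtype_injective _)).toEquiv).symm
  have hcard2 : Nat.card R = p ^ (Nat.card (stab2 S A B)).factorization p := by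
    rw [hcard]; exact P.card_eq_multiplicity
  obtain ⟨k, hk⟩ := MulAction.exists_smul_eq (stab2 S A B) P (Sylow.ofCard R hcard2)
  have hk' : ∀ x : stab2 S A B, x ∈ (P : Subgroup (stab2 S A B)) ↔ k * x * k⁻¹ ∈ R := by
    intro x
    have h1 : (k * x * k⁻¹ ∈ R) ↔
        k * x * k⁻¹ ∈ ((k • P : Sylow p (stab2 S A B)) : Subgroup (stab2 S A B)) := by
      rw [hk]; rfl
    rw [h1, Sylow.coe_subgroup_smul, Subgroup.mem_pointwise_smul_iff_inv_smul_mem]
    have : (MulAut.conj k)⁻¹ • (k * x * k⁻¹) = x := by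
      show (MulAut.conj k)⁻¹ (k * x * k⁻¹) = x
      rw [← map_inv]
      simp [MulAut.conj_apply]
      group
    rw [this]
  refine ⟨g * k, mul_mem hg k.2.1, ?_, ?_, ?_⟩
  · rw [Perm.mul_apply, k.2.2.1, hgA]
  · rw [Perm.mul_apply, k.2.2.2, hgB]
  · intro q
    constructor
    · rintro ⟨x, hx, rfl⟩
      have h1 := (hR _).mp ((hk' x).mp hx)
      have h2 : g * (k : Perm Ω) * (stab2 S A B).subtype x * (g * (k : Perm Ω))⁻¹ =
          g * ((k * x * k⁻¹ : stab2 S A B) : Perm Ω) * g⁻¹ := by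
        simp only [Subgroup.coe_mul, Subgroup.coe_inv, Subgroup.subtype_apply]
        group
      rw [h2]; exact h1
    · intro hq
      have h3 : g * (k : Perm Ω) * q * (g * (k : Perm Ω))⁻¹ = g * (k * q * (k : Perm Ω)⁻¹) * g⁻¹ := by
        group
      have h4 : k * q * (k : Perm Ω)⁻¹ ∈ stab2 S A B := by
        have := hconj _ hq
        rw [h3] at this
        have e : g⁻¹ * (g * (k * q * (k : Perm Ω)⁻¹) * g⁻¹) * g = k * q * (k : Perm Ω)⁻¹ := by group
        rwa [e] at this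
      have h5 : q ∈ stab2 S A B := by
        have e : q = (k : Perm Ω)⁻¹ * (k * q * (k : Perm Ω)⁻¹) * k := by group
        rw [e]
        exact mul_mem (mul_mem (inv_mem k.2) h4) k.2
      refine ⟨⟨q, h5⟩, ?_, rfl⟩
      show (⟨q, h5⟩ : stab2 S A B) ∈ (P : Subgroup (stab2 S A B))
      rw [hk', hR]
      rw [h3] at hq
      exact hq

end Pool.Agent.Char3
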