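import Pool.Agent.Char3.Tour2

set_option autoImplicit false

namespace Pool.Agent.Char3

open Equiv MulAction

variable {Ω : Type*} [Finite Ω] {S : Ω → Ω → ℤˣ}

/-- if the two halves at `A` have the same size, a Sylow subgroup of the stabiliser of `A`, `B`
has a third fixed point. -/
theorem third_fixed {A B : Ω} (hAB : A ≠ B) (p : ℕ) [hp : Fact p.Prime]
    (P : Sylow p (stab2 S A B))
    (hh : {x | x ≠ A ∧ S A x = 1}.ncard = {x | x ≠ A ∧ S A x = -1}.ncard) :
    ∃ D, D ≠ A ∧ D ≠ B ∧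
      ∀ q ∈ (P : Subgroup (stab2 S A B)).map (stab2 S A B).subtype, q D = D := by
  classical
  by_contra hcon
  push Not at hcon
  set Q := (P : Subgroup (stab2 S A B)).map (stab2 S A B).subtype with hQ
  have key : ∀ ε : ℤˣ, Nat.card {x : Ω // x ≠ A ∧ S A x = ε} ≡
      Nat.card {x : Ω // (x ≠ A ∧ S A x = ε) ∧ ∀ q ∈ Q, q x = x} [MOD p] := by
    intro ε
    let act : MulAction (P : Subgroup (stab2 S A B)) {x : Ω // x ≠ A ∧ S A x = ε} :=
      { smul := fun k x => ⟨(k.1 : Perm Ω) x.1, by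
          refine ⟨?_, ?_⟩
          · intro h
            apply x.2.1
            apply (k.1 : Perm Ω).injective
            rw [h, k.1.2.2.1]
          · have := stab2_preserves hAB k.1.2 x.2.1.symm
            rw [k.1.2.2.1] at this
            rw [this]; exact x.2.2⟩
        one_smul := fun x => rfl
        mul_smul := fun k l x => rfl }
    have h1 := IsPGroup.card_modEq_card_fixedPoints P.isPGroup' {x : Ω // x ≠ A ∧ S A x = ε}
    have h2 : Nat.card (fixedPoints (P : Subgroup (stab2 S A B)) {x : Ω // x ≠ A ∧ S A x = ε}) =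
        Nat.card {x : Ω // (x ≠ A ∧ S A x = ε) ∧ ∀ q ∈ Q, q x = x} := by
      refine Nat.card_congr ⟨fun x => ⟨x.1.1, x.1.2, ?_⟩, fun x => ⟨⟨x.1, x.2.1⟩, ?_⟩,
        fun x => rfl, fun x => rfl⟩
      · rintro q ⟨k, hk, rfl⟩
        exact congrArg Subtype.val (x.2 ⟨k, hk⟩)
      · rintro ⟨k, hk⟩
        apply Subtype.ext
        exact x.2.2 _ ⟨k, hk, rfl⟩
    rw [h2] at h1
    exact h1
  have hBfix : ∀ q ∈ Q, q B = B := by
    rintro q ⟨k, hk, rfl⟩
    exact k.2.2.2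
  have c1 : Nat.card {x : Ω // (x ≠ A ∧ S A x = S A B) ∧ ∀ q ∈ Q, q x = x} = 1 := by
    rw [Nat.card_eq_one_iff_unique]
    refine ⟨⟨?_⟩, ⟨⟨B, ⟨hAB.symm, rfl⟩, hBfix⟩⟩⟩
    have : ∀ x : {x : Ω // (x ≠ A ∧ S A x = S A B) ∧ ∀ q ∈ Q, q x = x}, x.1 = B := by
      intro x
      by_contra hx
      obtain ⟨q, hq, hqx⟩ := hcon x.1 x.2.1.1 hx
      exact hqx (x.2.2 q hq)
    intro x y
    apply Subtype.ext
    rw [this x, this y]
  have c2 : Nat.card {x : Ω // (x ≠ A ∧ S A x = - S A B) ∧ ∀ q ∈ Q, q x = x} = 0 := by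
    rw [Nat.card_eq_zero]
    left
    refine ⟨fun x => ?_⟩
    by_cases hx : x.1 = B
    · have h1 := x.2.1.2
      rw [hx] at h1
      exact uneg h1
    · obtain ⟨q, hq, hqx⟩ := hcon x.1 x.2.1.1 hx
      exact hqx (x.2.2 q hq)
  have k1 := key (S A B)
  have k2 := key (- S A B)
  rw [c1] at k1
  rw [c2] at k2
  have heq : Nat.card {x : Ω // x ≠ A ∧ S A x = S A B} =
      Nat.card {x : Ω // x ≠ A ∧ S A x = - S A B} := by
    have hh' : Nat.card {x : Ω // x ≠ A ∧ S A x = 1} = Nat.card {x : Ω // x ≠ A ∧ S A x = -1} := hh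
    rcases Int.units_eq_one_or (S A B) with h | h
    · rw [h]; exact hh'
    · rw [h]; simpa using hh'.symm
  rw [heq] at k1
  have := k1.symm.trans k2
  have h1 : (1 : ℕ) ≡ 0 [MOD p] := this
  rw [Nat.modEq_zero_iff_dvd] at h1
  exact hp.out.one_lt.ne' (Nat.dvd_one.mp h1)

/-- reversing elements -/
def Rev (S : Ω → Ω → ℤˣ) (g : Perm Ω) : Prop := ∀ X Y, X ≠ Y → S (g X) (g Y) = - S X Y

omit [Finite Ω] in
theorem rev_of_swap (hS : Skew S) {g : Perm Ω} (hg : g ∈ pmAut S) {A B : Ω} (hAB : A ≠ B)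
    (h : S (g A) (g B) = - S A B) : Rev S g := by
  obtain ⟨ε, hε⟩ := hg
  have h1 := hε A B hAB
  rw [h] at h1
  have : ε = -1 := by
    have h2 : (- S A B) * S A B = ε * S A B * S A B := by rw [h1]
    rw [mul_assoc, umul, mul_one, neg_mul, umul] at h2
    exact h2.symm
  intro X Y hXY
  rw [hε X Y hXY, this, neg_one_mul]

omit [Finite Ω] in
theorem rev_fixed_unique {g : Perm Ω} (hg : Rev S g) {X Y : Ω} (hX : g X = X) (hY : g Y = Y) :
    X = Y := by
  by_contra h
  have := hg X Y h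
  rw [hX, hY] at this
  exact uneg this

/-- the fixed point set of a Sylow subgroup of the two-point stabiliser has odd size. -/
theorem fixed_odd (hS : Skew S)
    (h2t : ∀ A B A' B' : Ω, A ≠ B → A' ≠ B' → ∃ g ∈ pmAut S, g A = A' ∧ g B = B')
    {A B : Ω} (hAB : A ≠ B) (p : ℕ) [hp : Fact p.Prime]
    (P : Sylow p (stab2 S A B))
    (hh : {x | x ≠ A ∧ S A x = 1}.ncard = {x | x ≠ A ∧ S A x = -1}.ncard) :
    {x | ∀ q ∈ (P : Subgroup (stab2 S A B)).map (stab2 S A B).subtype, q x = x}.ncard % 2 = 1 := by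
  classical
  obtain ⟨D, hDA, hDB, hD⟩ := third_fixed hAB p P hh
  set Q := (P : Subgroup (stab2 S A B)).map (stab2 S A B).subtype with hQ
  set F : Set Ω := {x | ∀ q ∈ Q, q x = x} with hF
  have hAF : A ∈ F := by
    rintro q ⟨k, hk, rfl⟩
    exact k.2.2.1
  have hBF : B ∈ F := by
    rintro q ⟨k, hk, rfl⟩
    exact k.2.2.2
  have hDF : D ∈ F := hD
  -- normalising elements preserve F
  have hnorm : ∀ h : Perm Ω, (∀ q : Perm Ω, q ∈ Q ↔ h * q * h⁻¹ ∈ Q) → ∀ x, x ∈ F ↔ h x ∈ F := by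
    intro h hh x
    constructor
    · intro hx q hq
      have h1 : h⁻¹ * q * h ∈ Q := by
        rw [hh]
        have : h * (h⁻¹ * q * h) * h⁻¹ = q := by group
        rw [this]; exact hq
      have h2 := hx _ h1
      simp only [Perm.mul_apply] at h2
      rw [Perm.inv_eq_iff_eq] at h2
      exact h2
    · intro hx q hq
      have h1 := hx _ ((hh q).mp hq)
      simp only [Perm.mul_apply] at h1
      rw [pia] at h1
      exact h.injective h1
  -- find a vertex with both kinds of neighbours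
  have hvert : ∃ U V W, U ∈ F ∧ V ∈ F ∧ W ∈ F ∧ U ≠ V ∧ U ≠ W ∧ S U W = - S U V := by
    have e1 : S B A = - S A B := hS A B hAB
    have e2 : S D B = - S B D := hS B D hDB.symm
    have e3 : S A D = - S D A := hS D A hDA
    rcases Int.units_eq_one_or (S A B) with h1 | h1 <;>
    rcases Int.units_eq_one_or (S B D) with h2 | h2 <;>
    rcases Int.units_eq_one_or (S D A) with h3 | h3
    · exact ⟨A, B, D, hAF, hBF, hDF, hAB, hDA.symm, by rw [e3, h1, h3]⟩
    · exact ⟨B, A, D, hBF, hAF, hDF, hAB.symm, hDB.symm, by rw [h2, e1, h1]; simp⟩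
    · exact ⟨A, B, D, hAF, hBF, hDF, hAB, hDA.symm, by rw [e3, h1, h3]⟩
    · exact ⟨D, A, B, hDF, hAF, hBF, hDA, hDB, by rw [e2, h2, h3]⟩
    · exact ⟨D, A, B, hDF, hAF, hBF, hDA, hDB, by rw [e2, h2, h3]⟩
    · exact ⟨A, B, D, hAF, hBF, hDF, hAB, hDA.symm, by rw [e3, h1, h3]⟩
    · exact ⟨B, A, D, hBF, hAF, hDF, hAB.symm, hDB.symm, by rw [h2, e1, h1]; simp⟩
    · exact ⟨A, B, D, hAF, hBF, hDF, hAB, hDA.symm, by rw [e3, h1, h3]⟩
  obtain ⟨U, V, W, hU, hV, hW, hUV, hUW, hSU⟩ := hvert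
  obtain ⟨g1, hg1, hg1A, hg1B, hn1⟩ := witt h2t hAB hUV P hU hV
  obtain ⟨g2, hg2, hg2A, hg2B, hn2⟩ := witt h2t hAB hUW P hU hW
  rw [← hQ] at hn1 hn2
  let g := g2 * g1⁻¹
  have hgU : g U = U := by
    show g2 (g1⁻¹ U) = U
    rw [← hg1A, pia, hg2A, hg1A]
  have hgV : g V = W := by
    show g2 (g1⁻¹ V) = W
    rw [← hg1B, pia, hg2B]
  have hg : g ∈ pmAut S := mul_mem hg2 (inv_mem hg1)
  have hrev : Rev S g := rev_of_swap hS hg hUV (by rw [hgU, hgV, hSU])
  have hgF : ∀ x, x ∈ F ↔ g x ∈ F := by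
    intro x
    have h1 := hnorm g1 hn1 (g1⁻¹ x)
    rw [pai] at h1
    have h2 := hnorm g2 hn2 (g1⁻¹ x)
    rw [← h1]
    exact h2
  have := odd_of_halves hU (halves hrev hgU hgF)
  omega

/-- the two-point stabiliser fixes the fixed point of an involution swapping the two points. -/
theorem stab_fixes (hS : Skew S)
    (h2t : ∀ A B A' B' : Ω, A ≠ B → A' ≠ B' → ∃ g ∈ pmAut S, g A = A' ∧ g B = B')
    {A B C : Ω} (hAB : A ≠ B) {s : Perm Ω} (hs : s ∈ pmAut S) (hss : s * s = 1) (hsA : s A = B)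
    (hsC : s C = C) {k : Perm Ω} (hk : k ∈ stab2 S A B) : k C = C := by
  classical
  have hsB : s B = A := by rw [← hsA, ← Perm.mul_apply, hss]; rfl
  have hrev : Rev S s := rev_of_swap hS hs hAB (by rw [hsA, hsB]; exact hS A B hAB)
  have hAC : C ≠ A := by
    rintro rfl; exact hAB (hsC.symm.trans hsA)
  -- a reversing element fixing A
  obtain ⟨g, hg, hgC, hgA⟩ := h2t C A A B hAC hAB
  have hrevA : Rev S (g * s * g⁻¹) := by
    obtain ⟨ε, hε⟩ := hg
    intro X Y hXY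
    have h1 : S (g (s (g⁻¹ X))) (g (s (g⁻¹ Y))) = ε * S (s (g⁻¹ X)) (s (g⁻¹ Y)) :=
      hε _ _ (s.injective.ne ((g⁻¹).injective.ne hXY))
    have h2 := hrev (g⁻¹ X) (g⁻¹ Y) ((g⁻¹).injective.ne hXY)
    have h3 := hε (g⁻¹ X) (g⁻¹ Y) ((g⁻¹).injective.ne hXY)
    rw [pai, pai] at h3
    show S (g (s (g⁻¹ X))) (g (s (g⁻¹ Y))) = - S X Y
    rw [h1, h2, h3, mul_neg]
  have hfixA : (g * s * g⁻¹) A = A := by
    show g (s (g⁻¹ A)) = A
    have : g⁻¹ A = C := by rw [Perm.inv_eq_iff_eq, hgC]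
    rw [this, hsC, hgC]
  have hh : {x | x ≠ A ∧ S A x = 1}.ncard = {x | x ≠ A ∧ S A x = -1}.ncard := by
    have := halves (F := Set.univ) hrevA hfixA (fun x => by simp)
    simpa using this
  let KC : Subgroup (stab2 S A B) :=
    { carrier := {k | (k : Perm Ω) C = C}
      mul_mem' := by
        rintro a b (ha : (a : Perm Ω) C = C) (hb : (b : Perm Ω) C = C)
        show (a : Perm Ω) ((b : Perm Ω) C) = C
        rw [hb, ha]
      one_mem' := rfl
      inv_mem' := by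
        rintro a (ha : (a : Perm Ω) C = C)
        show (a : Perm Ω)⁻¹ C = C
        rw [Perm.inv_eq_iff_eq, ha] }
  have hidx : KC.index = 1 := by
    by_contra hne
    obtain ⟨p, hp, hpd⟩ := Nat.exists_prime_and_dvd hne
    haveI : Fact p.Prime := ⟨hp⟩
    obtain ⟨P, hP⟩ := exists_inv_sylow hS hAB hs hss hsA p
    have hodd := fixed_odd hS h2t hAB p P hh
    set Q := (P : Subgroup (stab2 S A B)).map (stab2 S A B).subtype with hQ
    set F : Set Ω := {x | ∀ q ∈ Q, q x = x} with hF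
    have hsF : ∀ x, x ∈ F ↔ s x ∈ F := by
      have h1 : ∀ x, x ∈ F → s x ∈ F := by
        intro x hx q hq
        have h2 := hx _ (hP q hq)
        simp only [Perm.mul_apply] at h2
        have h3 : s (s (q (s x))) = q (s x) := by
          rw [← Perm.mul_apply, hss]; rfl
        rw [← h3, h2]
      intro x
      refine ⟨h1 x, fun h => ?_⟩
      have h2 := h1 _ h
      rwa [← Perm.mul_apply, hss] at h2
    let σ : Perm F := s.subtypePerm (fun x => (hsF x).symm)
    have h2' : Fact (Nat.Prime 2) := ⟨Nat.prime_two⟩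
    haveI : Fintype F := Fintype.ofFinite _
    have hcard : ¬ 2 ∣ Fintype.card F := by
      rw [← Nat.card_eq_fintype_card, Nat.card_coe_set_eq]
      omega
    have hσ : σ ^ 2 ^ 1 = 1 := by
      rw [pow_one, pow_two]
      ext x
      show s (s x.1) = x.1
      rw [← Perm.mul_apply, hss]; rfl
    obtain ⟨x, hx⟩ := Perm.exists_fixed_point_of_prime hcard hσ
    have hx' : s x.1 = x.1 := congrArg Subtype.val hx
    have hxC : x.1 = C := rev_fixed_unique hrev hx' hsC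
    have hCF : C ∈ F := by rw [← hxC]; exact x.2
    have hle : (P : Subgroup (stab2 S A B)) ≤ KC := by
      intro k hk
      exact hCF _ ⟨k, hk, rfl⟩
    exact P.not_dvd_index (hpd.trans (Subgroup.index_dvd_of_le hle))
  have : KC = ⊤ := Subgroup.index_eq_one.mp hidx
  have h1 : (⟨k, hk⟩ : stab2 S A B) ∈ KC := by rw [this]; trivial
  exact h1

/-- **Uniqueness**: two involutions swapping `A` and `B` have the same fixed point. -/
theorem fourth_unique (hS : Skew S)
    (h2t : ∀ A B A' B' : Ω, A ≠ B → A' ≠ B' → ∃ g ∈ pmAut S, g A = A' ∧ g B = B')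
    {A B C C' : Ω} (hAB : A ≠ B) {s s' : Perm Ω} (hs : s ∈ pmAut S) (hs' : s' ∈ pmAut S)
    (hss : s * s = 1) (hss' : s' * s' = 1) (hsA : s A = B) (hsA' : s' A = B)
    (hsC : s C = C) (hsC' : s' C' = C') : C = C' := by
  have hsB : s B = A := by rw [← hsA, ← Perm.mul_apply, hss]; rfl
  have hsB' : s' B = A := by rw [← hsA', ← Perm.mul_apply, hss']; rfl
  have hrev : Rev S s := rev_of_swap hS hs hAB (by rw [hsA, hsB]; exact hS A B hAB)
  have hk : s * s' ∈ stab2 S A B := by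
    refine ⟨mul_mem hs hs', ?_, ?_⟩
    · rw [Perm.mul_apply, hsA', hsB]
    · rw [Perm.mul_apply, hsB', hsA]
  have h1 := stab_fixes hS h2t hAB hs' hss' hsA' hsC' hk
  rw [Perm.mul_apply, hsC'] at h1
  exact rev_fixed_unique hrev hsC h1

end Pool.Agent.Char3
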