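import Pool.Agent.Char3.Hom

set_option autoImplicit false

namespace Pool.Agent.Char3

open Configuration Configuration.Nondegenerate Equiv

variable {P L : Type*} [Membership P L] [ProjectivePlane P L]

theorem exists_third [Finite P] [Finite L] (l : L) (a b : P) : ∃ c : P, c ∈ l ∧ c ≠ a ∧ c ≠ b := by
  have h1 := ProjectivePlane.two_lt_pointCount P l
  unfold pointCount at h1
  by_contra hcon
  push Not at hcon
  have h2 : {p : P | p ∈ l} ⊆ {a, b} := by
    intro p hp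
    by_cases h : p = a
    · left; exact h
    · right; exact hcon p hp h
  have h3 := Set.ncard_le_ncard h2 (Set.toFinite _)
  have h4 : ({a, b} : Set P).ncard ≤ 2 := Set.ncard_insert_le _ _ |>.trans (by simp)
  have h5 : {p : P | p ∈ l}.ncard = Nat.card {p : P // p ∈ l} := rfl
  omega

theorem exists_off_two [Finite P] [Finite L] {l m : L} (hlm : l ≠ m) : ∃ p : P, p ∉ l ∧ p ∉ m := by
  obtain ⟨a, ha, ham, -⟩ := exists_third l (mt l m : P) (mt l m : P)
  obtain ⟨b, hb, hbm, -⟩ := exists_third m (mt l m : P) (mt l m : P)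
  have ham' : a ∉ m := fun h => ham (eq_mt hlm ha h)
  have hbl' : b ∉ l := fun h => hbm (eq_mt hlm h hb)
  have hab : a ≠ b := fun h => ham' (h ▸ hb)
  obtain ⟨c, hc, hca, hcb⟩ := exists_third (jn a b : L) a b
  refine ⟨c, ?_, ?_⟩
  · intro h
    have : (jn a b : L) = l := line_eq hca hc (mem_jn_left _ _) h ha
    exact hbl' (by rw [← this]; exact mem_jn_right _ _)
  · intro h
    have : (jn a b : L) = m := line_eq hcb hc (mem_jn_right _ _) h hb
    exact ham' (by rw [← this]; exact mem_jn_left _ _)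

/-- elations with axis `l` -/
structure IsTr (l : L) (σ : Perm P) : Prop where
  coll : σ ∈ Coll P L
  fix : ∀ p ∈ l, σ p = p
  free : ∀ p, p ∉ l → σ p = p → σ = 1

theorem off_of_fix {l : L} {σ : Perm P} (h : ∀ p ∈ l, σ p = p) {p : P} (hp : p ∉ l) : σ p ∉ l := by
  intro h1
  have h2 := h _ h1
  exact hp (by rw [← σ.injective h2]; exact h1)

/-- a collineation fixing `l` pointwise maps a line through `Z ∈ l` and `p` to `jn Z (σ p)`. -/
theorem line_map {l : L} {σ : Perm P} (hσ : σ ∈ Coll P L) (h : ∀ p ∈ l, σ p = p) {Z p x : P}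
    (hZ : Z ∈ l) (hp : p ∉ l) (hx : x ∈ (jn Z p : L)) : σ x ∈ (jn Z (σ p) : L) := by
  have h1 := (Coll.jn_iff hσ (ne_of_mem hZ hp) x).mp hx
  rwa [h Z hZ] at h1

theorem IsTr.center {l : L} {σ : Perm P} (hσ : IsTr l σ) (hne : σ ≠ 1) :
    ∃ X ∈ l, ∀ p, p ∉ l → σ p ∈ (jn X p : L) := by
  obtain ⟨p₀, hp₀⟩ := exists_point (P := P) l
  have hZ : ∀ p, p ∉ l → ∀ q, q ∈ (jn p (σ p) : L) → σ q ∈ (jn p (σ p) : L) := by
    intro p hp q hq
    have hpσ : p ≠ σ p := fun h => hne (hσ.free p hp h.symm)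
    set Z : P := mt (jn p (σ p) : L) l with hZdef
    have hZl : Z ∈ l := mt_mem_right _ _
    have hZj : Z ∈ (jn p (σ p) : L) := mt_mem_left _ _
    have e1 : (jn p (σ p) : L) = jn Z p := eq_jn (ne_of_mem hZl hp) hZj (mem_jn_left _ _)
    have e2 : (jn p (σ p) : L) = jn Z (σ p) :=
      eq_jn (ne_of_mem hZl (off_of_fix hσ.fix hp)) hZj (mem_jn_right _ _)
    rw [e2]
    exact line_map hσ.coll hσ.fix hZl hp (by rw [← e1]; exact hq)
  have same : ∀ p q, p ∉ l → q ∉ l →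
      (mt (jn p (σ p) : L) l : P) = mt (jn q (σ q) : L) l := by
    intro p q hp hq
    by_contra hcon
    have hkk : (jn p (σ p) : L) ≠ jn q (σ q) := fun h => hcon (by rw [h])
    set R : P := mt (jn p (σ p) : L) (jn q (σ q) : L) with hR
    have hR1 : R ∈ (jn p (σ p) : L) := mt_mem_left _ _
    have hR2 : R ∈ (jn q (σ q) : L) := mt_mem_right _ _
    have hpl : (jn p (σ p) : L) ≠ l := by
      intro h; exact hp (by rw [← h]; exact mem_jn_left _ _)
    have hql : (jn q (σ q) : L) ≠ l := by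
      intro h; exact hq (by rw [← h]; exact mem_jn_left _ _)
    have hRl : R ∉ l := by
      intro h
      exact hcon ((eq_mt hpl hR1 h).symm.trans (eq_mt hql hR2 h))
    have h1 := hZ p hp R hR1
    have h2 := hZ q hq R hR2
    exact hne (hσ.free R hRl (point_eq hkk h1 h2 hR1 hR2))
  refine ⟨mt (jn p₀ (σ p₀) : L) l, mt_mem_right _ _, ?_⟩
  intro p hp
  rw [same p₀ p hp₀ hp]
  have h1 : (mt (jn p (σ p) : L) l : P) ≠ p := ne_of_mem (mt_mem_right _ _) hp
  have h2 : (jn p (σ p) : L) = jn (mt (jn p (σ p) : L) l : P) p :=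
    eq_jn h1 (mt_mem_left _ _) (mem_jn_left _ _)
  rw [← h2]
  exact mem_jn_right _ _

theorem eq_one_of_center [Finite P] [Finite L] {l : L} {ρ : Perm P} (hρ : ρ ∈ Coll P L)
    (hfix : ∀ p ∈ l, ρ p = p)
    {X : P} (hX : X ∈ l) (hc : ∀ p, p ∉ l → ρ p ∈ (jn X p : L)) {C : P} (hC : C ∉ l)
    (hρC : ρ C = C) : ρ = 1 := by
  have main : ∀ C : P, C ∉ l → ρ C = C → ∀ p, p ∉ l → p ∉ (jn X C : L) → ρ p = p := by
    intro C hC hρC p hp hpX
    have hCp : C ≠ p := fun h => hpX (h ▸ mem_jn_right _ _)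
    set Z : P := mt (jn C p : L) l with hZ
    have hZl : Z ∈ l := mt_mem_right _ _
    have hZj : Z ∈ (jn C p : L) := mt_mem_left _ _
    have e1 : (jn C p : L) = jn Z C := eq_jn (ne_of_mem hZl hC) hZj (mem_jn_left _ _)
    have h1 : ρ p ∈ (jn Z (ρ C) : L) :=
      line_map hρ hfix hZl hC (by rw [← e1]; exact mem_jn_right _ _)
    rw [hρC, ← e1] at h1
    have h2 := hc p hp
    have hne : (jn C p : L) ≠ jn X p := by
      intro h
      have h3 : C ∈ (jn X p : L) := by rw [← h]; exact mem_jn_left _ _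
      have h4 : (jn X p : L) = jn X C := eq_jn (ne_of_mem hX hC) (mem_jn_left _ _) h3
      exact hpX (by rw [← h4]; exact mem_jn_right _ _)
    exact point_eq hne h1 h2 (mem_jn_right _ _) (mem_jn_right _ _)
  have hlX : l ≠ (jn X C : L) := by
    intro h; exact hC (by rw [h]; exact mem_jn_right _ _)
  obtain ⟨C', hC'l, hC'X⟩ := exists_off_two (P := P) hlX
  have hρC' := main C hC hρC C' hC'l hC'X
  ext p
  show ρ p = p
  by_cases hp : p ∈ l
  · exact hfix p hp
  by_cases hpX : p ∈ (jn X C : L)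
  · apply main C' hC'l hρC' p hp
    intro h
    have h1 : (jn X C' : L) = jn X C :=
      line_eq (ne_of_mem hX hp) (mem_jn_left _ _) h (mem_jn_left _ _) hpX
    exact hC'X (by rw [← h1]; exact mem_jn_right _ _)
  · exact main C hC hρC p hp hpX

theorem IsTr.one (l : L) : IsTr l (1 : Perm P) :=
  ⟨one_mem _, fun _ _ => rfl, fun _ _ _ => rfl⟩

theorem IsTr.inv {l : L} {σ : Perm P} (hσ : IsTr l σ) : IsTr l σ⁻¹ := by
  refine ⟨inv_mem hσ.coll, ?_, ?_⟩
  · intro p hp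
    rw [Perm.inv_eq_iff_eq, hσ.fix p hp]
  · intro p hp h
    rw [Perm.inv_eq_iff_eq] at h
    rw [hσ.free p hp h.symm, inv_one]

theorem IsTr.mul [Finite P] [Finite L] {l : L} {σ τ : Perm P} (hσ : IsTr l σ) (hτ : IsTr l τ) :
    IsTr l (σ * τ) := by
  refine ⟨mul_mem hσ.coll hτ.coll, ?_, ?_⟩
  · intro p hp
    rw [Perm.mul_apply, hτ.fix p hp, hσ.fix p hp]
  · intro C hC h
    rw [Perm.mul_apply] at h
    by_cases hτ1 : τ = 1
    · subst hτ1
      have := hσ.free C hC h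
      rw [this, mul_one]
    by_cases hσ1 : σ = 1
    · subst hσ1
      have := hτ.free C hC h
      rw [this, mul_one]
    obtain ⟨X, hX, hcX⟩ := hσ.center hσ1
    obtain ⟨Z, hZ, hcZ⟩ := hτ.center hτ1
    have hD : τ C ≠ C := fun h' => hτ1 (hτ.free C hC h')
    have hDl : τ C ∉ l := off_of_fix hτ.fix hC
    have h1 : τ C ∈ (jn Z C : L) := hcZ C hC
    have h2 : C ∈ (jn X (τ C) : L) := by
      have := hcX (τ C) hDl
      rwa [h] at this
    have e1 : (jn Z C : L) = jn X (τ C) :=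
      line_eq hD h1 (mem_jn_right _ _) (mem_jn_right _ _) h2
    have hZl : (jn Z C : L) ≠ l := by
      intro h'; exact hC (by rw [← h']; exact mem_jn_right _ _)
    have e2 : X = Z := point_eq hZl (by rw [e1]; exact mem_jn_left _ _) hX (mem_jn_left _ _) hZ
    subst e2
    apply eq_one_of_center (mul_mem hσ.coll hτ.coll) (l := l) (X := X) _ hX _ hC
    · rw [Perm.mul_apply, h]
    · intro p hp
      rw [Perm.mul_apply, hτ.fix p hp, hσ.fix p hp]
    · intro p hp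
      rw [Perm.mul_apply]
      have hpl : τ p ∉ l := off_of_fix hτ.fix hp
      have h3 := hcX (τ p) hpl
      have h4 : (jn X p : L) = jn X (τ p) :=
        eq_jn (ne_of_mem hX hpl) (mem_jn_left _ _) (hcZ p hp)
      rw [h4]; exact h3

/-- the group of elations with axis `l`. -/
def Tr [Finite P] [Finite L] (l : L) : Subgroup (Perm P) where
  carrier := {σ | IsTr l σ}
  mul_mem' := fun h1 h2 => h1.mul h2
  one_mem' := IsTr.one l
  inv_mem' := fun h => h.inv

theorem mem_Tr [Finite P] [Finite L] {l : L} {σ : Perm P} : σ ∈ Tr l ↔ IsTr l σ := Iff.rfl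

theorem Tr_ext [Finite P] [Finite L] {l : L} {σ τ : Perm P} (hσ : σ ∈ Tr l) (hτ : τ ∈ Tr l) {A : P}
    (hA : A ∉ l) (h : σ A = τ A) : σ = τ := by
  have h1 : τ⁻¹ * σ ∈ Tr l := mul_mem (inv_mem hτ) hσ
  have h2 : (τ⁻¹ * σ) A = A := by
    rw [Perm.mul_apply, Perm.inv_eq_iff_eq, h]
  have h3 := h1.free A hA h2
  rw [inv_mul_eq_one] at h3
  exact h3.symm

/-- elations with axis `l` and centre `X` -/
structure IsTX (l : L) (X : P) (σ : Perm P) : Prop where
  tr : IsTr l σ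
  cen : ∀ p, p ∉ l → σ p ∈ (jn X p : L)

theorem IsTX.mul [Finite P] [Finite L] {l : L} {X : P} (hX : X ∈ l) {σ τ : Perm P}
    (hσ : IsTX l X σ) (hτ : IsTX l X τ) : IsTX l X (σ * τ) := by
  refine ⟨hσ.tr.mul hτ.tr, ?_⟩
  intro p hp
  rw [Perm.mul_apply]
  have hpl : τ p ∉ l := off_of_fix hτ.tr.fix hp
  have h3 := hσ.cen (τ p) hpl
  have h4 : (jn X p : L) = jn X (τ p) :=
    eq_jn (ne_of_mem hX hpl) (mem_jn_left _ _) (hτ.cen p hp)
  rw [h4]; exact h3

theorem IsTX.inv {l : L} {X : P} (hX : X ∈ l) {σ : Perm P}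
    (hσ : IsTX l X σ) : IsTX l X σ⁻¹ := by
  refine ⟨hσ.tr.inv, ?_⟩
  intro p hp
  have hq : σ⁻¹ p ∉ l := off_of_fix hσ.tr.inv.fix hp
  have h1 := hσ.cen _ hq
  have h2 : σ (σ⁻¹ p) = p := by rw [← Perm.mul_apply, mul_inv_cancel]; rfl
  rw [h2] at h1
  have h3 : (jn X (σ⁻¹ p) : L) = jn X p := eq_jn (ne_of_mem hX hp) (mem_jn_left _ _) h1
  rw [← h3]; exact mem_jn_right _ _

theorem IsTX.eq_one {l : L} {X Z : P} (hX : X ∈ l) (hZ : Z ∈ l) (hXZ : X ≠ Z) {σ : Perm P}
    (h1 : IsTX l X σ) (h2 : IsTX l Z σ) : σ = 1 := by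
  obtain ⟨p, hp⟩ := exists_point (P := P) l
  apply h1.tr.free p hp
  have hne : (jn X p : L) ≠ jn Z p := by
    intro h
    have : (jn X p : L) = l :=
      line_eq hXZ (mem_jn_left _ _) (by rw [h]; exact mem_jn_left _ _) hX hZ
    exact hp (by rw [← this]; exact mem_jn_right _ _)
  exact point_eq hne (h1.cen p hp) (h2.cen p hp) (mem_jn_right _ _) (mem_jn_right _ _)

theorem exists_center [Finite P] [Finite L] {l : L} {σ : Perm P} (hσ : IsTr l σ) :
    ∃ X ∈ l, IsTX l X σ := by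
  by_cases h : σ = 1
  · subst h
    obtain ⟨X, hX⟩ := exists_point_on (P := P) l
    exact ⟨X, hX, hσ, fun p _ => mem_jn_right _ _⟩
  · obtain ⟨X, hX, hc⟩ := hσ.center h
    exact ⟨X, hX, hσ, hc⟩

/-- conjugation of elations by a collineation preserving `l`. -/
theorem IsTr.conj [Finite P] [Finite L] {l : L} {σ g : Perm P} (hg : g ∈ Coll P L)
    (hgl : ∀ p, p ∈ l ↔ g p ∈ l) (hσ : IsTr l σ) : IsTr l (g * σ * g⁻¹) := by
  have hgl' : ∀ p, p ∈ l ↔ g⁻¹ p ∈ l := by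
    intro p
    rw [hgl (g⁻¹ p), ← Perm.mul_apply, mul_inv_cancel]; rfl
  refine ⟨mul_mem (mul_mem hg hσ.coll) (inv_mem hg), ?_, ?_⟩
  · intro p hp
    simp only [Perm.mul_apply]
    rw [hσ.fix _ ((hgl' p).mp hp), ← Perm.mul_apply, mul_inv_cancel]; rfl
  · intro p hp h
    simp only [Perm.mul_apply] at h
    have h1 : σ (g⁻¹ p) = g⁻¹ p := by
      rw [eq_comm, Perm.inv_eq_iff_eq, h]
    rw [hσ.free _ (fun h => hp ((hgl' p).mpr h)) h1]
    group

theorem IsTX.conj [Finite P] [Finite L] {l : L} {X : P} (hX : X ∈ l) {σ g : Perm P}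
    (hg : g ∈ Coll P L) (hgl : ∀ p, p ∈ l ↔ g p ∈ l) (hσ : IsTX l X σ) :
    IsTX l (g X) (g * σ * g⁻¹) := by
  have hgl' : ∀ p, p ∈ l ↔ g⁻¹ p ∈ l := by
    intro p
    rw [hgl (g⁻¹ p), ← Perm.mul_apply, mul_inv_cancel]; rfl
  refine ⟨hσ.tr.conj hg hgl, ?_⟩
  intro p hp
  simp only [Perm.mul_apply]
  have hq : g⁻¹ p ∉ l := fun h => hp ((hgl' p).mpr h)
  have h1 := hσ.cen _ hq
  have h2 := (Coll.jn_iff hg (ne_of_mem hX hq) _).mp h1
  have h3 : g (g⁻¹ p) = p := by rw [← Perm.mul_apply, mul_inv_cancel]; rfl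
  rwa [h3] at h2

end Pool.Agent.Char3
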