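import Pool.Agent.Char3.Tour3
import Pool.Agent.Char3.Nabla

set_option autoImplicit false

namespace Pool.Agent.Char3

open Configuration Configuration.Nondegenerate Equiv

variable {P L : Type*} [Membership P L] [ProjectivePlane P L] [Finite P] [Finite L]

/-- bijections between lines preserving `nab` up to a global sign -/
def Good {m m1 : L} (φ : {p : P // p ∈ m} ≃ {p : P // p ∈ m1}) : Prop :=
  ∃ K : ℤˣ, ∀ X Y Z : {p : P // p ∈ m}, X ≠ Y → Y ≠ Z → X ≠ Z →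
    nab m1 (φ X : P) (φ Y : P) (φ Z : P) = K * nab m (X : P) (Y : P) (Z : P)

theorem Good.trans {m m1 m2 : L} {φ : {p : P // p ∈ m} ≃ {p : P // p ∈ m1}}
    {ψ : {p : P // p ∈ m1} ≃ {p : P // p ∈ m2}} (hφ : Good φ) (hψ : Good ψ) :
    Good (φ.trans ψ) := by
  obtain ⟨K, hK⟩ := hφ
  obtain ⟨K', hK'⟩ := hψ
  refine ⟨K' * K, ?_⟩
  intro X Y Z hXY hYZ hXZ
  rw [Equiv.trans_apply, Equiv.trans_apply, Equiv.trans_apply,
    hK' _ _ _ (φ.injective.ne hXY) (φ.injective.ne hYZ) (φ.injective.ne hXZ),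
    hK _ _ _ hXY hYZ hXZ, mul_assoc]

theorem good_pers (h3 : IsChar3 P L) (hn : ProjectivePlane.order P L % 2 = 1) {Q : P} {m m1 : L}
    (hm : Q ∉ m) (hm1 : Q ∉ m1) : Good (pers Q m m1 hm hm1) := by
  obtain ⟨K, hK⟩ := nab_pers h3 hn hm hm1
  refine ⟨K, ?_⟩
  intro X Y Z hXY hYZ hXZ
  exact hK X Y Z X.2 Y.2 Z.2 (fun h => hXY (Subtype.ext h)) (fun h => hYZ (Subtype.ext h))
    (fun h => hXZ (Subtype.ext h))

/-- the line `m` minus the point `Y` -/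
abbrev Om (m : L) (Y : P) : Type _ := {p : {p : P // p ∈ m} // (p : P) ≠ Y}

/-- the tournament -/
noncomputable def TS (m : L) (Y : P) : Om m Y → Om m Y → ℤˣ :=
  fun A B => nab m Y (A : P) (B : P)

theorem TS_skew (h3 : IsChar3 P L) (hn : ProjectivePlane.order P L % 4 = 3) {m : L} {Y : P}
    (hY : Y ∈ m) : Skew (TS m Y) := by
  intro A B hAB
  have h1 : (A : P) ≠ (B : P) := fun h => hAB (Subtype.ext (Subtype.ext h))
  exact nab_skew h3 hn hY B.1.2 A.1.2 B.2.symm h1.symm A.2.symm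

/-- restriction of a permutation of `m` fixing `Y` -/
noncomputable def restr {m : L} {Y : P} (hY : Y ∈ m) (φ : Perm {p : P // p ∈ m})
    (h : φ ⟨Y, hY⟩ = ⟨Y, hY⟩) : Perm (Om m Y) :=
  φ.subtypePerm (fun x => by
    constructor
    · intro hx h1
      apply hx
      rw [show x = ⟨Y, hY⟩ from Subtype.ext h1, h]
    · intro hx h1
      apply hx
      have : φ x = φ ⟨Y, hY⟩ := by
        rw [h]; exact Subtype.ext h1
      exact congrArg Subtype.val (φ.injective this))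

theorem restr_coe {m : L} {Y : P} (hY : Y ∈ m) (φ : Perm {p : P // p ∈ m})
    (h : φ ⟨Y, hY⟩ = ⟨Y, hY⟩) (x : Om m Y) : (restr hY φ h x : {p : P // p ∈ m}) = φ x.1 := rfl

theorem restr_mem {m : L} {Y : P} (hY : Y ∈ m) (φ : Perm {p : P // p ∈ m})
    (h : φ ⟨Y, hY⟩ = ⟨Y, hY⟩) (hg : Good φ) : restr hY φ h ∈ pmAut (TS m Y) := by
  obtain ⟨K, hK⟩ := hg
  refine ⟨K, ?_⟩
  intro A B hAB
  have h1 : A.1 ≠ B.1 := fun h => hAB (Subtype.ext h)
  have h2 : (⟨Y, hY⟩ : {p : P // p ∈ m}) ≠ A.1 := fun h => A.2 (by rw [← h])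
  have h3 : (⟨Y, hY⟩ : {p : P // p ∈ m}) ≠ B.1 := fun h => B.2 (by rw [← h])
  have := hK ⟨Y, hY⟩ A.1 B.1 h2 h1 h3
  rw [h] at this
  exact this

theorem TS_2trans (h3 : IsChar3 P L) (hn : ProjectivePlane.order P L % 2 = 1) {m : L} {Y : P}
    (hY : Y ∈ m) : ∀ A B A' B' : Om m Y, A ≠ B → A' ≠ B' →
      ∃ g ∈ pmAut (TS m Y), g A = A' ∧ g B = B' := by
  rintro ⟨⟨A, hA⟩, hAY⟩ ⟨⟨B, hB⟩, hBY⟩ ⟨⟨A', hA'⟩, hAY'⟩ ⟨⟨B', hB'⟩, hBY'⟩ hAB hAB'
  simp only [ne_eq] at hAY hBY hAY' hBY'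
  have hne : A ≠ B := by
    intro h
    exact hAB (Subtype.ext (Subtype.ext h))
  have hne' : A' ≠ B' := by
    intro h
    exact hAB' (Subtype.ext (Subtype.ext h))
  -- choose X off m, and a line k through Y, k ≠ m, not through X
  obtain ⟨X, hX⟩ := exists_point (P := P) m
  have hXY : X ≠ Y := fun h => hX (h ▸ hY)
  have hXA : X ≠ A := fun h => hX (h ▸ hA)
  -- a third point on XA
  obtain ⟨V, hV, hVX, hVA⟩ : ∃ V, V ∈ (jn X A : L) ∧ V ≠ X ∧ V ≠ A := by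
    have h1 := ProjectivePlane.two_lt_pointCount P (jn X A : L)
    unfold pointCount at h1
    by_contra hcon
    push Not at hcon
    have h2 : {p : P | p ∈ (jn X A : L)} ⊆ {X, A} := by
      intro p hp
      by_cases h : p = X
      · left; exact h
      · right; exact hcon p hp h
    have h3 := Set.ncard_le_ncard h2 (Set.toFinite _)
    have h4 : ({X, A} : Set P).ncard ≤ 2 := Set.ncard_insert_le _ _ |>.trans (by simp)
    have h5 : {p : P | p ∈ (jn X A : L)}.ncard = Nat.card {p : P // p ∈ (jn X A : L)} := rfl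
    omega
  have hXAm : (jn X A : L) ≠ m := by
    intro h; exact hX (by rw [← h]; exact mem_jn_left _ _)
  have hVm : V ∉ m := fun h => hVA (point_eq hXAm hV h (mem_jn_right _ _) hA)
  have hVY : V ≠ Y := fun h => hVm (h ▸ hY)
  set k : L := jn Y V with hk
  have hYk : Y ∈ k := mem_jn_left _ _
  have hkm : k ≠ m := by
    intro h; exact hVm (by rw [← h]; exact mem_jn_right _ _)
  have hXk : X ∉ k := by
    intro h
    have h1 : k = (jn X A : L) := line_eq hVX (mem_jn_right _ _) h hV (mem_jn_left _ _)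
    have h2 : A ∈ k := by rw [h1]; exact mem_jn_right _ _
    exact hAY (point_eq hkm h2 hA hYk hY)
  set A1 := pr X k A with hA1
  set B1 := pr X k B with hB1
  have hA1k : A1 ∈ k := pr_mem _ _ _
  have hB1k : B1 ∈ k := pr_mem _ _ _
  have hAB1 : A1 ≠ B1 := fun h => hne (pr_inj hX hXk hA hB h)
  have hY1 : pr X k Y = Y := pr_self hXk hYk
  have hA1Y : A1 ≠ Y := by
    intro h
    rw [← hY1] at h
    exact hAY (pr_inj hX hXk hA hY h)
  have hB1Y : B1 ≠ Y := by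
    intro h
    rw [← hY1] at h
    exact hBY (pr_inj hX hXk hB hY h)
  have hA1m : A1 ∉ m := fun h => hA1Y (point_eq hkm hA1k h hYk hY)
  have hB1m : B1 ∉ m := fun h => hB1Y (point_eq hkm hB1k h hYk hY)
  have hA'k : A' ∉ k := fun h => hAY' (point_eq hkm h hA' hYk hY)
  have hB'k : B' ∉ k := fun h => hBY' (point_eq hkm h hB' hYk hY)
  have hlines : (jn A' A1 : L) ≠ jn B' B1 := by
    intro h
    have h1 : (jn A' A1 : L) = k :=
      line_eq hAB1 (mem_jn_right _ _) (by rw [h]; exact mem_jn_right _ _) hA1k hB1k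
    exact hA'k (by rw [← h1]; exact mem_jn_left _ _)
  set Z : P := mt (jn A' A1 : L) (jn B' B1) with hZ
  have hZ1 : Z ∈ (jn A' A1 : L) := mt_mem_left _ _
  have hZ2 : Z ∈ (jn B' B1 : L) := mt_mem_right _ _
  have hA'A1 : (jn A' A1 : L) ≠ k := by
    intro h; exact hA'k (by rw [← h]; exact mem_jn_left _ _)
  have hB'B1 : (jn B' B1 : L) ≠ k := by
    intro h; exact hB'k (by rw [← h]; exact mem_jn_left _ _)
  have hA'A1m : (jn A' A1 : L) ≠ m := by
    intro h; exact hA1m (by rw [← h]; exact mem_jn_right _ _)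
  have hB'B1m : (jn B' B1 : L) ≠ m := by
    intro h; exact hB1m (by rw [← h]; exact mem_jn_right _ _)
  have hZk : Z ∉ k := by
    intro h
    have h1 : Z = A1 := point_eq hA'A1 hZ1 h (mem_jn_right _ _) hA1k
    have h2 : Z = B1 := point_eq hB'B1 hZ2 h (mem_jn_right _ _) hB1k
    exact hAB1 (h1.symm.trans h2)
  have hZm : Z ∉ m := by
    intro h
    have h1 : Z = A' := point_eq hA'A1m hZ1 h (mem_jn_left _ _) hA'
    have h2 : Z = B' := point_eq hB'B1m hZ2 h (mem_jn_left _ _) hB'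
    exact hne' (h1.symm.trans h2)
  have eA : A' = pr Z m A1 :=
    eq_pr hZm (ne_of_mem hA1k hZk) hZ1 (mem_jn_right _ _) (mem_jn_left _ _) hA'
  have eB : B' = pr Z m B1 :=
    eq_pr hZm (ne_of_mem hB1k hZk) hZ2 (mem_jn_right _ _) (mem_jn_left _ _) hB'
  let φ : Perm {p : P // p ∈ m} := (pers X m k hX hXk).trans (pers Z k m hZk hZm)
  have hφY : φ ⟨Y, hY⟩ = ⟨Y, hY⟩ := by
    apply Subtype.ext
    show pr Z m (pr X k Y) = Y
    rw [hY1, pr_self hZm hY]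
  have hφ : Good φ := (good_pers h3 hn hX hXk).trans (good_pers h3 hn hZk hZm)
  refine ⟨restr hY φ hφY, restr_mem hY φ hφY hφ, ?_, ?_⟩
  · apply Subtype.ext
    apply Subtype.ext
    exact eA.symm
  · apply Subtype.ext
    apply Subtype.ext
    exact eB.symm

theorem Cfg.good_s (h3 : IsChar3 P L) (hn : ProjectivePlane.order P L % 2 = 1)
    {m l : L} {O Y X Z : P} (c : Cfg m l O Y X Z) : Good c.s :=
  (good_pers h3 hn _ _).trans ((good_pers h3 hn _ _).trans (good_pers h3 hn _ _))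

/-- the configuration inside a subplane. -/
theorem Sub3.exists_cfg {S : Set P} {T : Set L} (hS : Sub3 S T) {m : L} {Y C X : P}
    (hYm : Y ∈ m) (hYS : Y ∈ S) (hCm : C ∈ m) (hCY : C ≠ Y) (hXS : X ∈ S)
    (hXm : X ∉ m) : ∃ Z ∈ S, Cfg m (jn Y X : L) C Y X Z := by
  have hXY : X ≠ Y := fun h => hXm (h ▸ hYm)
  have hl : (jn Y X : L) ∈ T := hS.jn_mem hYS hXS hXY.symm
  have h2 := hS.two hl hXY.symm hYS (mem_jn_left _ _) hXS (mem_jn_right _ _)
  obtain ⟨Z, hZ⟩ : {p : P | p ∈ S ∧ p ∈ (jn Y X : L) ∧ p ≠ Y ∧ p ≠ X}.Nonempty := by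
    apply Set.nonempty_of_ncard_ne_zero
    omega
  refine ⟨Z, hZ.1, hYm, hCm, hCY, mem_jn_left _ _, ?_, mem_jn_right _ _, hZ.2.1, hXY, hZ.2.2.1,
    hZ.2.2.2.symm⟩
  intro h
  exact hXm (by rw [← h]; exact mem_jn_right _ _)

/-- **Uniqueness of the fourth point**, for planes of characteristic three and order `≡ 3 mod 4`. -/
theorem fourth_point_unique (h3 : IsChar3 P L) (hn : ProjectivePlane.order P L % 4 = 3)
    {S S' : Set P} {T T' : Set L} (hS : Sub3 S T) (hS' : Sub3 S' T') {m : L} {Y A B C C' X X' : P}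
    (hYm : Y ∈ m) (hAm : A ∈ m) (hBm : B ∈ m) (hCm : C ∈ m) (hCm' : C' ∈ m)
    (hYA : A ≠ Y) (hYB : B ≠ Y) (hAB : A ≠ B) (hCY : C ≠ Y) (hCA : C ≠ A) (hCB : C ≠ B)
    (hCY' : C' ≠ Y) (hCA' : C' ≠ A) (hCB' : C' ≠ B)
    (hYS : Y ∈ S) (hAS : A ∈ S) (hBS : B ∈ S) (hCS : C ∈ S) (hXS : X ∈ S) (hXm : X ∉ m)
    (hYS' : Y ∈ S') (hAS' : A ∈ S') (hBS' : B ∈ S') (hCS' : C' ∈ S') (hXS' : X' ∈ S')
    (hXm' : X' ∉ m) : C = C' := by
  have hn2 : ProjectivePlane.order P L % 2 = 1 := by omega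
  obtain ⟨Z, hZS, c⟩ := hS.exists_cfg hYm hYS hCm hCY hXS hXm
  obtain ⟨Z', hZS', c'⟩ := hS'.exists_cfg hYm hYS' hCm' hCY' hXS' hXm'
  have e1 : c.s ⟨A, hAm⟩ = ⟨B, hBm⟩ :=
    c.s_fourth h3 hS hCS hYS hXS hZS hAm hAS hCA.symm hYA hBm hBS hCB.symm hYB hAB
  have e2 : c'.s ⟨A, hAm⟩ = ⟨B, hBm⟩ :=
    c'.s_fourth h3 hS' hCS' hYS' hXS' hZS' hAm hAS' hCA'.symm hYA hBm hBS' hCB'.symm hYB hAB
  have key := fourth_unique (S := TS m Y) (TS_skew h3 hn hYm) (TS_2trans h3 hn2 hYm)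
    (A := ⟨⟨A, hAm⟩, hYA⟩) (B := ⟨⟨B, hBm⟩, hYB⟩) (C := ⟨⟨C, hCm⟩, hCY⟩) (C' := ⟨⟨C', hCm'⟩, hCY'⟩)
    (s := restr hYm c.s c.s_Y) (s' := restr hYm c'.s c'.s_Y)
    (by intro h; exact hAB (congrArg (fun x => x.1.1) h))
    (restr_mem hYm _ _ (c.good_s h3 hn2)) (restr_mem hYm _ _ (c'.good_s h3 hn2))
    (by
      ext x
      show ((c.s (c.s x.1) : {p : P // p ∈ m}) : P) = _
      rw [c.s_s h3]; rfl)
    (by
      ext x
      show ((c'.s (c'.s x.1) : {p : P // p ∈ m}) : P) = _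
      rw [c'.s_s h3]; rfl)
    (Subtype.ext e1) (Subtype.ext e2) (Subtype.ext c.s_O) (Subtype.ext c'.s_O)
  exact congrArg (fun x => x.1.1) key

end Pool.Agent.Char3
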